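import Pool.Agent.Lib.MP_fe72db_an.Robust

/-! General tools used to verify Axiom A and the no-cycle condition. -/

open Filter Topology Set Metric

namespace Pool.Agent.Lib.MP_fe72db_an

lemma coe_eq_coe_iff {s t : ℝ} :
    (s : UnitAddCircle) = (t : UnitAddCircle) ↔ ∃ k : ℤ, s = t + k := by
  rw [← sub_eq_zero, ← AddCircle.coe_sub, AddCircle.coe_eq_zero_iff]
  constructor
  · rintro ⟨k, hk⟩; exact ⟨k, by simp at hk; linarith⟩
  · rintro ⟨k, hk⟩; exact ⟨k, by simp [hk]⟩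

lemma proj_eq_iff {u v : E} :
    proj u = proj v ↔ (∃ k : ℤ, u.1 = v.1 + k) ∧ ∃ k : ℤ, u.2 = v.2 + k := by
  simp only [proj, Prod.mk.injEq, coe_eq_coe_iff]

lemma exists_perm_of_lift {F G : E → E} (hF : ContDiff ℝ 1 F) (hG : ContDiff ℝ 1 G)
    (h1 : ∀ u v, proj u = proj v → proj (F u) = proj (F v))
    (h2 : ∀ u v, proj u = proj v → proj (G u) = proj (G v))
    (hGF : ∀ z, G (F z) = z) (hFG : ∀ z, F (G z) = z) :
    ∃ f ∈ Diff1, ∀ z, f (proj z) = proj (F z) := by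
  have e1 : ∀ z, proj (F (lift (proj z))) = proj (F z) := fun z => h1 _ _ (proj_lift _)
  have e2 : ∀ z, proj (G (lift (proj z))) = proj (G z) := fun z => h2 _ _ (proj_lift _)
  refine ⟨⟨fun x => proj (F (lift x)), fun x => proj (G (lift x)), fun x => ?_, fun x => ?_⟩,
    ⟨⟨F, hF, e1⟩, ⟨G, hG, e2⟩⟩, e1⟩
  · simp only [e2, hGF, proj_lift]
  · simp only [e1, hFG, proj_lift]

lemma zpow_succ_apply (f : Equiv.Perm T) (n : ℤ) (x : T) : (f ^ (n + 1)) x = f ((f ^ n) x) := by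
  rw [add_comm, zpow_one_add]; rfl

lemma zpow_mem_nonwandering {f : Equiv.Perm T} (hf : f ∈ Diff1) {x : T}
    (hx : x ∈ nonwandering f) (n : ℤ) : (f ^ n) x ∈ nonwandering f :=
  orbit_subset (fun _ => apply_mem_nonwandering hf) (fun _ => inv_apply_mem_nonwandering hf) hx
    ⟨n, rfl⟩

lemma dichotomy {f : Equiv.Perm T} (hf : f ∈ Diff1) {C : Set T} (hC : IsClosed C)
    (hm : MapsTo f C C) (h2 : ∀ x ∈ C, f (f x) ∈ interior C) {x : T} (hx : x ∈ nonwandering f) :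
    (∀ n : ℤ, (f ^ n) x ∈ C) ∨ ∀ n : ℤ, (f ^ n) x ∉ C := by
  have key : ∀ y ∈ nonwandering f, f y ∈ C → y ∈ C := by
    intro y hy hy'
    by_contra hc
    have hc3 : Continuous fun z => f (f (f z)) := by
      have := continuous_of_Diff1 hf
      fun_prop
    refine notMem_nonwandering hf (inter_mem (hC.isOpen_compl.mem_nhds hc)
      (hc3.continuousAt.preimage_mem_nhds (isOpen_interior.mem_nhds (h2 _ hy')))) ?_ hy
    filter_upwards [eventually_ge_atTop 3] with n hn z hz hz'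
    obtain ⟨m, rfl⟩ := Nat.exists_eq_add_of_le' hn
    apply hz'.1
    rw [pow_add, Equiv.Perm.mul_apply]
    exact pow_mapsTo hm m (interior_subset hz.2)
  have step : ∀ n : ℤ, (f ^ (n + 1)) x ∈ C ↔ (f ^ n) x ∈ C := fun n => by
    rw [zpow_succ_apply]
    exact ⟨key _ (zpow_mem_nonwandering hf hx n), fun h => hm h⟩
  have all : ∀ n : ℤ, (f ^ n) x ∈ C ↔ (f ^ (0 : ℤ)) x ∈ C := by
    intro n
    induction n using Int.induction_on with
    | zero => rfl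
    | succ n ih => rw [step, ih]
    | pred n ih => rw [← ih, ← step, sub_add_cancel]
  by_cases h0 : (f ^ (0 : ℤ)) x ∈ C
  · exact Or.inl fun n => (all n).2 h0
  · exact Or.inr fun n h => h0 ((all n).1 h)

lemma eventually_mem_of_infDist {u : ℕ → T} {Λ U : Set T} (hΛ : IsClosed Λ) (hne : Λ.Nonempty)
    (hU : IsOpen U) (hΛU : Λ ⊆ U) (h : Tendsto (fun n => infDist (u n) Λ) atTop (𝓝 0)) :
    ∀ᶠ n in atTop, u n ∈ U := by
  obtain ⟨δ, hδ, H⟩ := hΛ.isCompact.exists_thickening_subset_open hU hΛU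
  filter_upwards [h.eventually_lt_const hδ] with n hn
  exact H ((mem_thickening_iff_infDist_lt hne).2 hn)

lemma no_conn {f : Equiv.Perm T} {C A B : Set T} (hC : IsClosed C) (hm : MapsTo f C C)
    (hA : IsClosed A) (hA' : A.Nonempty) (hAC : A ⊆ interior C) (hB : IsClosed B)
    (hB' : B.Nonempty) (hBC : B ⊆ Cᶜ) {x : T} (h1 : x ∈ Ws f⁻¹ A) (h2 : x ∈ Ws f B) : False := by
  obtain ⟨n, hn⟩ := (eventually_mem_of_infDist hA hA' isOpen_interior hAC h1).exists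
  obtain ⟨m, hm'⟩ := (eventually_mem_of_infDist hB hB' hC.isOpen_compl hBC h2).exists
  apply hm'
  have e : (f ^ n) ((f⁻¹ ^ n) x) = x := inv_pow_apply_eq_iff.1 rfl
  exact pow_mapsTo hm m (e ▸ pow_mapsTo hm n (interior_subset hn))

lemma IsHyperbolic.union {f : Equiv.Perm T} {A B : Set T} (hA : IsHyperbolic f A)
    (hB : IsHyperbolic f B) (hi : ∀ x, f x ∈ A ↔ x ∈ A) : IsHyperbolic f (A ∪ B) := by
  classical
  obtain ⟨Es, Eu, C, lam, hC, h0, h1, H⟩ := hA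
  obtain ⟨Es', Eu', C', lam', hC', h0', h1', H'⟩ := hB
  have m1 : ∀ (n : ℕ) (r : ℝ), 0 ≤ r → C * lam ^ n * r ≤ max C C' * max lam lam' ^ n * r :=
    fun n r hr => by gcongr <;> exact le_max_left _ _
  have m2 : ∀ (n : ℕ) (r : ℝ), 0 ≤ r → C' * lam' ^ n * r ≤ max C C' * max lam lam' ^ n * r :=
    fun n r hr => by gcongr <;> exact le_max_right _ _
  refine ⟨fun x => if x ∈ A then Es x else Es' x, fun x => if x ∈ A then Eu x else Eu' x,
    max C C', max lam lam', lt_max_of_lt_left hC, lt_max_of_lt_left h0, max_lt h1 h1',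
    fun x hx => ?_⟩
  by_cases hxA : x ∈ A
  · simp only [if_pos hxA, if_pos ((hi x).2 hxA)]
    obtain ⟨a1, a2, a3, a4⟩ := H x hxA
    exact ⟨a1, a2, a3, fun n => ⟨fun v hv => ((a4 n).1 v hv).trans (m1 n _ (norm_nonneg _)),
      fun v hv => ((a4 n).2 v hv).trans (m1 n _ (norm_nonneg _))⟩⟩
  · simp only [if_neg hxA, if_neg fun h => hxA ((hi x).1 h)]
    obtain ⟨a1, a2, a3, a4⟩ := H' x (hx.resolve_left hxA)
    exact ⟨a1, a2, a3, fun n => ⟨fun v hv => ((a4 n).1 v hv).trans (m2 n _ (norm_nonneg _)),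
      fun v hv => ((a4 n).2 v hv).trans (m2 n _ (norm_nonneg _))⟩⟩

lemma D_surjective {f : Equiv.Perm T} (hf : f ∈ Diff1) (x : T) : Function.Surjective (D f x) :=
  fun w => ⟨D (f⁻¹ : Equiv.Perm T) (f x) w, by
    rw [← mul_apply_eq_comp, D_mul_inv' hf]; rfl⟩

lemma D_inv_apply {f : Equiv.Perm T} (hf : f ∈ Diff1) (x : T) (w : E) :
    D (f⁻¹ : Equiv.Perm T) (f x) (D f x w) = w := by
  rw [← mul_apply_eq_comp, D_inv_mul hf]; rfl

lemma isHyperbolic_sink {f : Equiv.Perm T} (hf : f ∈ Diff1) {p : T} (hp : f p = p)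
    (hA : Cplx (D f p)) : IsHyperbolic f {p} := by
  obtain ⟨P, a, ha0, ha, hconf⟩ := hA.exists_conf
  have hpow : ∀ n : ℕ, (f ^ n) p = p ∧ D (f ^ n : Equiv.Perm T) p = D f p ^ n := by
    intro n
    induction n with
    | zero => exact ⟨rfl, by rw [pow_zero, pow_zero, D_one]⟩
    | succ n ih =>
      rw [D_pow_succ hf, ih.1, ih.2, pow_succ', pow_succ', Equiv.Perm.mul_apply, ih.1]
      exact ⟨hp, rfl⟩
  refine ⟨fun _ => ⊤, fun _ => ⊥, cst P + 1, a, by linarith [cst_nonneg P], ha0, ha, ?_⟩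
  rintro x rfl
  refine ⟨isCompl_top_bot, ?_, by simp, fun n => ⟨fun v _ => ?_, fun v hv => ?_⟩⟩
  · rw [Submodule.map_top, LinearMap.range_eq_top]
    exact D_surjective hf x
  · rw [(hpow n).2]
    calc _ ≤ inm P * ‖P ((D f x ^ n) v)‖ := norm_le_inm P _
      _ = inm P * (a ^ n * ‖P v‖) := by rw [conf_pow hconf]
      _ ≤ inm P * (a ^ n * (‖(P : E →L[ℝ] ℂ)‖ * ‖v‖)) := by
        have := inm_nonneg P
        gcongr; exact norm_P_le P v
      _ = cst P * a ^ n * ‖v‖ := by unfold cst inm; ring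
      _ ≤ _ := by gcongr; linarith
  · rw [Submodule.mem_bot] at hv
    simp [hv]

lemma frame_bound {f : Equiv.Perm T} (hf : f ∈ Diff1) {Λ : Set T} (h1 : ∀ x ∈ Λ, f x ∈ Λ)
    {e : T → E} {c lam : ℝ} (hc : 0 < c) (h0 : 0 < lam)
    (hn : ∀ x ∈ Λ, c ≤ ‖e x‖ ∧ ‖e x‖ ≤ 1)
    (he : ∀ x ∈ Λ, ∃ μ : ℝ, |μ| ≤ lam ∧ D f x (e x) = μ • e (f x)) (n : ℕ) {x : T} (hx : x ∈ Λ)
    {v : E} (hv : v ∈ Submodule.span ℝ {e x}) :
    ‖D (f ^ n : Equiv.Perm T) x v‖ ≤ c⁻¹ * lam ^ n * ‖v‖ := by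
  have key : ∀ n : ℕ, ∀ x ∈ Λ, ‖D (f ^ n : Equiv.Perm T) x (e x)‖ ≤ lam ^ n := by
    intro n
    induction n with
    | zero => intro x hx; simpa using (hn x hx).2
    | succ n ih =>
      intro x hx
      obtain ⟨μ, hμ, h⟩ := he x hx
      rw [D_pow_succ' hf, mul_apply_eq_comp, h, map_smul, norm_smul, pow_succ', Real.norm_eq_abs]
      exact mul_le_mul hμ (ih _ (h1 x hx)) (norm_nonneg _) h0.le
  obtain ⟨s, rfl⟩ := Submodule.mem_span_singleton.1 hv
  rw [map_smul, norm_smul, norm_smul]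
  have h2 : 1 ≤ c⁻¹ * ‖e x‖ := by
    rw [← div_eq_inv_mul, le_div_iff₀ hc, one_mul]; exact (hn x hx).1
  calc ‖s‖ * ‖D (f ^ n : Equiv.Perm T) x (e x)‖ ≤ ‖s‖ * lam ^ n * 1 := by
        rw [mul_one]; exact mul_le_mul_of_nonneg_left (key n x hx) (norm_nonneg _)
    _ ≤ ‖s‖ * lam ^ n * (c⁻¹ * ‖e x‖) := by gcongr
    _ = _ := by ring

lemma frame_map {A : E →L[ℝ] E} {u w : E} {μ : ℝ} (hμ : μ ≠ 0) (h : A u = μ • w) :
    (Submodule.span ℝ {u}).map A.toLinearMap = Submodule.span ℝ {w} := by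
  rw [Submodule.map_span, image_singleton]
  change Submodule.span ℝ {A u} = _
  rw [h, Submodule.span_singleton_smul_eq (isUnit_iff_ne_zero.2 hμ)]

lemma isCompl_span {u w : E} (h : u.1 * w.2 - u.2 * w.1 ≠ 0) :
    IsCompl (Submodule.span ℝ {u}) (Submodule.span ℝ {w}) := by
  constructor
  · rw [Submodule.disjoint_def]
    intro v h1 h2
    obtain ⟨s, rfl⟩ := Submodule.mem_span_singleton.1 h1
    obtain ⟨t, ht⟩ := Submodule.mem_span_singleton.1 h2
    have e1 : t * w.1 = s * u.1 := congrArg Prod.fst ht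
    have e2 : t * w.2 = s * u.2 := congrArg Prod.snd ht
    have : s * (u.1 * w.2 - u.2 * w.1) = 0 := by linear_combination (-w.2) * e1 + w.1 * e2
    rw [(mul_eq_zero.1 this).resolve_right h, zero_smul]
  · rw [codisjoint_iff, eq_top_iff]
    intro v _
    refine Submodule.mem_sup.2 ⟨((v.1 * w.2 - v.2 * w.1) / (u.1 * w.2 - u.2 * w.1)) • u,
      Submodule.smul_mem _ _ (Submodule.mem_span_singleton_self _),
      ((u.1 * v.2 - u.2 * v.1) / (u.1 * w.2 - u.2 * w.1)) • w,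
      Submodule.smul_mem _ _ (Submodule.mem_span_singleton_self _), ?_⟩
    ext
    · simp only [Prod.fst_add, Prod.smul_fst, smul_eq_mul]
      rw [div_mul_eq_mul_div, div_mul_eq_mul_div, ← add_div, div_eq_iff h]; ring
    · simp only [Prod.snd_add, Prod.smul_snd, smul_eq_mul]
      rw [div_mul_eq_mul_div, div_mul_eq_mul_div, ← add_div, div_eq_iff h]; ring

lemma isHyperbolic_of_frames {f : Equiv.Perm T} (hf : f ∈ Diff1) {Λ : Set T}
    (h1 : ∀ x ∈ Λ, f x ∈ Λ) (h2 : ∀ x ∈ Λ, f⁻¹ x ∈ Λ) (es eu : T → E) {c lam : ℝ} (hc : 0 < c)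
    (h0 : 0 < lam) (hl : lam < 1) (hs : ∀ x ∈ Λ, c ≤ ‖es x‖ ∧ ‖es x‖ ≤ 1)
    (hu : ∀ x ∈ Λ, c ≤ ‖eu x‖ ∧ ‖eu x‖ ≤ 1)
    (hdet : ∀ x ∈ Λ, (es x).1 * (eu x).2 - (es x).2 * (eu x).1 ≠ 0)
    (hes : ∀ x ∈ Λ, ∃ μ : ℝ, |μ| ≤ lam ∧ D f x (es x) = μ • es (f x))
    (heu : ∀ x ∈ Λ, ∃ ν : ℝ, |ν| ≤ lam ∧ ν • D f x (eu x) = eu (f x)) : IsHyperbolic f Λ := by
  refine ⟨fun x => Submodule.span ℝ {es x}, fun x => Submodule.span ℝ {eu x}, c⁻¹, lam,
    inv_pos.2 hc, h0, hl, fun x hx => ⟨isCompl_span (hdet x hx), ?_, ?_, fun n =>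
      ⟨fun v hv => frame_bound hf h1 hc h0 hs hes n hx hv,
        fun v hv => frame_bound (inv_mem_Diff1 hf) h2 hc h0 hu ?_ n hx hv⟩⟩⟩
  · obtain ⟨μ, -, h⟩ := hes x hx
    refine frame_map (μ := μ) ?_ h
    rintro rfl
    have := D_inv_apply hf x (es x)
    rw [h, zero_smul, map_zero] at this
    have h3 := (hs x hx).1
    rw [← this, norm_zero] at h3
    linarith
  · obtain ⟨ν, -, h⟩ := heu x hx
    have hν : ν ≠ 0 := by
      rintro rfl
      have h3 := (hu _ (h1 x hx)).1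
      rw [← h, zero_smul, norm_zero] at h3
      linarith
    exact frame_map (inv_ne_zero hν) (by rw [← h, smul_smul, inv_mul_cancel₀ hν, one_smul])
  · intro y hy
    obtain ⟨ν, hν, h⟩ := heu _ (h2 y hy)
    refine ⟨ν, hν, ?_⟩
    have := D_inv_apply hf (f⁻¹ y) (eu (f⁻¹ y))
    rw [show f (f⁻¹ y) = y by simp] at this h
    rw [← h, map_smul, this]

lemma exists_fix {ι : Type*} (Φ : (ι → ℝ) → ι → ℝ) {lo hi θ : ℝ} (hlo : lo ≤ hi) (h0 : 0 ≤ θ)
    (h1 : θ < 1) (hm : ∀ u, (∀ i, u i ∈ Icc lo hi) → ∀ i, Φ u i ∈ Icc lo hi)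
    (hc : ∀ u v M, (∀ i, u i ∈ Icc lo hi) → (∀ i, v i ∈ Icc lo hi) → (∀ i, |u i - v i| ≤ M) →
      ∀ i, |Φ u i - Φ v i| ≤ θ * M) : ∃ u, (∀ i, u i ∈ Icc lo hi) ∧ Φ u = u := by
  set w : ℕ → ι → ℝ := fun k => Φ^[k] fun _ => lo with hw
  have hs : ∀ k, w (k + 1) = Φ (w k) := fun k => Function.iterate_succ_apply' _ _ _
  have hI : ∀ k i, w k i ∈ Icc lo hi := by
    intro k
    induction k with
    | zero => exact fun _ => ⟨le_rfl, hlo⟩
    | succ k ih => rw [hs]; exact hm _ ih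
  have hd : ∀ k i, dist (w k i) (w (k + 1) i) ≤ (hi - lo) * θ ^ k := by
    intro k
    induction k with
    | zero =>
      intro i
      have a1 := hI 0 i
      have a2 := hI 1 i
      rw [Real.dist_eq, abs_le, pow_zero, mul_one]
      constructor <;> linarith [a1.1, a1.2, a2.1, a2.2]
    | succ k ih =>
      intro i
      have := hc _ _ _ (hI k) (hI (k + 1)) ih i
      rw [← hs, ← hs] at this
      rw [Real.dist_eq, pow_succ]; linarith
  have hlim : ∀ i, ∃ a, Tendsto (fun k => w k i) atTop (𝓝 a) := fun i =>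
    cauchySeq_tendsto_of_complete (cauchySeq_of_le_geometric θ (hi - lo) h1 fun k => hd k i)
  choose u hu using hlim
  have huI : ∀ i, u i ∈ Icc lo hi := fun i =>
    isClosed_Icc.mem_of_tendsto (hu i) (Eventually.of_forall fun k => hI k i)
  refine ⟨u, huI, funext fun i => ?_⟩
  have hb : ∀ k i, |w k i - u i| ≤ (hi - lo) * θ ^ k / (1 - θ) := fun k i =>
    dist_le_of_le_geometric_of_tendsto θ (hi - lo) h1 (fun k => hd k i) (hu i) k
  have h3 : Tendsto (fun k => w (k + 1) i) atTop (𝓝 (Φ u i)) := by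
    rw [tendsto_iff_norm_sub_tendsto_zero]
    refine squeeze_zero (g := fun k => θ * ((hi - lo) * θ ^ k / (1 - θ))) (fun _ => norm_nonneg _)
      (fun k => by rw [hs]; exact hc _ _ _ (hI k) huI (hb k) i) ?_
    simpa using ((((tendsto_pow_atTop_nhds_zero_of_lt_one h0 h1).const_mul (hi - lo)).div_const
      (1 - θ)).const_mul θ)
  exact tendsto_nhds_unique h3 ((tendsto_add_atTop_iff_nat 1).2 (hu i))

lemma eq_zero_of_expand {ι : Type*} {A : ι → Prop} (s : ι → ι) (d : ι → ℝ)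
    (h : ∀ i, A i → A (s i) ∧ 2 * d i ≤ d (s i) ∧ d i ≤ 1) {i : ι} (hi : A i) : d i ≤ 0 := by
  have key : ∀ k : ℕ, ∀ i, A i → 2 ^ k * d i ≤ 1 := by
    intro k
    induction k with
    | zero => intro i hi; simpa using (h i hi).2.2
    | succ k ih =>
      intro i hi
      have h1 := ih _ (h i hi).1
      have h2 := mul_le_mul_of_nonneg_left (h i hi).2.1 (show (0 : ℝ) ≤ 2 ^ k by positivity)
      rw [pow_succ]; linarith
  by_contra hc
  push Not at hc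
  obtain ⟨k, hk⟩ := pow_unbounded_of_one_lt (1 / d i) (show (1 : ℝ) < 2 by norm_num)
  have := key k i hi
  rw [div_lt_iff₀ hc] at hk
  linarith

end Pool.Agent.Lib.MP_fe72db_an
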