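import Pool.Agent.Lib.MP_fe72db_an.Defs

/-! Basic calculus on the torus. -/

open Filter Topology Set Metric

namespace Pool.Agent.Lib.MP_fe72db_an

lemma proj_add (u v : E) : proj (u + v) = proj u + proj v := by
  simp [proj]

lemma proj_sub (u v : E) : proj (u - v) = proj u - proj v := by
  simp [proj]

lemma proj_neg (u : E) : proj (-u) = - proj u := by
  simp [proj]

@[simp] lemma proj_zero : proj 0 = 0 := by
  simp [proj]

lemma continuous_proj : Continuous proj := by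
  unfold proj
  fun_prop

lemma isOpenMap_proj : IsOpenMap proj := by
  have h : IsOpenMap ((↑) : ℝ → UnitAddCircle) := QuotientAddGroup.isOpenMap_coe
  exact h.prodMap h

lemma proj_lift (x : T) : proj (lift x) = x := by
  simp [proj, lift]

lemma surjective_proj : Function.Surjective proj := fun x => ⟨lift x, proj_lift x⟩

lemma isOpenQuotientMap_proj : IsOpenQuotientMap proj :=
  ⟨surjective_proj, continuous_proj, isOpenMap_proj⟩

lemma lift1_coe {t : ℝ} (ht : |t| < 1 / 2) :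
    ((AddCircle.equivIoc 1 (-1 / 2) (t : UnitAddCircle) : ℝ)) = t := by
  have : t ∈ Ioc (-1 / 2 : ℝ) (-1 / 2 + 1) := by
    rw [abs_lt] at ht
    constructor <;> linarith [ht.1, ht.2]
  rw [AddCircle.equivIoc_coe_eq this]

lemma lift_proj {v : E} (hv : ‖v‖ < 1 / 2) : lift (proj v) = v := by
  have h1 : |v.1| < 1 / 2 := lt_of_le_of_lt (by simpa using norm_fst_le v) hv
  have h2 : |v.2| < 1 / 2 := lt_of_le_of_lt (by simpa using norm_snd_le v) hv
  ext
  · exact lift1_coe h1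
  · exact lift1_coe h2

@[simp] lemma lift_zero : lift 0 = 0 := by
  have := lift_proj (v := 0) (by simp)
  simpa using this

lemma norm_proj_le (v : E) : ‖proj v‖ ≤ ‖v‖ := by
  have h : ∀ t : ℝ, ‖(t : UnitAddCircle)‖ ≤ ‖t‖ := fun t => QuotientAddGroup.norm_mk_le_norm
  rw [Prod.norm_def, Prod.norm_def]
  exact max_le_max (h _) (h _)

lemma norm_proj {v : E} (hv : ‖v‖ ≤ 1 / 2) : ‖proj v‖ = ‖v‖ := by
  have h : ∀ t : ℝ, |t| ≤ 1 / 2 → ‖(t : UnitAddCircle)‖ = ‖t‖ := fun t ht => by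
    rw [Real.norm_eq_abs]
    exact (AddCircle.norm_coe_eq_abs_iff (p := 1) one_ne_zero).2 (by simpa using ht)
  have h1 : |v.1| ≤ 1 / 2 := le_trans (by simpa using norm_fst_le v) hv
  have h2 : |v.2| ≤ 1 / 2 := le_trans (by simpa using norm_snd_le v) hv
  rw [Prod.norm_def, Prod.norm_def]
  simp only [proj]
  rw [h _ h1, h _ h2]

lemma norm_lift_le (x : T) : ‖lift x‖ ≤ 1 / 2 := by
  have h : ∀ y : UnitAddCircle, ‖((AddCircle.equivIoc 1 (-1 / 2) y : ℝ))‖ ≤ 1 / 2 := fun y => by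
    have := (AddCircle.equivIoc 1 (-1 / 2) y).2
    rw [Real.norm_eq_abs, abs_le]
    constructor <;> linarith [this.1, this.2]
  rw [Prod.norm_def]
  exact max_le (h _) (h _)

lemma norm_lift (x : T) : ‖lift x‖ = ‖x‖ := by
  conv_rhs => rw [← proj_lift x]
  exact (norm_proj (norm_lift_le x)).symm

lemma dist_add_proj_le (x : T) (v : E) : dist (x + proj v) x ≤ ‖v‖ := by
  rw [dist_eq_norm, add_sub_cancel_left]
  exact norm_proj_le v

lemma dist_add_proj (x : T) {v : E} (hv : ‖v‖ ≤ 1 / 2) : dist (x + proj v) x = ‖v‖ := by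
  rw [dist_eq_norm, add_sub_cancel_left]
  exact norm_proj hv

lemma add_proj_lift_sub (x y : T) : x + proj (lift (y - x)) = y := by
  rw [proj_lift]; abel

lemma norm_lift_sub (x y : T) : ‖lift (y - x)‖ = dist y x := by
  rw [norm_lift, dist_eq_norm]

lemma proj_injOn {u v : E} (h : proj u = proj v) (huv : ‖u - v‖ ≤ 1 / 2) : u = v := by
  have h1 : proj (u - v) = 0 := by rw [proj_sub, h, sub_self]
  have h2 := norm_proj huv
  rw [h1, norm_zero] at h2
  exact sub_eq_zero.1 (norm_eq_zero.1 h2.symm)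

/-- Computation of the derivative from a local lift. -/
lemma D_eq_of_local {f : T → T} {x : T} {G : E → E} {A : E →L[ℝ] E} (hG : HasFDerivAt G A 0)
    (h0 : G 0 = 0) (h : ∀ᶠ v in 𝓝 (0 : E), f (x + proj v) = f x + proj (G v)) : D f x = A := by
  have h1 : ∀ᶠ v in 𝓝 (0 : E), ‖G v‖ < 1 / 2 := by
    have := hG.continuousAt.norm
    rw [ContinuousAt, h0, norm_zero] at this
    exact this.eventually_lt_const (by norm_num)
  have h2 : (fun v : E => lift (f (x + proj v) - f x)) =ᶠ[𝓝 0] G := by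
    filter_upwards [h, h1] with v hv hv1
    rw [hv, add_sub_cancel_left, lift_proj hv1]
  unfold D
  rw [h2.fderiv_eq, hG.fderiv]

lemma D_eq_of_lift {f : T → T} {F : E → E} (hF : ∀ z, f (proj z) = proj (F z)) {z : E}
    {A : E →L[ℝ] E} (hA : HasFDerivAt F A z) : D f (proj z) = A := by
  refine D_eq_of_local (G := fun v => F (z + v) - F z) ?_ (by simp) ?_
  · have h1 : HasFDerivAt (fun v : E => z + v) (ContinuousLinearMap.id ℝ E) 0 :=
      (hasFDerivAt_id (0 : E)).const_add z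
    have h2 : HasFDerivAt F A (z + 0) := by simpa using hA
    simpa using (h2.comp (0 : E) h1).sub_const (F z)
  · refine Eventually.of_forall fun v => ?_
    rw [← proj_add, hF, hF, proj_sub]; abel

lemma D_eq_fderiv {f : T → T} {F : E → E} (hF1 : ContDiff ℝ 1 F)
    (hF : ∀ z, f (proj z) = proj (F z)) (z : E) : D f (proj z) = fderiv ℝ F z :=
  D_eq_of_lift hF ((hF1.differentiable one_ne_zero z).hasFDerivAt)

lemma D_congr {f g : T → T} {x : T} (h : f =ᶠ[𝓝 x] g) : D f x = D g x := by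
  have h1 : Tendsto (fun v : E => x + proj v) (𝓝 0) (𝓝 x) := by
    have : Continuous fun v : E => x + proj v := continuous_const.add continuous_proj
    simpa using this.tendsto 0
  unfold D
  apply Filter.EventuallyEq.fderiv_eq
  filter_upwards [h1.eventually h] with v hv
  rw [hv, h.eq_of_nhds]

lemma IsC1.continuous {f : T → T} (hf : IsC1 f) : Continuous f := by
  obtain ⟨F, hF1, hF⟩ := hf
  rw [← isOpenQuotientMap_proj.continuous_comp_iff]
  have : f ∘ proj = proj ∘ F := funext hF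
  rw [this]
  exact continuous_proj.comp hF1.continuous

lemma IsC1.continuous_D {f : T → T} (hf : IsC1 f) : Continuous (D f) := by
  obtain ⟨F, hF1, hF⟩ := hf
  rw [← isOpenQuotientMap_proj.continuous_comp_iff]
  have : D f ∘ proj = fderiv ℝ F := funext fun z => D_eq_fderiv hF1 hF z
  rw [this]
  exact hF1.continuous_fderiv one_ne_zero

lemma isC1_id : IsC1 id := ⟨id, contDiff_id, fun _ => rfl⟩

lemma IsC1.comp {f g : T → T} (hf : IsC1 f) (hg : IsC1 g) : IsC1 (f ∘ g) := by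
  obtain ⟨F, hF1, hF⟩ := hf
  obtain ⟨G, hG1, hG⟩ := hg
  exact ⟨F ∘ G, hF1.comp hG1, fun z => by simp [hF, hG]⟩

@[simp] lemma D_id (x : T) : D id x = ContinuousLinearMap.id ℝ E := by
  obtain ⟨z, rfl⟩ := surjective_proj x
  exact D_eq_of_lift (F := id) (fun _ => rfl) (hasFDerivAt_id z)

lemma D_comp {f g : T → T} (hf : IsC1 f) (hg : IsC1 g) (x : T) :
    D (f ∘ g) x = (D f (g x)).comp (D g x) := by
  obtain ⟨F, hF1, hF⟩ := hf
  obtain ⟨G, hG1, hG⟩ := hg
  obtain ⟨z, rfl⟩ := surjective_proj x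
  rw [hG, D_eq_fderiv hF1 hF, D_eq_fderiv hG1 hG]
  exact D_eq_of_lift (F := F ∘ G) (fun z => by simp [hF, hG])
    ((hF1.differentiable one_ne_zero _).hasFDerivAt.comp z
      (hG1.differentiable one_ne_zero _).hasFDerivAt)

/-- A `C^1` lift centered at `x`. -/
lemma IsC1.exists_lift_at {f : T → T} (hf : IsC1 f) (x : T) :
    ∃ G : E → E, ContDiff ℝ 1 G ∧ G 0 = 0 ∧ (∀ v, f (x + proj v) = f x + proj (G v)) ∧
      ∀ v, fderiv ℝ G v = D f (x + proj v) := by
  obtain ⟨F, hF1, hF⟩ := hf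
  obtain ⟨z, rfl⟩ := surjective_proj x
  have hc : ContDiff ℝ 1 fun v : E => F (z + v) := hF1.comp (contDiff_const.add contDiff_id)
  refine ⟨fun v => F (z + v) - F z, hc.sub contDiff_const, by simp, fun v => ?_, fun v => ?_⟩
  · rw [← proj_add, hF, hF, proj_sub]; abel
  · rw [← proj_add, D_eq_fderiv hF1 hF]
    have h1 : HasFDerivAt (fun v : E => z + v) (ContinuousLinearMap.id ℝ E) v :=
      (hasFDerivAt_id v).const_add z
    have h2 := (hF1.differentiable one_ne_zero (z + v)).hasFDerivAt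
    simpa using ((h2.comp v h1).sub_const (F z)).fderiv

/-! The group of diffeomorphisms -/

lemma one_mem_Diff1 : (1 : Equiv.Perm T) ∈ Diff1 := ⟨isC1_id, isC1_id⟩

lemma mul_mem_Diff1 {f g : Equiv.Perm T} (hf : f ∈ Diff1) (hg : g ∈ Diff1) : f * g ∈ Diff1 := by
  refine ⟨hf.1.comp hg.1, ?_⟩
  rw [mul_inv_rev]
  exact hg.2.comp hf.2

lemma inv_mem_Diff1 {f : Equiv.Perm T} (hf : f ∈ Diff1) : f⁻¹ ∈ Diff1 :=
  ⟨hf.2, by rw [inv_inv]; exact hf.1⟩

lemma pow_mem_Diff1 {f : Equiv.Perm T} (hf : f ∈ Diff1) (n : ℕ) : f ^ n ∈ Diff1 := by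
  induction n with
  | zero => simpa using one_mem_Diff1
  | succ n ih => rw [pow_succ]; exact mul_mem_Diff1 ih hf

lemma zpow_mem_Diff1 {f : Equiv.Perm T} (hf : f ∈ Diff1) (n : ℤ) : f ^ n ∈ Diff1 := by
  obtain ⟨m, rfl | rfl⟩ := n.eq_nat_or_neg
  · rw [zpow_natCast]; exact pow_mem_Diff1 hf m
  · rw [zpow_neg, zpow_natCast]; exact inv_mem_Diff1 (pow_mem_Diff1 hf m)

lemma continuous_of_Diff1 {f : Equiv.Perm T} (hf : f ∈ Diff1) : Continuous f := hf.1.continuous

@[simp] lemma D_one (x : T) : D (1 : Equiv.Perm T) x = 1 := D_id x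

lemma D_mul {f g : Equiv.Perm T} (hf : f ∈ Diff1) (hg : g ∈ Diff1) (x : T) :
    D (f * g : Equiv.Perm T) x = D f (g x) * D g x := D_comp hf.1 hg.1 x

lemma D_inv_mul {f : Equiv.Perm T} (hf : f ∈ Diff1) (x : T) :
    D (f⁻¹ : Equiv.Perm T) (f x) * D f x = 1 := by
  rw [← D_mul (inv_mem_Diff1 hf) hf, inv_mul_cancel, D_one]

lemma D_mul_inv {f : Equiv.Perm T} (hf : f ∈ Diff1) (x : T) :
    D f (f⁻¹ x) * D (f⁻¹ : Equiv.Perm T) x = 1 := by
  rw [← D_mul hf (inv_mem_Diff1 hf), mul_inv_cancel, D_one]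

lemma D_mul_inv' {f : Equiv.Perm T} (hf : f ∈ Diff1) (x : T) :
    D f x * D (f⁻¹ : Equiv.Perm T) (f x) = 1 := by
  simpa using D_mul_inv hf (f x)

lemma D_pow_succ {f : Equiv.Perm T} (hf : f ∈ Diff1) (n : ℕ) (x : T) :
    D (f ^ (n + 1) : Equiv.Perm T) x = D f ((f ^ n) x) * D (f ^ n : Equiv.Perm T) x := by
  rw [pow_succ', D_mul hf (pow_mem_Diff1 hf n)]

lemma D_pow_succ' {f : Equiv.Perm T} (hf : f ∈ Diff1) (n : ℕ) (x : T) :
    D (f ^ (n + 1) : Equiv.Perm T) x = D (f ^ n : Equiv.Perm T) (f x) * D f x := by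
  rw [pow_succ, D_mul (pow_mem_Diff1 hf n) hf]

lemma exists_bound_D {f : T → T} (hf : IsC1 f) : ∃ M : ℝ, 1 ≤ M ∧ ∀ x, ‖D f x‖ ≤ M := by
  obtain ⟨M, hM⟩ := isCompact_univ.exists_bound_of_continuousOn hf.continuous_D.continuousOn
  exact ⟨max M 1, le_max_right _ _, fun x => (hM x (mem_univ x)).trans (le_max_left _ _)⟩

lemma unifCont {Y : Type*} [PseudoMetricSpace Y] {φ : T → Y} (h : Continuous φ) {ε : ℝ}
    (hε : 0 < ε) : ∃ δ > 0, ∀ x y, dist x y < δ → dist (φ x) (φ y) < ε := by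
  have := CompactSpace.uniformContinuous_of_continuous h
  rw [Metric.uniformContinuous_iff] at this
  obtain ⟨δ, hδ, h⟩ := this ε hε
  exact ⟨δ, hδ, fun x y hxy => h hxy⟩

/-! Closeness -/

lemma Near.mono {f g : Equiv.Perm T} {ε ε' : ℝ} (h : Near f g ε) (hε : ε ≤ ε') : Near f g ε' :=
  fun x => ⟨(h x).1.trans_le hε, (h x).2.trans_le hε⟩

lemma Near.symm {f g : Equiv.Perm T} {ε : ℝ} (h : Near f g ε) : Near g f ε :=
  fun x => ⟨by rw [dist_comm]; exact (h x).1, by rw [norm_sub_rev]; exact (h x).2⟩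

lemma Near.trans {f g k : Equiv.Perm T} {ε ε' : ℝ} (h : Near f g ε) (h' : Near g k ε') :
    Near f k (ε + ε') := fun x =>
  ⟨(dist_triangle _ (g x) _).trans_lt (add_lt_add (h x).1 (h' x).1),
    (norm_sub_le_norm_sub_add_norm_sub _ (D g x) _).trans_lt (add_lt_add (h x).2 (h' x).2)⟩

lemma near_refl (f : Equiv.Perm T) {ε : ℝ} (hε : 0 < ε) : Near f f ε :=
  fun x => ⟨by simpa using hε, by simpa using hε⟩

/-- Continuity of the multiplication. -/
lemma near_mul {f g : Equiv.Perm T} (hf : f ∈ Diff1) (hg : g ∈ Diff1) {ε : ℝ} (hε : 0 < ε) :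
    ∃ δ > 0, ∀ f' ∈ Diff1, ∀ g' ∈ Diff1, Near f' f δ → Near g' g δ →
      Near (f' * g') (f * g) ε := by
  obtain ⟨M, hM1, hM⟩ := exists_bound_D hf.1
  obtain ⟨N, hN1, hN⟩ := exists_bound_D hg.1
  obtain ⟨δ₁, hδ₁, h₁⟩ := unifCont hf.1.continuous (half_pos hε)
  have hη : 0 < ε / (4 * (M + N + 1)) := by positivity
  set η := ε / (4 * (M + N + 1)) with hηdef
  obtain ⟨δ₂, hδ₂, h₂⟩ := unifCont hf.1.continuous_D hη
  refine ⟨min (min δ₁ δ₂) (min (min η 1) (ε / 2)), by positivity, ?_⟩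
  intro f' hf' g' hg' hff hgg x
  have e1 : dist (g' x) (g x) < δ₁ :=
    (hgg x).1.trans_le ((min_le_left _ _).trans (min_le_left _ _))
  have e2 : dist (g' x) (g x) < δ₂ :=
    (hgg x).1.trans_le ((min_le_left _ _).trans (min_le_right _ _))
  have e3 : dist (f' (g' x)) (f (g' x)) < ε / 2 :=
    (hff _).1.trans_le ((min_le_right _ _).trans (min_le_right _ _))
  have e4 : ‖D f' (g' x) - D f (g' x)‖ < η :=
    (hff _).2.trans_le ((min_le_right _ _).trans ((min_le_left _ _).trans (min_le_left _ _)))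
  have e5 : ‖D g' x - D g x‖ < η :=
    (hgg _).2.trans_le ((min_le_right _ _).trans ((min_le_left _ _).trans (min_le_left _ _)))
  have e6 : ‖D g' x - D g x‖ < 1 :=
    (hgg _).2.trans_le ((min_le_right _ _).trans ((min_le_left _ _).trans (min_le_right _ _)))
  constructor
  · have := h₁ _ _ e1
    calc dist (f' (g' x)) (f (g x)) ≤ _ := dist_triangle _ (f (g' x)) _
      _ < ε / 2 + ε / 2 := add_lt_add e3 this
      _ = ε := by ring
  · rw [D_mul hf' hg', D_mul hf hg]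
    have e7 : ‖D f (g' x) - D f (g x)‖ < η := by simpa [dist_eq_norm] using h₂ _ _ e2
    have e8 : ‖D g' x‖ ≤ N + 1 := by
      have := norm_add_le (D g x) (D g' x - D g x)
      rw [add_sub_cancel] at this
      linarith [hN x]
    have e9 : ‖D f' (g' x) - D f (g x)‖ ≤ 2 * η := by
      have := norm_sub_le_norm_sub_add_norm_sub (D f' (g' x)) (D f (g' x)) (D f (g x))
      linarith
    have key : D f' (g' x) * D g' x - D f (g x) * D g x =
        (D f' (g' x) - D f (g x)) * D g' x + D f (g x) * (D g' x - D g x) := by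
      rw [sub_mul, mul_sub]; abel
    rw [key]
    have b1 : ‖(D f' (g' x) - D f (g x)) * D g' x‖ ≤ 2 * η * (N + 1) :=
      (norm_mul_le _ _).trans (mul_le_mul e9 e8 (norm_nonneg _) (by positivity))
    have b2 : ‖D f (g x) * (D g' x - D g x)‖ ≤ M * η :=
      (norm_mul_le _ _).trans (mul_le_mul (hM _) e5.le (norm_nonneg _) (by positivity))
    have b3 : η * (4 * (M + N + 1)) = ε := by rw [hηdef]; field_simp
    calc _ ≤ _ := norm_add_le _ _
      _ ≤ 2 * η * (N + 1) + M * η := add_le_add b1 b2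
      _ < ε := by nlinarith

/-- Continuity of the inversion. -/
lemma near_inv {f : Equiv.Perm T} (hf : f ∈ Diff1) {ε : ℝ} (hε : 0 < ε) :
    ∃ δ > 0, ∀ f' ∈ Diff1, Near f' f δ → Near f'⁻¹ f⁻¹ ε := by
  obtain ⟨M, hM1, hM⟩ := exists_bound_D hf.2
  obtain ⟨δ₁, hδ₁, h₁⟩ := unifCont hf.2.continuous hε
  obtain ⟨δ₂, hδ₂, h₂⟩ := unifCont hf.2.continuous_D (half_pos hε)
  have hη : 0 < min (1 / (2 * M)) (ε / (8 * M * M)) := by positivity
  set η := min (1 / (2 * M)) (ε / (8 * M * M)) with hηdef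
  refine ⟨min (min δ₁ δ₂) η, by positivity, ?_⟩
  intro f' hf' hff y
  obtain ⟨x, rfl⟩ := f'.surjective y
  have e1 : dist (f x) (f' x) < δ₁ := by
    rw [dist_comm]; exact (hff x).1.trans_le ((min_le_left _ _).trans (min_le_left _ _))
  have e2 : dist (f x) (f' x) < δ₂ := by
    rw [dist_comm]; exact (hff x).1.trans_le ((min_le_left _ _).trans (min_le_right _ _))
  have e3 : ‖D f' x - D f x‖ < η := (hff x).2.trans_le (min_le_right _ _)
  constructor
  · simpa using h₁ _ _ e1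
  · set A := D f x
    set A' := D f' x
    set B := D (f⁻¹ : Equiv.Perm T) (f x)
    set B' := D (f'⁻¹ : Equiv.Perm T) (f' x)
    have hBA : A * B = 1 := D_mul_inv' hf x
    have hBA' : B' * A' = 1 := D_inv_mul hf' x
    have hB : ‖B‖ ≤ M := hM _
    have key : B' - B = B' * (A - A') * B := by
      have : B' * (A - A') * B = B' * (A * B) - (B' * A') * B := by
        rw [mul_sub, sub_mul, mul_assoc]
      rw [this, hBA, hBA', mul_one, one_mul]
    have hAA : ‖A - A'‖ ≤ η := by rw [norm_sub_rev]; exact e3.le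
    have b1 : ‖B' - B‖ ≤ ‖B'‖ * η * M := by
      rw [key]
      calc _ ≤ ‖B' * (A - A')‖ * ‖B‖ := norm_mul_le _ _
        _ ≤ (‖B'‖ * η) * M := by
          apply mul_le_mul _ hB (norm_nonneg _) (by positivity)
          exact (norm_mul_le _ _).trans (mul_le_mul_of_nonneg_left hAA (norm_nonneg _))
    have hη1 : η * M ≤ 1 / 2 := by
      have : η ≤ 1 / (2 * M) := min_le_left _ _
      calc η * M ≤ 1 / (2 * M) * M := by gcongr
        _ = 1 / 2 := by field_simp
    have hη2 : η * (M * M) ≤ ε / 8 := by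
      have : η ≤ ε / (8 * M * M) := min_le_right _ _
      calc η * (M * M) ≤ ε / (8 * M * M) * (M * M) := by gcongr
        _ = ε / 8 := by field_simp
    have b2 : ‖B'‖ ≤ 2 * M := by
      have := norm_add_le B (B' - B)
      rw [add_sub_cancel] at this
      nlinarith [norm_nonneg B']
    have b3 : ‖B' - B‖ ≤ ε / 4 := by
      calc _ ≤ ‖B'‖ * η * M := b1
        _ ≤ 2 * M * η * M := by gcongr
        _ = 2 * (η * (M * M)) := by ring
        _ ≤ ε / 4 := by linarith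
    have b4 : ‖B - D (f⁻¹ : Equiv.Perm T) (f' x)‖ < ε / 2 := by
      rw [← dist_eq_norm]; exact h₂ _ _ e2
    calc _ ≤ _ := norm_sub_le_norm_sub_add_norm_sub _ B _
      _ < ε / 4 + ε / 2 := add_lt_add_of_le_of_lt b3 b4
      _ ≤ ε := by linarith

/-- Right perturbation by a map close to the identity. -/
lemma near_mul_right {f : Equiv.Perm T} (hf : f ∈ Diff1) {ε : ℝ} (hε : 0 < ε) :
    ∃ δ > 0, ∀ h ∈ Diff1, Near h 1 δ → Near (f * h) f ε := by
  obtain ⟨δ, hδ, H⟩ := near_mul hf one_mem_Diff1 hε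
  exact ⟨δ, hδ, fun h hh hn => by simpa using H f hf h hh (near_refl f hδ) hn⟩

/-- Conjugation by a fixed diffeomorphism is continuous at the identity. -/
lemma near_conj {f : Equiv.Perm T} (hf : f ∈ Diff1) {ε : ℝ} (hε : 0 < ε) :
    ∃ δ > 0, ∀ h ∈ Diff1, Near h 1 δ → Near (f * h * f⁻¹) 1 ε := by
  obtain ⟨δ, hδ, H⟩ := near_mul hf (inv_mem_Diff1 hf) hε
  obtain ⟨δ', hδ', H'⟩ := near_mul_right hf hδ
  refine ⟨δ', hδ', fun h hh hn => ?_⟩
  simpa using H (f * h) (mul_mem_Diff1 hf hh) f⁻¹ (inv_mem_Diff1 hf) (H' h hh hn)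
    (near_refl _ hδ)

end Pool.Agent.Lib.MP_fe72db_an
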