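import Mathlib

/-!
Definitions for C^1 diffeomorphisms of the torus `R^2 / Z^2`, Axiom A, no cycles,
homoclinic classes and centralizers.
-/

open Filter Topology

namespace Pool.Agent.Lib.MP_fe72db_an

/-- The plane (sup norm). -/
abbrev E : Type := ℝ × ℝ

/-- The torus `R^2 / Z^2`. -/
abbrev T : Type := UnitAddCircle × UnitAddCircle

/-- The covering map from the plane to the torus. -/
def proj (z : E) : T := ((z.1 : UnitAddCircle), (z.2 : UnitAddCircle))

/-- The representative of a point of the torus in the square `(-1/2, 1/2]^2`. -/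
noncomputable def lift (x : T) : E :=
  ((AddCircle.equivIoc 1 (-1 / 2) x.1 : ℝ), (AddCircle.equivIoc 1 (-1 / 2) x.2 : ℝ))

/-- A self map of the torus is `C^1` if it has a `C^1` lift to the plane. -/
def IsC1 (f : T → T) : Prop :=
  ∃ F : E → E, ContDiff ℝ 1 F ∧ ∀ z, f (proj z) = proj (F z)

/-- The `C^1` diffeomorphisms of the torus. -/
def Diff1 : Set (Equiv.Perm T) := {f | IsC1 f ∧ IsC1 (f⁻¹ : Equiv.Perm T)}

/-- The derivative of `f` at `x`, read in the translation charts at `x` and `f x`. -/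
noncomputable def D (f : T → T) (x : T) : E →L[ℝ] E :=
  fderiv ℝ (fun v : E => lift (f (x + proj v) - f x)) 0

/-- `f` is `ε`-close to `g` in the `C^1` distance. -/
def Near (f g : Equiv.Perm T) (ε : ℝ) : Prop :=
  ∀ x, dist (f x) (g x) < ε ∧ ‖D f x - D g x‖ < ε

/-- The full orbit of a point. -/
def orbit (f : Equiv.Perm T) (x : T) : Set T := Set.range fun n : ℤ => (f ^ n) x

/-- The nonwandering set. -/
def nonwandering (f : Equiv.Perm T) : Set T :=
  {x | ∀ U ∈ 𝓝 x, ∃ n : ℕ, 1 ≤ n ∧ ∃ y ∈ U, (f ^ n) y ∈ U}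

/-- Uniform hyperbolicity of `f` over `Λ`. -/
def IsHyperbolic (f : Equiv.Perm T) (Λ : Set T) : Prop :=
  ∃ (Es Eu : T → Submodule ℝ E) (C lam : ℝ), 0 < C ∧ 0 < lam ∧ lam < 1 ∧ ∀ x ∈ Λ,
    IsCompl (Es x) (Eu x) ∧
    (Es x).map (D f x).toLinearMap = Es (f x) ∧ (Eu x).map (D f x).toLinearMap = Eu (f x) ∧
    ∀ n : ℕ, (∀ v ∈ Es x, ‖D (f ^ n : Equiv.Perm T) x v‖ ≤ C * lam ^ n * ‖v‖) ∧
      (∀ v ∈ Eu x, ‖D (f⁻¹ ^ n : Equiv.Perm T) x v‖ ≤ C * lam ^ n * ‖v‖)

/-- The stable set of `Λ`; the unstable set is the stable set for `f⁻¹`. -/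
def Ws (f : Equiv.Perm T) (Λ : Set T) : Set T :=
  {x | Tendsto (fun n : ℕ => Metric.infDist ((f ^ n) x) Λ) atTop (𝓝 0)}

/-- Axiom A. -/
def AxiomA (f : Equiv.Perm T) : Prop :=
  IsHyperbolic f (nonwandering f) ∧ nonwandering f ⊆ closure (Function.periodicPts f)

/-- The nonwandering set splits into finitely many basic sets (pairwise disjoint, closed,
invariant, transitive), with no cycle through distinct basic sets. -/
def NoCycles (f : Equiv.Perm T) : Prop :=
  ∃ (k : ℕ) (Λ : Fin k → Set T),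
    (∀ i, IsClosed (Λ i) ∧ f '' Λ i = Λ i ∧ ∃ x ∈ Λ i, Λ i ⊆ closure (orbit f x)) ∧
    (∀ i j, i ≠ j → Disjoint (Λ i) (Λ j)) ∧ ⋃ i, Λ i = nonwandering f ∧
    ∀ i, ¬ Relation.TransGen
      (fun a b => a ≠ b ∧ ((Ws f⁻¹ (Λ a) ∩ Ws f (Λ b)) \ nonwandering f).Nonempty) i i

/-- Vectors at `x` contracted to zero by the forward derivative cocycle; at a point of the
stable manifold of a hyperbolic periodic orbit this is the tangent space of that manifold. -/
def stableVec (f : Equiv.Perm T) (x : T) : Set E :=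
  {v | Tendsto (fun n : ℕ => D (f ^ n : Equiv.Perm T) x v) atTop (𝓝 0)}

/-- The homoclinic class of `p`. -/
def homoclinicClass (f : Equiv.Perm T) (p : T) : Set T :=
  closure {x | x ∈ Ws f (orbit f p) ∧ x ∈ Ws f⁻¹ (orbit f p) ∧
    ∀ w : E, ∃ v ∈ stableVec f x, ∃ v' ∈ stableVec f⁻¹ x, w = v + v'}

/-- Axiom A diffeomorphisms with no cycles and a nontrivial homoclinic class. -/
def O : Set (Equiv.Perm T) :=
  {f | f ∈ Diff1 ∧ AxiomA f ∧ NoCycles f ∧ ∃ p ∈ Function.periodicPts f,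
    IsHyperbolic f (orbit f p) ∧ homoclinicClass f p ≠ orbit f p}

/-- The `C^1` centralizer of `f` consists of the powers of `f`. -/
def TrivialCentralizer (f : Equiv.Perm T) : Prop :=
  {g | g ∈ Diff1 ∧ g * f = f * g} = Set.range fun n : ℤ => f ^ n

end Pool.Agent.Lib.MP_fe72db_an
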