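import Pool.Agent.Lib.MP_fe72db_an.Gamma

/-! The two real functions defining the example: a smoothed tent function `tau` and a lift `gam`
of a north-south diffeomorphism of the circle. -/

open Filter Topology Set

namespace Pool.Agent.Lib.MP_fe72db_an

/-- A `C^1` approximation of the positive part. -/
noncomputable def ramp (t : ℝ) : ℝ := 25 * (psq (t + 1 / 100) - psq (t - 1 / 100))

/-- Its derivative. -/
noncomputable def dramp (t : ℝ) : ℝ := 50 * (max (t + 1 / 100) 0 - max (t - 1 / 100) 0)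

lemma ramp_lo {t : ℝ} (h : t ≤ -1 / 100) : ramp t = 0 := by
  rw [ramp, psq_of_nonpos (by linarith), psq_of_nonpos (by linarith)]; ring

lemma ramp_hi {t : ℝ} (h : 1 / 100 ≤ t) : ramp t = t := by
  rw [ramp, psq_of_nonneg (by linarith), psq_of_nonneg (by linarith)]; ring

lemma ramp_mid {t : ℝ} (h : -1 / 100 ≤ t) (h' : t ≤ 1 / 100) : ramp t = 25 * (t + 1 / 100) ^ 2 := by
  rw [ramp, psq_of_nonneg (by linarith), psq_of_nonpos (by linarith)]; ring

lemma dramp_lo {t : ℝ} (h : t ≤ -1 / 100) : dramp t = 0 := by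
  rw [dramp, max_eq_right (by linarith), max_eq_right (by linarith)]; ring

lemma dramp_hi {t : ℝ} (h : 1 / 100 ≤ t) : dramp t = 1 := by
  rw [dramp, max_eq_left (by linarith), max_eq_left (by linarith)]; ring

lemma dramp_mono {s t : ℝ} (h : s ≤ t) : dramp s ≤ dramp t := by
  unfold dramp
  rcases le_total (s + 1 / 100) 0 with h1 | h1 <;> rcases le_total (s - 1 / 100) 0 with h2 | h2 <;>
    rcases le_total (t + 1 / 100) 0 with h3 | h3 <;>
    rcases le_total (t - 1 / 100) 0 with h4 | h4 <;>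
    simp only [max_eq_left, max_eq_right, h1, h2, h3, h4] <;> linarith

lemma hasDerivAt_ramp (t c : ℝ) : HasDerivAt (fun t => ramp (t - c)) (dramp (t - c)) t := by
  have h1 := (hasDerivAt_psq (t - c + 1 / 100)).comp t
    (((hasDerivAt_id t).sub_const c).add_const (1 / 100))
  have h2 := (hasDerivAt_psq (t - c - 1 / 100)).comp t
    (((hasDerivAt_id t).sub_const c).sub_const (1 / 100))
  have h3 := (h1.sub h2).const_mul 25
  refine h3.congr_deriv ?_
  unfold dramp; ring

lemma contDiff_ramp (c : ℝ) : ContDiff ℝ 1 fun t => ramp (t - c) := by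
  unfold ramp
  exact contDiff_const.mul ((contDiff_psq.comp ((contDiff_id.sub contDiff_const).add
    contDiff_const)).sub (contDiff_psq.comp ((contDiff_id.sub contDiff_const).sub contDiff_const)))

/-- Extension of a function on `[0, 1)` by `G (t + 1) = G t + c`. -/
noncomputable def per (g : ℝ → ℝ) (c : ℝ) (y : ℝ) : ℝ := g (Int.fract y) + c * ⌊y⌋

lemma per_add_int (g : ℝ → ℝ) (c y : ℝ) (k : ℤ) : per g c (y + k) = per g c y + c * k := by
  simp only [per, Int.fract_add_intCast, Int.floor_add_intCast, Int.cast_add]; ring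

lemma per_of_mem {g : ℝ → ℝ} {c : ℝ} (h : ∀ t, |t| < 1 / 20 → g (t + 1) = g t + c) {y : ℝ}
    (h0 : -1 / 20 < y) (h1 : y < 1) : per g c y = g y := by
  rcases le_or_gt 0 y with h2 | h2
  · rw [per, Int.fract_eq_self.2 ⟨h2, h1⟩, Int.floor_eq_zero_iff.2 ⟨h2, h1⟩]; simp
  · have e : ⌊y⌋ = -1 := by
      rw [Int.floor_eq_iff]; constructor <;> push_cast <;> linarith
    rw [per, Int.fract, e]
    have := h y (by rw [abs_lt]; constructor <;> linarith)
    push_cast
    rw [sub_neg_eq_add, this]; ring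

lemma per_eventually {g : ℝ → ℝ} {c : ℝ} (h : ∀ t, |t| < 1 / 20 → g (t + 1) = g t + c) (y : ℝ) :
    per g c =ᶠ[𝓝 y] fun z => g (z - ⌊y⌋) + c * ⌊y⌋ := by
  have h1 := Int.floor_le y
  have h2 := Int.lt_floor_add_one y
  filter_upwards [Ioo_mem_nhds (show (⌊y⌋ : ℝ) - 1 / 20 < y by linarith) h2] with z hz
  have := per_add_int g c (z - ⌊y⌋) ⌊y⌋
  rw [sub_add_cancel] at this
  rw [this, per_of_mem h (by linarith [hz.1]) (by linarith [hz.2])]

lemma contDiff_per {g : ℝ → ℝ} {c : ℝ} (hg : ContDiff ℝ 1 g)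
    (h : ∀ t, |t| < 1 / 20 → g (t + 1) = g t + c) : ContDiff ℝ 1 (per g c) := by
  rw [contDiff_iff_contDiffAt]
  intro y
  refine ContDiffAt.congr_of_eventuallyEq ?_ (per_eventually h y)
  exact ((hg.comp (contDiff_id.sub contDiff_const)).add contDiff_const).contDiffAt

lemma hasDerivAt_per {g : ℝ → ℝ} {c : ℝ} (h : ∀ t, |t| < 1 / 20 → g (t + 1) = g t + c) {y g' : ℝ}
    (hg : HasDerivAt g g' (Int.fract y)) : HasDerivAt (per g c) g' y := by
  refine HasDerivAt.congr_of_eventuallyEq ?_ (per_eventually h y)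
  have h1 : HasDerivAt g g' (y - ⌊y⌋) := hg
  simpa using (h1.comp y ((hasDerivAt_id y).sub_const (⌊y⌋ : ℝ))).add_const (c * ⌊y⌋)

/-! The tent function -/

/-- The tent function on `[0, 1)`. -/
noncomputable def tau0 (u : ℝ) : ℝ :=
  4 * (ramp (u - 1 / 10) - 2 * ramp (u - 2 / 10) + ramp (u - 3 / 10))

lemma tau0_lo {u : ℝ} (h : u ≤ 9 / 100) : tau0 u = 0 := by
  rw [tau0, ramp_lo (by linarith), ramp_lo (by linarith), ramp_lo (by linarith)]; ring

lemma tau0_hi {u : ℝ} (h : 31 / 100 ≤ u) : tau0 u = 0 := by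
  rw [tau0, ramp_hi (by linarith), ramp_hi (by linarith), ramp_hi (by linarith)]; ring

lemma tau0_per (t : ℝ) (h : |t| < 1 / 20) : tau0 (t + 1) = tau0 t + 0 := by
  rw [abs_lt] at h
  rw [tau0_hi (by linarith), tau0_lo (by linarith)]; ring

lemma hasDerivAt_tau0 (u : ℝ) : HasDerivAt tau0
    (4 * (dramp (u - 1 / 10) - 2 * dramp (u - 2 / 10) + dramp (u - 3 / 10))) u :=
  (((hasDerivAt_ramp u _).sub ((hasDerivAt_ramp u _).const_mul 2)).add
    (hasDerivAt_ramp u _)).const_mul 4

/-- The periodic tent function. -/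
noncomputable def tau : ℝ → ℝ := per tau0 0

lemma contDiff_tau : ContDiff ℝ 1 tau :=
  contDiff_per (contDiff_const.mul (((contDiff_ramp _).sub
    (contDiff_const.mul (contDiff_ramp _))).add (contDiff_ramp _))) tau0_per

lemma tau_add_int (y : ℝ) (k : ℤ) : tau (y + k) = tau y := by
  simpa [tau] using per_add_int tau0 0 y k

lemma tau_eq {t : ℝ} (h0 : -6 / 10 ≤ t) (h1 : t < 1) : tau t = tau0 t := by
  rcases le_or_gt 0 t with h | h
  · exact per_of_mem tau0_per (by linarith) h1
  · have := tau_add_int t 1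
    push_cast at this
    rw [← this, tau, per_of_mem tau0_per (by linarith) (by linarith), tau0_hi (by linarith),
      tau0_lo (by linarith)]

lemma tau_eventually {t : ℝ} (h0 : -6 / 10 < t) (h1 : t < 1) : tau =ᶠ[𝓝 t] tau0 := by
  filter_upwards [Ioo_mem_nhds h0 h1] with s hs using tau_eq hs.1.le hs.2

lemma tau_lo {t : ℝ} (h0 : -6 / 10 ≤ t) (h1 : t ≤ 9 / 100) : tau t = 0 := by
  rw [tau_eq h0 (by linarith), tau0_lo h1]

lemma tau_hi {t : ℝ} (h0 : 31 / 100 ≤ t) (h1 : t < 1) : tau t = 0 := by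
  rw [tau_eq (by linarith) h1, tau0_hi h0]

lemma tau_L0 {t : ℝ} (h0 : 11 / 100 ≤ t) (h1 : t ≤ 19 / 100) : tau t = 4 * (t - 1 / 10) := by
  rw [tau_eq (by linarith) (by linarith), tau0, ramp_hi (by linarith), ramp_lo (by linarith),
    ramp_lo (by linarith)]; ring

lemma tau_L1 {t : ℝ} (h0 : 21 / 100 ≤ t) (h1 : t ≤ 29 / 100) : tau t = 4 * (3 / 10 - t) := by
  rw [tau_eq (by linarith) (by linarith), tau0, ramp_hi (by linarith), ramp_hi (by linarith),
    ramp_lo (by linarith)]; ring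

lemma tau_M0 {t : ℝ} (h0 : 9 / 100 ≤ t) (h1 : t ≤ 11 / 100) : 0 ≤ tau t ∧ tau t ≤ 4 / 100 := by
  rw [tau_eq (by linarith) (by linarith), tau0, ramp_mid (by linarith) (by linarith),
    ramp_lo (by linarith), ramp_lo (by linarith)]
  constructor <;> nlinarith

lemma tau_M1 {t : ℝ} (h0 : 19 / 100 ≤ t) (h1 : t ≤ 21 / 100) :
    36 / 100 ≤ tau t ∧ tau t ≤ 4 / 10 := by
  rw [tau_eq (by linarith) (by linarith), tau0, ramp_hi (by linarith),
    ramp_mid (by linarith) (by linarith), ramp_lo (by linarith)]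
  constructor <;> nlinarith

lemma tau_M2 {t : ℝ} (h0 : 29 / 100 ≤ t) (h1 : t ≤ 31 / 100) : 0 ≤ tau t ∧ tau t ≤ 4 / 100 := by
  rw [tau_eq (by linarith) (by linarith), tau0, ramp_hi (by linarith), ramp_hi (by linarith),
    ramp_mid (by linarith) (by linarith)]
  constructor <;> nlinarith

lemma tau_small {t : ℝ} (h : |t| ≤ 1 / 2) (h' : t ≤ 11 / 100 ∨ 29 / 100 ≤ t) :
    0 ≤ tau t ∧ tau t ≤ 4 / 100 := by
  rw [abs_le] at h
  rcases h' with h' | h'
  · rcases le_total t (9 / 100) with h1 | h1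
    · rw [tau_lo (by linarith) h1]; norm_num
    · exact tau_M0 h1 h'
  · rcases le_total t (31 / 100) with h1 | h1
    · exact tau_M2 h' h1
    · rw [tau_hi h1 (by linarith)]; norm_num

lemma tau_bound {t : ℝ} (h : |t| ≤ 1 / 2) : 0 ≤ tau t ∧ tau t ≤ 4 / 10 := by
  rcases le_total t (11 / 100) with h1 | h1
  · have := tau_small h (Or.inl h1); constructor <;> linarith
  rcases le_total (29 / 100) t with h2 | h2
  · have := tau_small h (Or.inr h2); constructor <;> linarith
  rcases le_total t (19 / 100) with h3 | h3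
  · rw [tau_L0 h1 h3]; constructor <;> linarith
  rcases le_total (21 / 100) t with h4 | h4
  · rw [tau_L1 h4 h2]; constructor <;> linarith
  · have := tau_M1 h3 h4; constructor <;> linarith

lemma hasDerivAt_tau_lo {t : ℝ} (h0 : -6 / 10 < t) (h1 : t ≤ 9 / 100) : HasDerivAt tau 0 t := by
  refine ((hasDerivAt_tau0 t).congr_deriv ?_).congr_of_eventuallyEq
    (tau_eventually h0 (by linarith))
  rw [dramp_lo (by linarith), dramp_lo (by linarith), dramp_lo (by linarith)]; ring

lemma hasDerivAt_tau_hi {t : ℝ} (h0 : 31 / 100 ≤ t) (h1 : t < 1) : HasDerivAt tau 0 t := by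
  refine ((hasDerivAt_tau0 t).congr_deriv ?_).congr_of_eventuallyEq
    (tau_eventually (by linarith) h1)
  rw [dramp_hi (by linarith), dramp_hi (by linarith), dramp_hi (by linarith)]; ring

lemma hasDerivAt_tau_L0 {t : ℝ} (h0 : 11 / 100 ≤ t) (h1 : t ≤ 19 / 100) : HasDerivAt tau 4 t := by
  refine ((hasDerivAt_tau0 t).congr_deriv ?_).congr_of_eventuallyEq
    (tau_eventually (by linarith) (by linarith))
  rw [dramp_hi (by linarith), dramp_lo (by linarith), dramp_lo (by linarith)]; ring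

lemma hasDerivAt_tau_L1 {t : ℝ} (h0 : 21 / 100 ≤ t) (h1 : t ≤ 29 / 100) :
    HasDerivAt tau (-4) t := by
  refine ((hasDerivAt_tau0 t).congr_deriv ?_).congr_of_eventuallyEq
    (tau_eventually (by linarith) (by linarith))
  rw [dramp_hi (by linarith), dramp_hi (by linarith), dramp_lo (by linarith)]; ring

/-! The north-south map -/

/-- The north-south map on `[0, 1)`. -/
noncomputable def gam0 (u : ℝ) : ℝ :=
  u / 16 + 375 / 32 * (ramp (u - 46 / 100) - ramp (u - 54 / 100))

lemma gam0_lo {u : ℝ} (h : u ≤ 45 / 100) : gam0 u = u / 16 := by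
  rw [gam0, ramp_lo (by linarith), ramp_lo (by linarith)]; ring

lemma gam0_hi {u : ℝ} (h : 55 / 100 ≤ u) : gam0 u = u / 16 + 15 / 16 := by
  rw [gam0, ramp_hi (by linarith), ramp_hi (by linarith)]; ring

lemma gam0_mid {u : ℝ} (h : 47 / 100 ≤ u) (h' : u ≤ 53 / 100) :
    gam0 u = 1 / 2 + 377 / 32 * (u - 1 / 2) := by
  rw [gam0, ramp_hi (by linarith), ramp_lo (by linarith)]; ring

lemma gam0_per (t : ℝ) (h : |t| < 1 / 20) : gam0 (t + 1) = gam0 t + 1 := by
  rw [abs_lt] at h
  rw [gam0_hi (by linarith), gam0_lo (by linarith)]; ring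

lemma hasDerivAt_gam0 (u : ℝ) : HasDerivAt gam0
    (1 / 16 + 375 / 32 * (dramp (u - 46 / 100) - dramp (u - 54 / 100))) u :=
  ((hasDerivAt_id u).div_const 16).add
    (((hasDerivAt_ramp u _).sub (hasDerivAt_ramp u _)).const_mul _)

/-- The lift of the north-south map. -/
noncomputable def gam : ℝ → ℝ := per gam0 1

lemma contDiff_gam : ContDiff ℝ 1 gam :=
  contDiff_per ((contDiff_id.div_const 16).add
    (contDiff_const.mul ((contDiff_ramp _).sub (contDiff_ramp _)))) gam0_per

lemma gam_add_int (y : ℝ) (k : ℤ) : gam (y + k) = gam y + k := by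
  simpa [gam] using per_add_int gam0 1 y k

lemma gam_add_one (y : ℝ) : gam (y + 1) = gam y + 1 := by
  simpa using gam_add_int y 1

lemma gam_eq {t : ℝ} (h0 : -1 / 20 < t) (h1 : t < 1) : gam t = gam0 t := per_of_mem gam0_per h0 h1

lemma gam_lin {t : ℝ} (h : |t| ≤ 45 / 100) : gam t = t / 16 := by
  rw [abs_le] at h
  rcases le_or_gt 0 t with h0 | h0
  · rw [gam_eq (by linarith) (by linarith), gam0_lo h.2]
  · have := gam_add_one t
    rw [gam_eq (by linarith) (by linarith), gam0_hi (by linarith)] at this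
    linarith

lemma gam_mid {t : ℝ} (h : 47 / 100 ≤ t) (h' : t ≤ 53 / 100) :
    gam t = 1 / 2 + 377 / 32 * (t - 1 / 2) := by
  rw [gam_eq (by linarith) (by linarith), gam0_mid h h']

lemma gam_mid' {t : ℝ} (h : -53 / 100 ≤ t) (h' : t ≤ -47 / 100) :
    gam t = -1 / 2 + 377 / 32 * (t + 1 / 2) := by
  have := gam_add_one t
  rw [gam_mid (by linarith) (by linarith)] at this
  linarith

lemma exists_hasDerivAt_gam (t : ℝ) : ∃ d, 0 < d ∧ HasDerivAt gam d t := by
  refine ⟨_, ?_, hasDerivAt_per gam0_per (hasDerivAt_gam0 _)⟩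
  have := dramp_mono (show Int.fract t - 54 / 100 ≤ Int.fract t - 46 / 100 by linarith)
  linarith

lemma hasDerivAt_gam_lin {t : ℝ} (h : |t| < 45 / 100) : HasDerivAt gam (1 / 16) t := by
  refine ((hasDerivAt_id t).div_const 16).congr_of_eventuallyEq ?_
  filter_upwards [(continuous_abs.tendsto t).eventually_lt_const h] with s hs using gam_lin hs.le

lemma hasDerivAt_gam_half : HasDerivAt gam (377 / 32) (1 / 2) := by
  have h := ((((hasDerivAt_id (1 / 2 : ℝ)).sub_const (1 / 2)).const_mul (377 / 32)).const_add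
    (1 / 2)).congr_deriv (mul_one _)
  refine h.congr_of_eventuallyEq ?_
  filter_upwards [Icc_mem_nhds (show (47 / 100 : ℝ) < 1 / 2 by norm_num)
    (show (1 / 2 : ℝ) < 53 / 100 by norm_num)] with s hs using gam_mid hs.1 hs.2

lemma strictMono_gam : StrictMono gam := by
  apply strictMono_of_deriv_pos
  intro t
  obtain ⟨d, hd, h⟩ := exists_hasDerivAt_gam t
  rwa [h.deriv]

lemma gam_int (k : ℤ) : gam k = k := by
  have := gam_add_int 0 k
  rwa [gam_lin (t := 0) (by norm_num), zero_add, zero_div, zero_add] at this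

lemma surjective_gam : Function.Surjective gam := by
  intro y
  have h := intermediate_value_Icc (f := gam) (show ((⌊y⌋ : ℤ) : ℝ) ≤ ((⌊y⌋ + 1 : ℤ) : ℝ) by
    push_cast; linarith) contDiff_gam.continuous.continuousOn
  rw [gam_int, gam_int] at h
  obtain ⟨x, -, hx⟩ := h ⟨Int.floor_le y, by push_cast; exact (Int.lt_floor_add_one y).le⟩
  exact ⟨x, hx⟩

/-- The lift as a homeomorphism. -/
noncomputable def gamH : ℝ ≃ₜ ℝ := (strictMono_gam.orderIsoOfSurjective gam surjective_gam).toHomeomorph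

lemma gamH_apply (t : ℝ) : gamH t = gam t := rfl

lemma contDiff_gamH_symm : ContDiff ℝ 1 gamH.symm := by
  choose d hd hd' using exists_hasDerivAt_gam
  exact gamH.contDiff_symm_deriv (fun t => (hd t).ne') hd' contDiff_gam

lemma gamH_symm_add_int (y : ℝ) (k : ℤ) : gamH.symm (y + k) = gamH.symm y + k := by
  apply gamH.injective
  rw [gamH.apply_symm_apply, gamH_apply, gam_add_int, ← gamH_apply, gamH.apply_symm_apply]

end Pool.Agent.Lib.MP_fe72db_an
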