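import Pool.Agent.Lib.MP_fe72db_an.Abstract
import Pool.Agent.Lib.MP_fe72db_an.Funcs

/-! The example `(x, y) ↦ (y, tau y - gam x)` on the torus and its nonwandering set. -/

open Filter Topology Set Metric

namespace Pool.Agent.Lib.MP_fe72db_an

/-- The lift of the example. -/
noncomputable def F0 (z : E) : E := (z.2, tau z.2 - gam z.1)

/-- The inverse of the lift. -/
noncomputable def G0 (z : E) : E := (gamH.symm (tau z.1 - z.2), z.1)

lemma exists_f0 : ∃ f ∈ Diff1, ∀ z, f (proj z) = proj (F0 z) := by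
  refine exists_perm_of_lift (G := G0) (contDiff_snd.prodMk ((contDiff_tau.comp contDiff_snd).sub
    (contDiff_gam.comp contDiff_fst))) ((contDiff_gamH_symm.comp ((contDiff_tau.comp
      contDiff_fst).sub contDiff_snd)).prodMk contDiff_fst) ?_ ?_ ?_ ?_
  · intro u v h
    obtain ⟨⟨k, hk⟩, ⟨l, hl⟩⟩ := proj_eq_iff.1 h
    refine proj_eq_iff.2 ⟨⟨l, hl⟩, ⟨-k, ?_⟩⟩
    simp only [F0, hk, hl, tau_add_int, gam_add_int]; push_cast; ring
  · intro u v h
    obtain ⟨⟨k, hk⟩, ⟨l, hl⟩⟩ := proj_eq_iff.1 h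
    refine proj_eq_iff.2 ⟨⟨-l, ?_⟩, ⟨k, hk⟩⟩
    simp only [G0, hk, hl, tau_add_int, ← gamH_symm_add_int]
    congr 1; push_cast; ring
  · intro z
    simp [F0, G0, ← gamH_apply]
  · intro z
    simp [F0, G0, ← gamH_apply]

/-- The example. -/
noncomputable def f0 : Equiv.Perm T := exists_f0.choose

lemma f0_mem : f0 ∈ Diff1 := exists_f0.choose_spec.1

lemma f0_proj (s t : ℝ) : f0 (proj (s, t)) = proj (t, tau t - gam s) :=
  exists_f0.choose_spec.2 (s, t)

lemma D_f0 {s t a b : ℝ} (ha : HasDerivAt tau a t) (hb : HasDerivAt gam b s) (v : E) :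
    D f0 (proj (s, t)) v = (v.2, a * v.2 - b * v.1) := by
  have h1 : HasFDerivAt (fun z : E => z.2) (ContinuousLinearMap.snd ℝ ℝ ℝ) (s, t) := hasFDerivAt_snd
  have h2 : HasFDerivAt (fun z : E => z.1) (ContinuousLinearMap.fst ℝ ℝ ℝ) (s, t) := hasFDerivAt_fst
  have h3 : HasFDerivAt F0 _ (s, t) :=
    h1.prodMk ((ha.comp_hasFDerivAt (s, t) h1).sub (hb.comp_hasFDerivAt (s, t) h2))
  rw [D_eq_of_lift (f := f0) exists_f0.choose_spec.2 h3]
  simp

lemma f0_fst (x : T) : (f0 x).1 = x.2 := by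
  obtain ⟨⟨s, t⟩, rfl⟩ := surjective_proj x
  rw [f0_proj]; rfl

lemma norm_coe_le (t : ℝ) : ‖(t : UnitAddCircle)‖ ≤ |t| := QuotientAddGroup.norm_mk_le_norm

lemma norm_coe_eq {t : ℝ} (ht : |t| ≤ 1 / 2) : ‖(t : UnitAddCircle)‖ = |t| :=
  (AddCircle.norm_coe_eq_abs_iff (p := 1) one_ne_zero).2 (by simpa using ht)

lemma exists_rep (x : T) : ∃ s t : ℝ, x = proj (s, t) ∧ |s| ≤ 1 / 2 ∧ |t| ≤ 1 / 2 ∧
    ‖x.1‖ = |s| ∧ ‖x.2‖ = |t| := by
  have h1 : |(lift x).1| ≤ 1 / 2 := le_trans (by simpa using norm_fst_le (lift x)) (norm_lift_le x)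
  have h2 : |(lift x).2| ≤ 1 / 2 := le_trans (by simpa using norm_snd_le (lift x)) (norm_lift_le x)
  refine ⟨(lift x).1, (lift x).2, (proj_lift x).symm, h1, h2, ?_, ?_⟩
  · rw [← norm_coe_eq h1]; exact congrArg (fun y : T => ‖y.1‖) (proj_lift x).symm
  · rw [← norm_coe_eq h2]; exact congrArg (fun y : T => ‖y.2‖) (proj_lift x).symm

lemma key1 {x : T} (h : ‖x.1‖ ≤ 45 / 100) : ‖(f0 x).2‖ < 45 / 100 := by
  obtain ⟨s, t, e, -, ht, h1, -⟩ := exists_rep x
  rw [h1] at h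
  rw [e, f0_proj, gam_lin h]
  refine (norm_coe_le _).trans_lt ?_
  have := tau_bound ht
  rw [abs_le] at h
  rw [abs_lt]; constructor <;> linarith

lemma key0 {x : T} (h : ‖x.1‖ ≤ 9 / 100) (h' : ‖x.2‖ ≤ 9 / 100) : ‖(f0 x).2‖ < 9 / 100 := by
  obtain ⟨s, t, e, -, ht, h1, h2⟩ := exists_rep x
  rw [h1] at h
  rw [h2, abs_le] at h'
  rw [e, f0_proj, gam_lin (by linarith), tau_lo (by linarith) h'.2]
  refine (norm_coe_le _).trans_lt ?_
  rw [abs_le] at h
  rw [abs_lt]; constructor <;> linarith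

/-- The largest trapping region. -/
def C2 : Set T := {x | ‖x.1‖ ≤ 45 / 100 ∨ ‖x.2‖ ≤ 45 / 100}

/-- The middle trapping region. -/
def C1 : Set T := {x | ‖x.1‖ ≤ 45 / 100 ∧ ‖x.2‖ ≤ 45 / 100}

/-- The smallest trapping region. -/
def C0 : Set T := {x | ‖x.1‖ ≤ 9 / 100 ∧ ‖x.2‖ ≤ 9 / 100}

lemma cont1 : Continuous fun x : T => ‖x.1‖ := by fun_prop

lemma cont2 : Continuous fun x : T => ‖x.2‖ := by fun_prop

lemma isClosed_C2 : IsClosed C2 :=
  (isClosed_le cont1 continuous_const).union (isClosed_le cont2 continuous_const)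

lemma isClosed_C1 : IsClosed C1 :=
  (isClosed_le cont1 continuous_const).inter (isClosed_le cont2 continuous_const)

lemma isClosed_C0 : IsClosed C0 :=
  (isClosed_le cont1 continuous_const).inter (isClosed_le cont2 continuous_const)

lemma mem_interior_C2 {x : T} (h : ‖x.1‖ < 45 / 100 ∨ ‖x.2‖ < 45 / 100) : x ∈ interior C2 :=
  interior_maximal (t := {x : T | ‖x.1‖ < 45 / 100 ∨ ‖x.2‖ < 45 / 100})
    (fun _ hy => hy.imp le_of_lt le_of_lt)
    ((isOpen_lt cont1 continuous_const).union (isOpen_lt cont2 continuous_const)) h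

lemma mem_interior_C1 {x : T} (h : ‖x.1‖ < 45 / 100 ∧ ‖x.2‖ < 45 / 100) : x ∈ interior C1 :=
  interior_maximal (t := {x : T | ‖x.1‖ < 45 / 100 ∧ ‖x.2‖ < 45 / 100})
    (fun _ hy => hy.imp le_of_lt le_of_lt)
    ((isOpen_lt cont1 continuous_const).inter (isOpen_lt cont2 continuous_const)) h

lemma mem_interior_C0 {x : T} (h : ‖x.1‖ < 9 / 100 ∧ ‖x.2‖ < 9 / 100) : x ∈ interior C0 :=
  interior_maximal (t := {x : T | ‖x.1‖ < 9 / 100 ∧ ‖x.2‖ < 9 / 100})
    (fun _ hy => hy.imp le_of_lt le_of_lt)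
    ((isOpen_lt cont1 continuous_const).inter (isOpen_lt cont2 continuous_const)) h

lemma mapsTo_C2 : MapsTo f0 C2 C2 := by
  rintro x (h | h)
  · exact Or.inr (key1 h).le
  · exact Or.inl (by rwa [f0_fst])

lemma mapsTo_C1 : MapsTo f0 C1 C1 := fun x h => ⟨by rw [f0_fst]; exact h.2, (key1 h.1).le⟩

lemma mapsTo_C0 : MapsTo f0 C0 C0 := fun x h => ⟨by rw [f0_fst]; exact h.2, (key0 h.1 h.2).le⟩

lemma trap_C2 (x : T) (h : x ∈ C2) : f0 (f0 x) ∈ interior C2 := by
  apply mem_interior_C2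
  rcases h with h | h
  · exact Or.inl (by rw [f0_fst]; exact key1 h)
  · exact Or.inr (key1 (by rwa [f0_fst]))

lemma trap_C1 (x : T) (h : x ∈ C1) : f0 (f0 x) ∈ interior C1 :=
  mem_interior_C1 ⟨by rw [f0_fst]; exact key1 h.1, key1 (mapsTo_C1 h).1⟩

lemma trap_C0 (x : T) (h : x ∈ C0) : f0 (f0 x) ∈ interior C0 :=
  mem_interior_C0 ⟨by rw [f0_fst]; exact key0 h.1 h.2, key0 (mapsTo_C0 h).1 (mapsTo_C0 h).2⟩

/-! Orbits as real sequences -/

/-- The first coordinates along the orbit. -/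
noncomputable def sq (x : T) (n : ℤ) : ℝ := (lift ((f0 ^ n) x)).1

lemma sq_mem (x : T) (n : ℤ) : -1 / 2 < sq x n ∧ sq x n ≤ 1 / 2 := by
  have := (AddCircle.equivIoc 1 (-1 / 2) ((f0 ^ n) x).1).2
  exact ⟨this.1, by unfold sq lift; linarith [this.2]⟩

lemma abs_sq_le (x : T) (n : ℤ) : |sq x n| ≤ 1 / 2 := by
  have := sq_mem x n
  rw [abs_le]; constructor <;> linarith

lemma zpow_eq_sq (x : T) (n : ℤ) : (f0 ^ n) x = proj (sq x n, sq x (n + 1)) := by
  have : sq x (n + 1) = (lift ((f0 ^ n) x)).2 := by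
    unfold sq lift
    rw [zpow_succ_apply, f0_fst]
  rw [this]
  exact (proj_lift _).symm

lemma norm_fst_sq (x : T) (n : ℤ) : ‖((f0 ^ n) x).1‖ = |sq x n| := by
  rw [zpow_eq_sq]; exact norm_coe_eq (abs_sq_le x n)

lemma norm_snd_sq (x : T) (n : ℤ) : ‖((f0 ^ n) x).2‖ = |sq x (n + 1)| := by
  rw [zpow_eq_sq]; exact norm_coe_eq (abs_sq_le x _)

lemma sq_rec (x : T) (n : ℤ) :
    ∃ k : ℤ, sq x (n + 2) = tau (sq x (n + 1)) - gam (sq x n) + k := by
  have h := zpow_succ_apply f0 n x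
  rw [zpow_eq_sq x n, zpow_eq_sq x (n + 1), f0_proj, add_assoc, one_add_one_eq_two] at h
  exact (proj_eq_iff.1 h).2

lemma int_eq_zero_of_abs {k : ℤ} (h1 : (-1 : ℝ) < k) (h2 : (k : ℝ) < 1) : k = 0 := by
  have a1 : (-1 : ℤ) < k := by exact_mod_cast h1
  have a2 : k < 1 := by exact_mod_cast h2
  omega

lemma sq_rec_lin {x : T} {n : ℤ} (h : |sq x n| ≤ 45 / 100) :
    sq x (n + 2) = tau (sq x (n + 1)) - sq x n / 16 := by
  obtain ⟨k, hk⟩ := sq_rec x n
  rw [gam_lin h] at hk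
  have h1 := tau_bound (abs_sq_le x (n + 1))
  have h2 := sq_mem x (n + 2)
  rw [abs_le] at h
  rw [int_eq_zero_of_abs (k := k) (by linarith) (by linarith)] at hk
  simpa using hk

lemma sq_expand {x : T} {n : ℤ} (h : 45 / 100 < |sq x n|) (h' : 45 / 100 < |sq x (n + 2)|)
    (ht : tau (sq x (n + 1)) = 0) : 2 * (1 / 2 - |sq x n|) ≤ 1 / 2 - |sq x (n + 2)| := by
  obtain ⟨k, hk⟩ := sq_rec x n
  rw [ht] at hk
  have h1 := sq_mem x n
  have h2 := sq_mem x (n + 2)
  have g1 : gam (45 / 100) = 45 / 1600 := by rw [gam_lin (by rw [abs_of_pos] <;> norm_num)]; norm_num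
  have g2 : gam (-45 / 100) = -45 / 1600 := by
    rw [gam_lin (by rw [abs_of_neg] <;> norm_num)]; norm_num
  have g3 : gam (47 / 100) = 469 / 3200 := by rw [gam_mid (by norm_num) (by norm_num)]; norm_num
  have g4 : gam (-47 / 100) = -469 / 3200 := by
    rw [gam_mid' (by norm_num) (by norm_num)]; norm_num
  set s := sq x n
  set u := sq x (n + 2)
  rcases le_total 0 s with hs | hs
  · rw [abs_of_nonneg hs] at h ⊢
    rcases le_total s (47 / 100) with h3 | h3
    · exfalso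
      have a1 := strictMono_gam.monotone h.le
      have a2 := strictMono_gam.monotone h3
      rw [int_eq_zero_of_abs (k := k) (by linarith) (by linarith)] at hk
      rw [lt_abs] at h'
      push_cast at hk
      rcases h' with h' | h' <;> linarith
    · rw [gam_mid h3 (by linarith)] at hk
      rcases eq_or_lt_of_le h1.2 with h4 | h4
      · have := abs_sq_le x (n + 2)
        linarith
      · rw [int_eq_zero_of_abs (k := k) (by linarith) (by linarith)] at hk
        push_cast at hk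
        rw [abs_of_nonpos (by linarith)]; linarith
  · rw [abs_of_nonpos hs] at h ⊢
    rcases le_total (-47 / 100) s with h3 | h3
    · exfalso
      have a1 := strictMono_gam.monotone (show s ≤ -45 / 100 by linarith)
      have a2 := strictMono_gam.monotone h3
      rw [int_eq_zero_of_abs (k := k) (by linarith) (by linarith)] at hk
      rw [lt_abs] at h'
      push_cast at hk
      rcases h' with h' | h' <;> linarith
    · rw [gam_mid' (by linarith) h3] at hk
      rw [int_eq_zero_of_abs (k := k) (by linarith) (by linarith)] at hk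
      push_cast at hk
      rw [abs_of_nonneg (by linarith)]; linarith

lemma tau_sq_far {x : T} {n : ℤ} (h : 45 / 100 < |sq x n|) : tau (sq x n) = 0 := by
  have h1 := sq_mem x n
  rcases lt_abs.1 h with h | h
  · exact tau_hi (by linarith) (by linarith)
  · exact tau_lo (by linarith) (by linarith)

lemma tau_sq_near {x : T} {n : ℤ} (h : |sq x n| ≤ 9 / 100) : tau (sq x n) = 0 := by
  rw [abs_le] at h
  exact tau_lo (by linarith) h.2

lemma sq_eq_zero {x : T} {A : ℤ → Prop}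
    (h : ∀ n, A n → A (n - 2) ∧ |sq x n| ≤ 45 / 100 ∧ tau (sq x (n + 1)) = 0) {n : ℤ} (hn : A n) :
    sq x n = 0 := by
  rw [← abs_nonpos_iff]
  refine eq_zero_of_expand (A := A) (fun n => n - 2) (fun n => |sq x n|) (fun n hn => ?_) hn
  obtain ⟨h1, h2, -⟩ := h n hn
  obtain ⟨-, h3, h4⟩ := h _ h1
  have h5 := sq_rec_lin h3
  rw [h4, sub_add_cancel, zero_sub] at h5
  refine ⟨h1, ?_, by linarith⟩
  rw [h5, abs_neg, abs_div, abs_of_pos (show (0 : ℝ) < 16 by norm_num)]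
  linarith [abs_nonneg (sq x (n - 2))]

lemma sq_eq_half {x : T} {A : ℤ → Prop}
    (h : ∀ n, A n → A (n + 2) ∧ 45 / 100 < |sq x n| ∧ tau (sq x (n + 1)) = 0) {n : ℤ}
    (hn : A n) : sq x n = 1 / 2 := by
  have h0 : 1 / 2 - |sq x n| ≤ 0 := by
    refine eq_zero_of_expand (A := A) (fun n => n + 2) (fun n => 1 / 2 - |sq x n|)
      (fun n hn => ?_) hn
    obtain ⟨h1, h2, h3⟩ := h n hn
    exact ⟨h1, sq_expand h2 (h _ h1).2.1 h3, by linarith⟩
  have h1 := sq_mem x n
  rcases le_abs.1 (show 1 / 2 ≤ |sq x n| by linarith) with h2 | h2 <;> linarith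

/-- The sink. -/
def pt0 : T := proj (0, 0)

/-- The source. -/
noncomputable def pt3 : T := proj (1 / 2, 1 / 2)

/-- The saddle of period two. -/
noncomputable def q1 : T := proj (0, 1 / 2)

/-- The image of the saddle of period two. -/
noncomputable def q2 : T := proj (1 / 2, 0)

/-- The two intervals of the horseshoe. -/
def L : Set ℝ := Icc (11 / 100) (19 / 100) ∪ Icc (21 / 100) (29 / 100)

/-- The horseshoe. -/
def Lam : Set T := {x | ∀ n : ℤ, (f0 ^ n) x ∈ proj '' (L ×ˢ L)}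

lemma eq_sq (x : T) : x = proj (sq x 0, sq x (0 + 1)) := zpow_eq_sq x 0

lemma sq_mem_L {x : T} (h1 : ∀ n, |sq x n| ≤ 45 / 100)
    (h0 : ∀ n, ¬ (|sq x n| ≤ 9 / 100 ∧ |sq x (n + 1)| ≤ 9 / 100)) (n : ℤ) : sq x n ∈ L := by
  have hr : ∀ n, sq x (n + 1) = tau (sq x n) - sq x (n - 1) / 16 := fun n => by
    have := sq_rec_lin (h1 (n - 1))
    rwa [sub_add_cancel, show n - 1 + 2 = n + 1 by ring] at this
  have a1 : ∀ n, 9 / 100 < |sq x n| := fun n => by
    by_contra hc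
    push Not at hc
    refine h0 n ⟨hc, ?_⟩
    have := abs_le.1 (h1 (n - 1))
    rw [hr, tau_sq_near hc, abs_le]; constructor <;> linarith
  have a2 : ∀ n, 9 / 100 < sq x n := fun n => by
    have b1 := hr (n - 1)
    rw [sub_add_cancel] at b1
    have b2 := tau_bound (abs_sq_le x (n - 1))
    have b3 := abs_le.1 (h1 (n - 1 - 1))
    rcases lt_abs.1 (a1 n) with h | h <;> linarith
  have a3 : ∀ n, 11 / 100 ≤ sq x n ∧ sq x n ≤ 29 / 100 := fun n => by
    by_contra hc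
    have b1 := tau_small (abs_sq_le x n) (by
      rcases not_and_or.1 hc with h | h
      · exact Or.inl (le_of_not_ge h)
      · exact Or.inr (le_of_not_ge h))
    linarith [hr n, a2 (n + 1), a2 (n - 1)]
  rcases le_total (sq x n) (19 / 100) with h | h
  · exact Or.inl ⟨(a3 n).1, h⟩
  rcases le_total (21 / 100) (sq x n) with h' | h'
  · exact Or.inr ⟨h', (a3 n).2⟩
  · linarith [hr n, a3 (n + 1), a3 (n - 1), tau_M1 h h']

lemma nonwandering_subset : nonwandering f0 ⊆ {pt0} ∪ Lam ∪ {q1, q2} ∪ {pt3} := by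
  intro x hx
  rcases dichotomy f0_mem isClosed_C2 mapsTo_C2 trap_C2 hx with h2 | h2
  swap
  · right
    have h : ∀ n, 45 / 100 < |sq x n| := fun n => by
      rw [← norm_fst_sq]; exact lt_of_not_ge fun hc => h2 n (Or.inl hc)
    have e : ∀ n, sq x n = 1 / 2 := fun n => sq_eq_half (A := fun _ => True)
      (fun n _ => ⟨trivial, h n, tau_sq_far (h _)⟩) trivial
    rw [eq_sq x, e, e]; rfl
  left
  rcases dichotomy f0_mem isClosed_C1 mapsTo_C1 trap_C1 hx with h1 | h1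
  swap
  · right
    have b1 : ∀ n, |sq x n| ≤ 45 / 100 → 45 / 100 < |sq x (n + 1)| := fun n hn => by
      rw [← norm_snd_sq]; rw [← norm_fst_sq] at hn
      exact lt_of_not_ge fun hc => h1 n ⟨hn, hc⟩
    have b2 : ∀ n, 45 / 100 < |sq x n| → |sq x (n + 1)| ≤ 45 / 100 := fun n hn => by
      rw [← norm_snd_sq]; rw [← norm_fst_sq] at hn
      exact (h2 n).resolve_left (not_le.2 hn)
    have e0 : ∀ n, |sq x n| ≤ 45 / 100 → sq x n = 0 := fun n hn =>
      sq_eq_zero (A := fun n => |sq x n| ≤ 45 / 100) (fun n hn => ⟨by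
        by_contra hc
        have := b1 _ (b2 _ (lt_of_not_ge hc))
        rw [show n - 2 + 1 + 1 = n by ring] at this
        linarith, hn, tau_sq_far (b1 n hn)⟩) hn
    have e1 : ∀ n, 45 / 100 < |sq x n| → sq x n = 1 / 2 := fun n hn =>
      sq_eq_half (A := fun n => 45 / 100 < |sq x n|) (fun n hn => ⟨by
        have := b1 _ (b2 _ hn)
        rwa [add_assoc, one_add_one_eq_two] at this, hn, by
        rw [e0 _ (b2 n hn)]; exact tau_lo (by norm_num) (by norm_num)⟩) hn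
    rcases le_or_gt |sq x 0| (45 / 100) with h | h
    · left; rw [eq_sq x, e0 _ h, e1 _ (b1 _ h)]; rfl
    · right; rw [eq_sq x, e1 _ h, e0 _ (b2 _ h)]; rfl
  left
  have b1 : ∀ n, |sq x n| ≤ 45 / 100 := fun n => by rw [← norm_fst_sq]; exact (h1 n).1
  rcases dichotomy f0_mem isClosed_C0 mapsTo_C0 trap_C0 hx with h0 | h0
  · left
    have b0 : ∀ n, |sq x n| ≤ 9 / 100 := fun n => by rw [← norm_fst_sq]; exact (h0 n).1
    have e : ∀ n, sq x n = 0 := fun n => sq_eq_zero (A := fun _ => True)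
      (fun n _ => ⟨trivial, b1 n, tau_sq_near (b0 _)⟩) trivial
    rw [eq_sq x, e, e]; rfl
  · right
    have hL := sq_mem_L b1 fun n hn => h0 n ⟨by rw [norm_fst_sq]; exact hn.1,
      by rw [norm_snd_sq]; exact hn.2⟩
    exact fun n => ⟨(sq x n, sq x (n + 1)), ⟨hL n, hL (n + 1)⟩, (zpow_eq_sq x n).symm⟩

end Pool.Agent.Lib.MP_fe72db_an
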