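import Mathlib

/-! A `C^1` action of the affine group of the line on the real line, trivial outside
`(-π/2, π/2)`. -/

open Filter Topology Set Real

namespace Pool.Agent.Lib.MP_fe72db_an

/-- Square of the positive part. -/
noncomputable def psq (t : ℝ) : ℝ := (max t 0) ^ 2

lemma psq_of_nonpos {t : ℝ} (h : t ≤ 0) : psq t = 0 := by simp [psq, max_eq_right h]

lemma psq_of_nonneg {t : ℝ} (h : 0 ≤ t) : psq t = t ^ 2 := by simp [psq, max_eq_left h]

lemma hasDerivAt_psq (t : ℝ) : HasDerivAt psq (2 * max t 0) t := by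
  rcases lt_trichotomy t 0 with h | rfl | h
  · have : psq =ᶠ[𝓝 t] fun _ => 0 := by
      filter_upwards [Iio_mem_nhds h] with s hs using psq_of_nonpos (le_of_lt hs)
    rw [max_eq_right h.le, mul_zero]
    exact (hasDerivAt_const t (0 : ℝ)).congr_of_eventuallyEq this
  · rw [max_self, mul_zero, hasDerivAt_iff_isLittleO_nhds_zero]
    have h1 : (fun h : ℝ => h ^ 2) =o[𝓝 0] fun h => h := by
      simpa using Asymptotics.isLittleO_pow_id (𝕜 := ℝ) (n := 2) (by norm_num)
    refine Asymptotics.IsBigO.trans_isLittleO ?_ h1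
    apply Asymptotics.IsBigO.of_bound 1
    refine Eventually.of_forall fun h => ?_
    rcases le_total h 0 with hh | hh
    · simp [psq_of_nonpos hh, psq_of_nonpos le_rfl]; positivity
    · simp [psq_of_nonneg hh, psq_of_nonpos le_rfl]
  · have : psq =ᶠ[𝓝 t] fun s => s ^ 2 := by
      filter_upwards [Ioi_mem_nhds h] with s hs using psq_of_nonneg (le_of_lt hs)
    rw [max_eq_left h.le]
    refine HasDerivAt.congr_of_eventuallyEq ?_ this
    simpa using hasDerivAt_pow 2 t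

lemma contDiff_psq : ContDiff ℝ 1 psq := by
  rw [contDiff_one_iff_deriv]
  refine ⟨fun t => (hasDerivAt_psq t).differentiableAt, ?_⟩
  have : deriv psq = fun t => 2 * max t 0 := funext fun t => (hasDerivAt_psq t).deriv
  rw [this]
  fun_prop

/-- The affine map `τ ↦ exp a * τ + c` read in the coordinate `x = arctan (arsinh τ)`. -/
noncomputable def Gam (a c x : ℝ) : ℝ :=
  if |x| < π / 2 then arctan (arsinh (exp a * sinh (tan x) + c)) else x

lemma Gam_of_le {x : ℝ} (h : π / 2 ≤ |x|) (a c : ℝ) : Gam a c x = x := by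
  rw [Gam, if_neg (not_lt.2 h)]

lemma Gam_zero (x : ℝ) : Gam 0 0 x = x := by
  unfold Gam
  split_ifs with h
  · rw [abs_lt] at h
    simp [arsinh_sinh, arctan_tan h.1 h.2]
  · rfl

lemma Gam_Gam (a c a' c' x : ℝ) :
    Gam a c (Gam a' c' x) = Gam (a + a') (exp a * c' + c) x := by
  by_cases h : |x| < π / 2
  · have h1 : ∀ y, |arctan y| < π / 2 := fun y =>
      abs_lt.2 ⟨neg_pi_div_two_lt_arctan y, arctan_lt_pi_div_two y⟩
    simp only [Gam, if_pos h, if_pos (h1 _), tan_arctan, sinh_arsinh, exp_add]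
    congr 2; ring
  · simp only [Gam, if_neg h]

lemma Gam_neg (a c x : ℝ) : Gam a c (-x) = -Gam a (-c) x := by
  unfold Gam
  rw [abs_neg]
  split_ifs with h
  · rw [tan_neg, sinh_neg, ← arctan_neg, ← arsinh_neg]
    congr 2; ring
  · rfl

lemma Gam_at_zero (c : ℝ) : Gam 0 c 0 = arctan (arsinh c) := by
  have : |(0 : ℝ)| < π / 2 := by simpa using pi_div_two_pos
  rw [Gam, if_pos this]
  simp

/-- Local formula near the right end point. -/
noncomputable def GamB (a c T : ℝ) : ℝ :=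
  log ((exp a * (1 - expNegInvGlue T ^ 2) + 2 * c * expNegInvGlue T +
    √((exp a * (1 - expNegInvGlue T ^ 2) + 2 * c * expNegInvGlue T) ^ 2 +
      4 * expNegInvGlue T ^ 2)) / 2)

lemma arsinh_formula (a c : ℝ) {T : ℝ} (hT : 0 < T) :
    arsinh (exp a * sinh T⁻¹ + c) = T⁻¹ + GamB a c T := by
  have hq : expNegInvGlue T = exp (-T⁻¹) := by simp [expNegInvGlue, not_le.2 hT]
  set q := expNegInvGlue T with hqdef
  have hq0 : 0 < q := by rw [hq]; exact exp_pos _
  set n := exp a * (1 - q ^ 2) + 2 * c * q with hn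
  have hs : sinh T⁻¹ = (q⁻¹ - q) / 2 := by
    rw [sinh_eq, hq, ← exp_neg, neg_neg]
  have hy : exp a * sinh T⁻¹ + c = n / (2 * q) := by
    rw [hs, hn]; field_simp
  have hsq : √(1 + (n / (2 * q)) ^ 2) = √(n ^ 2 + 4 * q ^ 2) / (2 * q) := by
    have : 1 + (n / (2 * q)) ^ 2 = (n ^ 2 + 4 * q ^ 2) / (2 * q) ^ 2 := by field_simp; ring
    rw [this, sqrt_div (by positivity), sqrt_sq (by positivity)]
  have hpos : 0 < n + √(n ^ 2 + 4 * q ^ 2) := by
    have h1 : |n| < √(n ^ 2 + 4 * q ^ 2) := by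
      apply lt_sqrt_of_sq_lt
      rw [sq_abs]; nlinarith
    linarith [neg_abs_le n]
  have hlq : log q = -T⁻¹ := by rw [hq, log_exp]
  rw [hy, arsinh, hsq, ← add_div, GamB]
  have : (n + √(n ^ 2 + 4 * q ^ 2)) / (2 * q) = (n + √(n ^ 2 + 4 * q ^ 2)) / 2 / q := by
    field_simp
  rw [this, log_div (by positivity) hq0.ne', hlq]
  ring

lemma contDiffAt_GamB (a c : ℝ) :
    ContDiffAt ℝ 1 (fun p : ℝ × ℝ × ℝ => GamB p.1 p.2.1 p.2.2) (a, c, 0) := by
  have hq : ContDiff ℝ 1 (fun p : ℝ × ℝ × ℝ => expNegInvGlue p.2.2) :=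
    (expNegInvGlue.contDiff (n := 1)).comp (contDiff_snd.comp contDiff_snd)
  have hn : ContDiff ℝ 1 (fun p : ℝ × ℝ × ℝ => exp p.1 * (1 - expNegInvGlue p.2.2 ^ 2) +
      2 * p.2.1 * expNegInvGlue p.2.2) :=
    ((contDiff_fst.exp).mul (contDiff_const.sub (hq.pow 2))).add
      ((contDiff_const.mul (contDiff_fst.comp contDiff_snd)).mul hq)
  unfold GamB
  apply ContDiffAt.log
  · apply ContDiffAt.div_const
    apply hn.contDiffAt.add
    apply ContDiffAt.sqrt
    · exact ((hn.pow 2).add (contDiff_const.mul (hq.pow 2))).contDiffAt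
    · simp
  · have := exp_pos a
    have h2 := sqrt_nonneg (exp a ^ 2)
    simp only [expNegInvGlue.zero, ne_eq, OfNat.ofNat_ne_zero, not_false_eq_true, zero_pow,
      sub_zero, mul_one, mul_zero, add_zero]
    linarith

lemma contDiffAt_Gam_right (a c : ℝ) :
    ContDiffAt ℝ 1 (fun p : ℝ × ℝ × ℝ => Gam p.1 p.2.1 p.2.2) (a, c, π / 2) := by
  let Tf : ℝ × ℝ × ℝ → ℝ := fun p => tan (π / 2 - p.2.2)
  have hT : ContDiffAt ℝ 1 Tf (a, c, π / 2) := by
    have h1 : ContDiffAt ℝ 1 tan (π / 2 - (a, c, π / 2).2.2) := contDiffAt_tan.2 (by simp)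
    exact h1.comp (a, c, π / 2) (f := fun p : ℝ × ℝ × ℝ => π / 2 - p.2.2)
      (contDiff_const.sub (contDiff_snd.comp contDiff_snd)).contDiffAt
  have hT0 : Tf (a, c, π / 2) = 0 := by simp [Tf]
  let B : ℝ × ℝ × ℝ → ℝ := fun p => GamB p.1 p.2.1 (Tf p)
  have hB : ContDiffAt ℝ 1 B (a, c, π / 2) := by
    have h1 : ContDiffAt ℝ 1 (fun p : ℝ × ℝ × ℝ => (p.1, p.2.1, Tf p)) (a, c, π / 2) :=
      contDiffAt_fst.prodMk ((contDiff_fst.comp contDiff_snd).contDiffAt.prodMk hT)
    have h2 := contDiffAt_GamB a c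
    rw [← hT0] at h2
    exact ContDiffAt.comp (g := fun p : ℝ × ℝ × ℝ => GamB p.1 p.2.1 p.2.2)
      (f := fun p : ℝ × ℝ × ℝ => (p.1, p.2.1, Tf p)) (a, c, π / 2) h2 h1
  have hden : ContDiffAt ℝ 1 (fun p => 1 + B p * Tf p) (a, c, π / 2) :=
    contDiffAt_const.add (hB.mul hT)
  have hG : ContDiffAt ℝ 1
      (fun p => π / 2 - arctan (Tf p - B p * psq (Tf p) / (1 + B p * Tf p))) (a, c, π / 2) := by
    apply contDiffAt_const.sub
    apply ContDiffAt.arctan
    apply hT.sub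
    apply ContDiffAt.div (hB.mul (contDiff_psq.contDiffAt.comp _ hT)) hden
    simp [hT0]
  refine hG.congr_of_eventuallyEq ?_
  have e1 : ∀ᶠ p in 𝓝 (a, c, π / 2), 0 < 1 + B p * Tf p :=
    hden.continuousAt.eventually_const_lt (by simp [hT0])
  have e2 : ∀ᶠ p : ℝ × ℝ × ℝ in 𝓝 (a, c, π / 2), p.2.2 ∈ Ioo 0 π := by
    have : Continuous fun p : ℝ × ℝ × ℝ => p.2.2 := by fun_prop
    exact this.continuousAt.eventually (Ioo_mem_nhds pi_div_two_pos (half_lt_self pi_pos))
  filter_upwards [e1, e2] with p h1 h2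
  obtain ⟨a', c', x⟩ := p
  simp only [mem_Ioo] at h2
  by_cases hx : x < π / 2
  · have hTx : Tf (a', c', x) = (tan x)⁻¹ := tan_pi_div_two_sub x
    have htan : 0 < tan x := tan_pos_of_pos_of_lt_pi_div_two h2.1 hx
    have hTpos : 0 < Tf (a', c', x) := by rw [hTx]; positivity
    set T := Tf (a', c', x) with hTdef
    have hB' : B (a', c', x) = GamB a' c' T := rfl
    rw [hB'] at h1 ⊢
    have habs : |x| < π / 2 := by rw [abs_of_pos h2.1]; exact hx
    have htx : tan x = T⁻¹ := by rw [hTx, inv_inv]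
    simp only [Gam, if_pos habs]
    rw [htx, arsinh_formula a' c' hTpos, psq_of_nonneg hTpos.le]
    have hpos : 0 < T / (1 + GamB a' c' T * T) := by positivity
    have e : T⁻¹ + GamB a' c' T = (T / (1 + GamB a' c' T * T))⁻¹ := by field_simp
    rw [e, arctan_inv_of_pos hpos]
    congr 2
    rw [eq_sub_iff_add_eq, ← add_div, div_eq_iff h1.ne']
    ring
  · have hx' : π / 2 ≤ x := not_lt.1 hx
    have hTle : Tf (a', c', x) ≤ 0 :=
      tan_nonpos_of_nonpos_of_neg_pi_div_two_le (by linarith) (by linarith [h2.2])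
    rw [Gam_of_le (by rw [abs_of_pos h2.1]; exact hx'), psq_of_nonpos hTle]
    simp only [mul_zero, zero_div, sub_zero, Tf]
    rw [arctan_tan (by linarith [h2.2]) (by linarith [pi_pos])]
    ring

lemma contDiff_Gam : ContDiff ℝ 1 (fun p : ℝ × ℝ × ℝ => Gam p.1 p.2.1 p.2.2) := by
  rw [contDiff_iff_contDiffAt]
  rintro ⟨a, c, x⟩
  have hc : Continuous fun p : ℝ × ℝ × ℝ => |p.2.2| := by fun_prop
  rcases lt_trichotomy |x| (π / 2) with h | h | h
  · have e : (fun p : ℝ × ℝ × ℝ => Gam p.1 p.2.1 p.2.2) =ᶠ[𝓝 (a, c, x)]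
        fun p => arctan (arsinh (exp p.1 * sinh (tan p.2.2) + p.2.1)) := by
      filter_upwards [(hc.tendsto (a, c, x)).eventually_lt_const h] with p hp
      simp only [Gam, if_pos hp]
    refine ContDiffAt.congr_of_eventuallyEq ?_ e
    apply ContDiffAt.arctan
    apply ContDiffAt.arsinh
    apply ContDiffAt.add _ (contDiff_fst.comp contDiff_snd).contDiffAt
    apply ContDiffAt.mul contDiffAt_fst.exp
    apply ContDiffAt.sinh
    have h1 : ContDiffAt ℝ 1 tan (a, c, x).2.2 :=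
      contDiffAt_tan.2 (cos_pos_of_mem_Ioo (abs_lt.1 h)).ne'
    exact ContDiffAt.comp (g := tan) (f := fun p : ℝ × ℝ × ℝ => p.2.2) (a, c, x) h1
      (contDiff_snd.comp contDiff_snd).contDiffAt
  · rcases le_total 0 x with hx | hx
    · rw [abs_of_nonneg hx] at h
      rw [h]; exact contDiffAt_Gam_right a c
    · rw [abs_of_nonpos hx] at h
      have e : (fun p : ℝ × ℝ × ℝ => Gam p.1 p.2.1 p.2.2) =
          fun p => -((fun p : ℝ × ℝ × ℝ => Gam p.1 p.2.1 p.2.2) (p.1, -p.2.1, -p.2.2)) := by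
        funext p
        simp [Gam_neg]
      rw [e]
      apply ContDiffAt.neg
      have h1 := contDiffAt_Gam_right a (-c)
      rw [← h] at h1
      have h2 : ContDiff ℝ 1 (fun p : ℝ × ℝ × ℝ => (p.1, -p.2.1, -p.2.2)) := by fun_prop
      exact h1.comp (a, c, x) h2.contDiffAt
  · have e : (fun p : ℝ × ℝ × ℝ => Gam p.1 p.2.1 p.2.2) =ᶠ[𝓝 (a, c, x)] fun p => p.2.2 := by
      filter_upwards [(hc.tendsto (a, c, x)).eventually_const_lt h] with p hp
      exact Gam_of_le hp.le _ _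
    exact (contDiff_snd.comp contDiff_snd).contDiffAt.congr_of_eventuallyEq e

end Pool.Agent.Lib.MP_fe72db_an
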