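import Pool.Agent.Lib.MP_fe72db_an.Calc

/-! Transplanting compactly supported diffeomorphisms and gluing families with disjoint supports. -/

open Filter Topology Set Metric

namespace Pool.Agent.Lib.MP_fe72db_an

/-- A map of the plane equal to the identity outside a ball of radius less than one half. -/
def Supp (Φ : E → E) : Prop := ∃ r : ℝ, r < 1 / 2 ∧ ∀ v, r ≤ ‖v‖ → Φ v = v

/-- Transplant of a plane map at the point `p` of the torus. -/
noncomputable def tp (p : T) (Φ : E → E) (x : T) : T := p + proj (Φ (lift (x - p)))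

lemma tp_apply (p : T) (Φ : E → E) {v : E} (hv : ‖v‖ < 1 / 2) :
    tp p Φ (p + proj v) = p + proj (Φ v) := by
  rw [tp, add_sub_cancel_left, lift_proj hv]

lemma tp_eq_self (p : T) {Φ : E → E} {x : T} (h : Φ (lift (x - p)) = lift (x - p)) :
    tp p Φ x = x := by
  rw [tp, h, add_proj_lift_sub]

lemma Supp.inv {Φ : Equiv.Perm E} (h : Supp Φ) : Supp (Φ⁻¹ : Equiv.Perm E) := by
  obtain ⟨r, hr, h⟩ := h
  exact ⟨r, hr, fun v hv => by rw [Equiv.Perm.inv_eq_iff_eq]; exact (h v hv).symm⟩

lemma tp_tp (p : T) (Ψ : E → E) {Φ : Equiv.Perm E} (h : Supp Φ) (x : T) :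
    tp p Ψ (tp p Φ x) = tp p (Ψ ∘ Φ) x := by
  obtain ⟨r, hr, h⟩ := h
  by_cases hv : r ≤ ‖lift (x - p)‖
  · rw [tp_eq_self p (h _ hv)]
    simp [tp, h _ hv]
  · have : ‖Φ (lift (x - p))‖ < 1 / 2 := by
      by_contra hc
      have h1 : r ≤ ‖Φ (lift (x - p))‖ := by linarith [not_lt.1 hc]
      have h2 := Φ.injective (h _ h1)
      rw [h2] at h1
      exact hv h1
    conv_lhs => rw [show tp p Φ x = p + proj (Φ (lift (x - p))) from rfl]
    rw [tp_apply p Ψ this]
    rfl

/-- The transplanted permutation. -/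
noncomputable def tpPerm (p : T) (Φ : Equiv.Perm E) (h : Supp Φ) : Equiv.Perm T where
  toFun := tp p Φ
  invFun := tp p (Φ⁻¹ : Equiv.Perm E)
  left_inv x := by
    rw [tp_tp p _ h]
    exact tp_eq_self p (by simp)
  right_inv x := by
    rw [tp_tp p _ h.inv]
    exact tp_eq_self p (by simp)

lemma tpPerm_apply (p : T) (Φ : Equiv.Perm E) (h : Supp Φ) (x : T) :
    tpPerm p Φ h x = tp p Φ x := rfl

lemma tp_lift_aux (p : T) {Φ : E → E} (hΦ : ContDiff ℝ 1 Φ) (h : Supp Φ) (z : E) :
    ContDiffAt ℝ 1 (fun z : E => z + (Φ (lift (proj z - p)) - lift (proj z - p))) z ∧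
    HasFDerivAt (fun z : E => z + (Φ (lift (proj z - p)) - lift (proj z - p)))
      (fderiv ℝ Φ (lift (proj z - p))) z := by
  obtain ⟨r, hr, h⟩ := h
  set v := lift (proj z - p) with hv
  by_cases hv2 : ‖v‖ < 1 / 2
  · have h1 : ∀ᶠ z' in 𝓝 z, ‖z' - z + v‖ < 1 / 2 := by
      have : Continuous fun z' : E => ‖z' - z + v‖ := by fun_prop
      exact (this.tendsto z).eventually_lt_const (by simpa using hv2)
    have h2 : (fun z : E => z + (Φ (lift (proj z - p)) - lift (proj z - p))) =ᶠ[𝓝 z]
        fun z' => Φ (z' - z + v) + (z - v) := by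
      filter_upwards [h1] with z' hz'
      have : proj z' - p = proj (z' - z + v) := by
        rw [proj_add, proj_sub, hv, proj_lift]; abel
      rw [this, lift_proj hz']; abel
    constructor
    · refine ContDiffAt.congr_of_eventuallyEq ?_ h2
      exact ((hΦ.comp ((contDiff_id.sub contDiff_const).add contDiff_const)).add
        contDiff_const).contDiffAt
    · refine HasFDerivAt.congr_of_eventuallyEq ?_ h2
      have a1 : HasFDerivAt (fun z' : E => z' - z + v) (ContinuousLinearMap.id ℝ E) z :=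
        ((hasFDerivAt_id z).sub_const z).add_const v
      have a2 : HasFDerivAt Φ (fderiv ℝ Φ v) (z - z + v) := by
        simpa using (hΦ.differentiable one_ne_zero v).hasFDerivAt
      simpa using (a2.comp z a1).add_const (z - v)
  · have hrv : r < ‖v‖ := by linarith [not_lt.1 hv2]
    have h1 : ∀ᶠ z' in 𝓝 z, r < ‖lift (proj z' - p)‖ := by
      have : Continuous fun z' : E => ‖proj z' - p‖ := (continuous_proj.sub continuous_const).norm
      simp only [norm_lift]
      exact (this.tendsto z).eventually_const_lt (by rwa [hv, norm_lift] at hrv)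
    have h2 : (fun z : E => z + (Φ (lift (proj z - p)) - lift (proj z - p))) =ᶠ[𝓝 z] id := by
      filter_upwards [h1] with z' hz'
      simp [h _ hz'.le]
    have h3 : fderiv ℝ Φ v = ContinuousLinearMap.id ℝ E := by
      have : Φ =ᶠ[𝓝 v] id := by
        filter_upwards [(continuous_norm.tendsto v).eventually_const_lt hrv] with w hw
        exact h w hw.le
      rw [this.fderiv_eq, fderiv_id]
    rw [h3]
    exact ⟨contDiffAt_id.congr_of_eventuallyEq h2, (hasFDerivAt_id z).congr_of_eventuallyEq h2⟩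

lemma tp_proj (p : T) (Φ : E → E) (z : E) :
    tp p Φ (proj z) = proj (z + (Φ (lift (proj z - p)) - lift (proj z - p))) := by
  rw [tp, proj_add, proj_sub, proj_lift]; abel

lemma isC1_tp (p : T) {Φ : E → E} (hΦ : ContDiff ℝ 1 Φ) (h : Supp Φ) : IsC1 (tp p Φ) :=
  ⟨_, contDiff_iff_contDiffAt.2 fun z => (tp_lift_aux p hΦ h z).1, tp_proj p Φ⟩

lemma D_tp (p : T) {Φ : E → E} (hΦ : ContDiff ℝ 1 Φ) (h : Supp Φ) (x : T) :
    D (tp p Φ) x = fderiv ℝ Φ (lift (x - p)) := by
  obtain ⟨z, rfl⟩ := surjective_proj x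
  exact D_eq_of_lift (tp_proj p Φ) (tp_lift_aux p hΦ h z).2

lemma tpPerm_mem (p : T) {Φ : Equiv.Perm E} (h : Supp Φ) (h1 : ContDiff ℝ 1 Φ)
    (h2 : ContDiff ℝ 1 (Φ⁻¹ : Equiv.Perm E)) : tpPerm p Φ h ∈ Diff1 :=
  ⟨isC1_tp p h1 h, isC1_tp p h2 h.inv⟩

/-- A `C^1` small perturbation of the identity of the plane is a diffeomorphism. -/
lemma exists_perm_of_small {U : E → E} (hU : ContDiff ℝ 1 U)
    (hb : ∀ v, ‖fderiv ℝ U v‖ ≤ 1 / 2) :
    ∃ Φ : Equiv.Perm E, (∀ v, Φ v = v + U v) ∧ ContDiff ℝ 1 Φ ∧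
      ContDiff ℝ 1 (Φ⁻¹ : Equiv.Perm E) := by
  have hd := hU.differentiable one_ne_zero
  have hL : LipschitzWith (1 / 2) U := by
    apply lipschitzWith_of_nnnorm_fderiv_le hd
    intro v
    rw [← NNReal.coe_le_coe]
    simpa using hb v
  have hA : ApproximatesLinearOn (fun v => v + U v)
      ((ContinuousLinearEquiv.refl ℝ E : E ≃L[ℝ] E) : E →L[ℝ] E) univ (1 / 2) := by
    intro x _ y _
    have := hL.dist_le_mul x y
    rw [dist_eq_norm, dist_eq_norm] at this
    have e : x + U x - (y + U y) -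
      ((ContinuousLinearEquiv.refl ℝ E : E ≃L[ℝ] E) : E →L[ℝ] E) (x - y) = U x - U y := by
      simp; abel
    rw [e]; exact this
  have hc : Subsingleton E ∨ (1 / 2 : NNReal) <
      ‖((ContinuousLinearEquiv.refl ℝ E : E ≃L[ℝ] E).symm : E →L[ℝ] E)‖₊⁻¹ := by
    right
    have : ((ContinuousLinearEquiv.refl ℝ E : E ≃L[ℝ] E).symm : E →L[ℝ] E) =
      ContinuousLinearMap.id ℝ E := rfl
    rw [this, ContinuousLinearMap.nnnorm_id]
    norm_num
  let H : E ≃ₜ E := hA.toHomeomorph _ hc
  have hH : ∀ v, H v = v + U v := fun v => rfl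
  have hHc : ContDiff ℝ 1 H := contDiff_id.add hU
  have hn : ∀ v, ‖-fderiv ℝ U v‖ < 1 := fun v => by rw [norm_neg]; linarith [hb v]
  refine ⟨H.toEquiv, hH, hHc, ?_⟩
  refine Homeomorph.contDiff_symm H
    (f₀' := fun v => ContinuousLinearEquiv.unitsEquiv ℝ E (Units.oneSub _ (hn v))) ?_ hHc
  intro a
  have : ((ContinuousLinearEquiv.unitsEquiv ℝ E (Units.oneSub _ (hn a)) : E ≃L[ℝ] E) :
      E →L[ℝ] E) = ContinuousLinearMap.id ℝ E + fderiv ℝ U a := by
    ext1 <;> ext <;> simp
  rw [this]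
  exact (hasFDerivAt_id a).add (hd a).hasFDerivAt

/-- The displacement of a map moving points less than one half. -/
lemma disp_aux {k : T → T} (hk : IsC1 k) (hd : ∀ x, dist (k x) x < 1 / 2) (z : E) :
    ContDiffAt ℝ 1 (fun z : E => lift (k (proj z) - proj z)) z ∧
    HasFDerivAt (fun z : E => lift (k (proj z) - proj z)) (D k (proj z) - 1) z := by
  obtain ⟨K, hK1, hK⟩ := hk
  set w := lift (k (proj z) - proj z) with hw
  have hw1 : ‖w‖ < 1 / 2 := by rw [hw, norm_lift_sub]; exact hd _
  have hc : ContDiff ℝ 1 fun z' : E => K z' - z' + (w - (K z - z)) :=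
    (hK1.sub contDiff_id).add contDiff_const
  have h1 : ∀ᶠ z' in 𝓝 z, ‖K z' - z' + (w - (K z - z))‖ < 1 / 2 :=
    (hc.continuous.norm.tendsto z).eventually_lt_const (by simpa using hw1)
  have h2 : (fun z : E => lift (k (proj z) - proj z)) =ᶠ[𝓝 z]
      fun z' : E => K z' - z' + (w - (K z - z)) := by
    filter_upwards [h1] with z' hz'
    rw [← lift_proj hz']
    congr 1
    rw [proj_add, proj_sub, proj_sub, proj_sub, hw, proj_lift, ← hK, ← hK]; abel
  refine ⟨hc.contDiffAt.congr_of_eventuallyEq h2, HasFDerivAt.congr_of_eventuallyEq ?_ h2⟩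
  rw [D_eq_fderiv hK1 hK]
  exact ((hK1.differentiable one_ne_zero z).hasFDerivAt.sub (hasFDerivAt_id z)).add_const _

lemma D_eq_one_of_notMem {k : T → T} {S : Set T} (hS : IsClosed S) (h : ∀ x, x ∉ S → k x = x)
    {x : T} (hx : x ∉ S) : D k x = 1 := by
  have : k =ᶠ[𝓝 x] id := by
    filter_upwards [hS.isOpen_compl.mem_nhds hx] with y hy using h y hy
  rw [D_congr this, D_id]; rfl

section glue

variable {ι : Type*} (k : ι → T → T) (S : ι → Set T)

open Classical in
/-- The map equal to `k i` on `S i` and to the identity elsewhere. -/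
noncomputable def glue (x : T) : T := if h : ∃ i, x ∈ S i then k h.choose x else x

variable {k S}

lemma glue_of_mem (hdisj : ∀ i j, i ≠ j → Disjoint (S i) (S j)) {i : ι} {x : T} (hx : x ∈ S i) :
    glue k S x = k i x := by
  have h : ∃ i, x ∈ S i := ⟨i, hx⟩
  rw [glue, dif_pos h]
  by_contra hne
  have : h.choose ≠ i := fun e => hne (by rw [e])
  exact Set.disjoint_left.1 (hdisj _ _ this) h.choose_spec hx

lemma glue_of_notMem {x : T} (hx : ∀ i, x ∉ S i) : glue k S x = x := by
  rw [glue, dif_neg (by simpa using hx)]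

lemma glue_isC1 (hk : ∀ i, IsC1 (k i)) (hS : ∀ i, IsClosed (S i))
    (hsupp : ∀ i x, x ∉ S i → k i x = x) (hdisj : ∀ i j, i ≠ j → Disjoint (S i) (S j))
    (hd : ∀ i x, dist (k i x) x < 1 / 2)
    (hη : ∀ η > 0, ∀ᶠ i in cofinite, ∀ x, ‖D (k i) x - 1‖ ≤ η) :
    IsC1 (glue k S) ∧ (∀ i, ∀ x ∈ S i, D (glue k S) x = D (k i) x) ∧
      ∀ x, (∀ i, x ∉ S i) → D (glue k S) x = 1 := by
  classical
  let U : ι → E → E := fun i z => lift (k i (proj z) - proj z)
  let V : Finset ι → E → E := fun s z => ∑ i ∈ s, U i z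
  let V' : Finset ι → E → (E →L[ℝ] E) := fun s z => ∑ i ∈ s, (D (k i) (proj z) - 1)
  let W : E → E := fun z => lift (glue k S (proj z) - proj z)
  let W' : E → (E →L[ℝ] E) := fun z =>
    if h : ∃ i, proj z ∈ S i then D (k h.choose) (proj z) - 1 else 0
  have hW'1 : ∀ i z, proj z ∈ S i → W' z = D (k i) (proj z) - 1 := by
    intro i z hz
    have h : ∃ i, proj z ∈ S i := ⟨i, hz⟩
    have : h.choose = i := by
      by_contra hne
      exact Set.disjoint_left.1 (hdisj _ _ hne) h.choose_spec hz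
    simp only [W', dif_pos h, this]
  have hW'2 : ∀ z, (∀ i, proj z ∉ S i) → W' z = 0 := by
    intro z hz
    simp only [W']
    rw [dif_neg (by simpa using hz)]
  have hV : ∀ s z, HasFDerivAt (V s) (V' s z) z := fun s z =>
    HasFDerivAt.fun_sum fun i _ => (disp_aux (hk i) (hd i) z).2
  have hV'c : ∀ s, Continuous (V' s) := fun s =>
    continuous_finsetSum _ fun i _ =>
      ((hk i).continuous_D.comp continuous_proj).sub continuous_const
  have hother : ∀ i j z, proj z ∈ S i → j ≠ i → proj z ∉ S j := fun i j z hz hji hj =>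
    Set.disjoint_left.1 (hdisj _ _ hji) hj hz
  have hpt : ∀ z, Tendsto (fun s => V s z) atTop (𝓝 (W z)) := by
    intro z
    by_cases h : ∃ i, proj z ∈ S i
    · obtain ⟨i, hi⟩ := h
      apply tendsto_const_nhds.congr'
      filter_upwards [eventually_ge_atTop ({i} : Finset ι)] with s hs
      have his : i ∈ s := hs (Finset.mem_singleton_self i)
      simp only [V, W]
      rw [Finset.sum_eq_single_of_mem i his, glue_of_mem hdisj hi]
      intro j _ hji
      simp [U, hsupp j _ (hother i j z hi hji)]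
    · push Not at h
      have : ∀ s, V s z = W z := by
        intro s
        simp only [V, W]
        rw [glue_of_notMem h, Finset.sum_eq_zero]
        · simp
        · intro j _
          simp [U, hsupp j _ (h j)]
      simp only [this]
      exact tendsto_const_nhds
  have hun : TendstoUniformly V' W' atTop := by
    rw [Metric.tendstoUniformly_iff]
    intro ε hε
    have hfin := hη (ε / 2) (half_pos hε)
    rw [Filter.eventually_cofinite] at hfin
    filter_upwards [eventually_ge_atTop hfin.toFinset] with s hs z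
    by_cases h : ∃ i, proj z ∈ S i
    · obtain ⟨i, hi⟩ := h
      rw [hW'1 i z hi]
      have hz : ∀ j, j ≠ i → D (k j) (proj z) - 1 = 0 := fun j hji => by
        rw [D_eq_one_of_notMem (hS j) (hsupp j) (hother i j z hi hji), sub_self]
      by_cases his : i ∈ s
      · simp only [V']
        rw [Finset.sum_eq_single_of_mem i his (fun j _ hji => hz j hji)]
        simpa using hε
      · simp only [V']
        rw [Finset.sum_eq_zero (fun j hj => hz j (fun e => his (e ▸ hj)))]
        have : ∀ x, ‖D (k i) x - 1‖ ≤ ε / 2 := by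
          by_contra hc
          exact his (hs (by simpa using hc))
        rw [dist_zero_right]
        linarith [this (proj z)]
    · push Not at h
      rw [hW'2 z h]
      simp only [V']
      rw [Finset.sum_eq_zero]
      · simpa using hε
      · intro j _
        rw [D_eq_one_of_notMem (hS j) (hsupp j) (h j), sub_self]
  have hW : ∀ z, HasFDerivAt W (W' z) z := fun z =>
    hasFDerivAt_of_tendstoUniformlyOn isOpen_univ (tendstoUniformlyOn_univ.2 hun)
      (fun s z _ => hV s z) (fun z _ => hpt z) (mem_univ z)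
  have hW'c : Continuous W' := hun.continuous (Eventually.of_forall hV'c).frequently
  have hF : ∀ z, HasFDerivAt (fun z => z + W z) (1 + W' z) z := fun z =>
    (hasFDerivAt_id z).add (hW z)
  have hlift : ∀ z, glue k S (proj z) = proj (z + W z) := fun z => by
    rw [proj_add]; exact (add_proj_lift_sub _ _).symm
  refine ⟨⟨fun z => z + W z, ?_, hlift⟩, ?_, ?_⟩
  · rw [contDiff_one_iff_fderiv]
    refine ⟨fun z => (hF z).differentiableAt, ?_⟩
    have : fderiv ℝ (fun z => z + W z) = fun z => 1 + W' z := funext fun z => (hF z).fderiv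
    rw [this]
    exact continuous_const.add hW'c
  · intro i x hx
    obtain ⟨z, rfl⟩ := surjective_proj x
    rw [D_eq_of_lift hlift (hF z), hW'1 i z hx]; abel
  · intro x hx
    obtain ⟨z, rfl⟩ := surjective_proj x
    rw [D_eq_of_lift hlift (hF z), hW'2 z hx, add_zero]

end glue

lemma norm_inv_sub_one_le {A B : E →L[ℝ] E} (h : B * A = 1) {η : ℝ} (hη : η ≤ 1 / 2)
    (hA : ‖A - 1‖ ≤ η) : ‖B - 1‖ ≤ 2 * η := by
  have e : B - 1 = -(B * (A - 1)) := by rw [mul_sub, h, mul_one]; abel
  have h1 : ‖B - 1‖ ≤ ‖B‖ * η := by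
    rw [e, norm_neg]
    exact (norm_mul_le _ _).trans (mul_le_mul_of_nonneg_left hA (norm_nonneg _))
  have h2 : ‖B‖ ≤ 1 + ‖B - 1‖ := by
    have := norm_add_le (1 : E →L[ℝ] E) (B - 1)
    rw [add_sub_cancel, norm_one] at this
    exact this
  have h0 : 0 ≤ η := (norm_nonneg _).trans hA
  nlinarith [norm_nonneg (B - 1)]

lemma perm_mapsTo_of_supp {k : Equiv.Perm T} {S : Set T} (h : ∀ x, x ∉ S → k x = x) {x : T}
    (hx : x ∈ S) : k x ∈ S := by
  by_contra hc
  have := k.injective (h _ hc)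
  exact hc (this.symm ▸ hx)

lemma perm_inv_supp {k : Equiv.Perm T} {S : Set T} (h : ∀ x, x ∉ S → k x = x) (x : T)
    (hx : x ∉ S) : k⁻¹ x = x := by
  rw [Equiv.Perm.inv_eq_iff_eq]; exact (h x hx).symm

/-- Gluing of diffeomorphisms with disjoint closed supports whose derivatives tend to the
identity. -/
lemma exists_glue {ι : Type*} {k : ι → Equiv.Perm T} {S : ι → Set T} (hk : ∀ i, k i ∈ Diff1)
    (hS : ∀ i, IsClosed (S i)) (hsupp : ∀ i x, x ∉ S i → k i x = x)
    (hdisj : ∀ i j, i ≠ j → Disjoint (S i) (S j)) (hd : ∀ i x, dist (k i x) x < 1 / 2)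
    (hη : ∀ η > 0, ∀ᶠ i in cofinite, ∀ x, ‖D (k i) x - 1‖ ≤ η) :
    ∃ g ∈ Diff1, (∀ i, ∀ x ∈ S i, g x = k i x ∧ D g x = D (k i) x) ∧
      ∀ x, (∀ i, x ∉ S i) → g x = x ∧ D g x = 1 := by
  have H1 := glue_isC1 (k := fun i => k i) (fun i => (hk i).1) hS hsupp hdisj hd hη
  have H2 := glue_isC1 (k := fun i => ((k i)⁻¹ : Equiv.Perm T)) (fun i => (hk i).2) hS
    (fun i => perm_inv_supp (hsupp i)) hdisj
    (fun i x => by
      have := hd i ((k i)⁻¹ x)
      rw [dist_comm] at this
      simpa using this)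
    (fun η hη0 => by
      filter_upwards [hη (min (η / 2) (1 / 2)) (by positivity)] with i hi y
      obtain ⟨x, rfl⟩ := (k i).surjective y
      have := norm_inv_sub_one_le (D_inv_mul (hk i) x) (min_le_right _ _) (hi x)
      linarith [min_le_left (η / 2) (1 / 2)])
  let g : Equiv.Perm T :=
    { toFun := glue (fun i => k i) S
      invFun := glue (fun i => ((k i)⁻¹ : Equiv.Perm T)) S
      left_inv := fun x => by
        by_cases h : ∃ i, x ∈ S i
        · obtain ⟨i, hi⟩ := h
          rw [glue_of_mem hdisj hi, glue_of_mem hdisj (perm_mapsTo_of_supp (hsupp i) hi)]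
          simp
        · push Not at h
          rw [glue_of_notMem h, glue_of_notMem h]
      right_inv := fun x => by
        by_cases h : ∃ i, x ∈ S i
        · obtain ⟨i, hi⟩ := h
          rw [glue_of_mem hdisj hi,
            glue_of_mem hdisj (perm_mapsTo_of_supp (perm_inv_supp (hsupp i)) hi)]
          simp
        · push Not at h
          rw [glue_of_notMem h, glue_of_notMem h] }
  exact ⟨g, ⟨H1.1, H2.1⟩, fun i x hx => ⟨glue_of_mem (k := fun i => k i) hdisj hx, H1.2.1 i x hx⟩,
    fun x hx => ⟨glue_of_notMem (k := fun i => k i) hx, H1.2.2 x hx⟩⟩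

end Pool.Agent.Lib.MP_fe72db_an
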