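import Pool.Agent.Lib.MP_fe72db_an.Glue
import Pool.Agent.Lib.MP_fe72db_an.Gamma

/-! A compactly supported `C^1` flow `ξ` together with a one parameter group `κ` that rescales
its time. -/

open Filter Topology Set Metric Real

namespace Pool.Agent.Lib.MP_fe72db_an

/-- Two families of diffeomorphisms supported in `S`; conjugation by `κ s` rescales the time of
`ξ` by `exp (-s)`. -/
structure Model (S : Set T) where
  κ : ℝ → Equiv.Perm T
  ξ : ℝ → Equiv.Perm T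
  κ_mem : ∀ s, κ s ∈ Diff1
  ξ_mem : ∀ t, ξ t ∈ Diff1
  κ_supp : ∀ s x, x ∉ S → κ s x = x
  ξ_supp : ∀ t x, x ∉ S → ξ t x = x
  κ_zero : κ 0 = 1
  κ_add : ∀ s s', κ (s + s') = κ s * κ s'
  conj : ∀ s t, κ s * ξ t * (κ s)⁻¹ = ξ (exp (-s) * t)
  κ_near : ∀ ε > 0, ∃ δ > 0, ∀ s, |s| < δ → Near (κ s) 1 ε
  ξ_near : ∀ ε > 0, ∃ δ > 0, ∀ t, |t| < δ → Near (ξ t) 1 ε
  ξ_ne : ∀ t, t ≠ 0 → ξ t ≠ 1

/-- Fibrewise affine action on horizontal lines. -/
noncomputable def fib (δ : ℝ) (a c : ℝ → ℝ) (z : E) : E :=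
  (δ * Gam (a z.2) (c z.2) (z.1 / δ), z.2)

lemma fib_fib {δ : ℝ} (hδ : δ ≠ 0) (a c a' c' : ℝ → ℝ) (z : E) :
    fib δ a c (fib δ a' c' z) =
      fib δ (fun y => a y + a' y) (fun y => exp (a y) * c' y + c y) z := by
  simp only [fib]
  rw [mul_div_cancel_left₀ _ hδ, Gam_Gam]

lemma fib_eq_self {δ : ℝ} (hδ : δ ≠ 0) {a c : ℝ → ℝ} {z : E} (ha : a z.2 = 0) (hc : c z.2 = 0) :
    fib δ a c z = z := by
  simp only [fib, ha, hc, Gam_zero]
  rw [mul_div_cancel₀ _ hδ]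

/-- The fibrewise action as a permutation. -/
noncomputable def fibPerm {δ : ℝ} (hδ : δ ≠ 0) (a c : ℝ → ℝ) : Equiv.Perm E where
  toFun := fib δ a c
  invFun := fib δ (fun y => -a y) (fun y => -(exp (-a y) * c y))
  left_inv z := by
    rw [fib_fib hδ]
    exact fib_eq_self hδ (by simp) (by simp)
  right_inv z := by
    rw [fib_fib hδ]
    refine fib_eq_self hδ (by simp) ?_
    rw [mul_neg, ← mul_assoc, ← exp_add]; simp

lemma coe_fibPerm {δ : ℝ} (hδ : δ ≠ 0) (a c : ℝ → ℝ) : ⇑(fibPerm hδ a c) = fib δ a c := rfl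

lemma coe_fibPerm_inv {δ : ℝ} (hδ : δ ≠ 0) (a c : ℝ → ℝ) :
    ⇑((fibPerm hδ a c)⁻¹ : Equiv.Perm E) =
      fib δ (fun y => -a y) (fun y => -(exp (-a y) * c y)) := rfl

lemma contDiff_fib_param (δ : ℝ) {a c : ℝ → ℝ → ℝ} (ha : ContDiff ℝ 1 fun p : ℝ × ℝ => a p.1 p.2)
    (hc : ContDiff ℝ 1 fun p : ℝ × ℝ => c p.1 p.2) :
    ContDiff ℝ 1 fun p : ℝ × E => fib δ (a p.1) (c p.1) p.2 := by
  have h0 : ContDiff ℝ 1 fun p : ℝ × E => (p.1, p.2.2) := by fun_prop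
  have h1 : ContDiff ℝ 1 fun p : ℝ × E => (a p.1 p.2.2, c p.1 p.2.2, p.2.1 / δ) :=
    (ha.comp h0).prodMk ((hc.comp h0).prodMk (by fun_prop))
  have h2 : ContDiff ℝ 1 fun p : ℝ × E => Gam (a p.1 p.2.2) (c p.1 p.2.2) (p.2.1 / δ) :=
    ContDiff.comp (g := fun p : ℝ × ℝ × ℝ => Gam p.1 p.2.1 p.2.2) contDiff_Gam h1
  exact (contDiff_const.mul h2).prodMk (by fun_prop)

lemma contDiff_fib (δ : ℝ) {a c : ℝ → ℝ} (ha : ContDiff ℝ 1 a) (hc : ContDiff ℝ 1 c) :
    ContDiff ℝ 1 (fib δ a c) := by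
  have h := contDiff_fib_param δ (a := fun _ => a) (c := fun _ => c) (ha.comp contDiff_snd)
    (hc.comp contDiff_snd)
  have h0 : ContDiff ℝ 1 fun z : E => ((0 : ℝ), z) := by fun_prop
  exact ContDiff.comp (g := fun p : ℝ × E => fib δ a c p.2) h h0

lemma fib_supp {δ : ℝ} (hδ : 0 < δ) {a c : ℝ → ℝ} (ha : ∀ y, 2 * δ ≤ |y| → a y = 0)
    (hc : ∀ y, 2 * δ ≤ |y| → c y = 0) {v : E} (hv : 2 * δ ≤ ‖v‖) : fib δ a c v = v := by
  rw [Prod.norm_def, le_max_iff, Real.norm_eq_abs, Real.norm_eq_abs] at hv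
  rcases hv with h | h
  · have : π / 2 ≤ |v.1 / δ| := by
      rw [abs_div, abs_of_pos hδ, le_div_iff₀ hδ]
      nlinarith [pi_lt_four]
    simp only [fib, Gam_of_le this]
    rw [mul_div_cancel₀ _ hδ.ne']
  · exact fib_eq_self hδ.ne' (ha _ h) (hc _ h)

lemma near_of_family (p : T) {Φ : ℝ → Equiv.Perm E} (hs : ∀ s, Supp (Φ s))
    (hΦ : ContDiff ℝ 1 fun q : ℝ × E => Φ q.1 q.2) (h0 : ∀ z, Φ 0 z = z) {ε : ℝ} (hε : 0 < ε) :
    ∃ δ > 0, ∀ s, |s| < δ → Near (tpPerm p (Φ s) (hs s)) 1 ε := by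
  have hc1 : Continuous fun q : ℝ × E => ‖Φ q.1 q.2 - q.2‖ :=
    (hΦ.continuous.sub continuous_snd).norm
  have hc2 : Continuous fun q : ℝ × E => ‖fderiv ℝ (Φ q.1) q.2 - 1‖ := by
    have h1 : ContDiff ℝ 1 (Function.uncurry fun (q : ℝ × E) (w : E) => Φ q.1 w) := by
      have : ContDiff ℝ 1 fun r : (ℝ × E) × E => (r.1.1, r.2) := by fun_prop
      exact ContDiff.comp (g := fun q : ℝ × E => Φ q.1 q.2) hΦ this
    exact ((Continuous.fderiv_one h1 continuous_snd).sub continuous_const).norm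
  have hd0 : ∀ z, fderiv ℝ (Φ 0) z = 1 := fun z => by
    have : (Φ 0 : E → E) = id := funext h0
    rw [this, fderiv_id]; rfl
  have key : ∀ᶠ s in 𝓝 (0 : ℝ), ∀ z ∈ closedBall (0 : E) 1,
      ‖Φ s z - z‖ < ε ∧ ‖fderiv ℝ (Φ s) z - 1‖ < ε := by
    apply (isCompact_closedBall (0 : E) 1).eventually_forall_of_forall_eventually
    intro z _
    exact ((hc1.tendsto (0, z)).eventually_lt_const (by simpa [h0] using hε)).and
      ((hc2.tendsto (0, z)).eventually_lt_const (by simpa [hd0] using hε))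
  obtain ⟨δ, hδ, H⟩ := Metric.eventually_nhds_iff.1 key
  refine ⟨δ, hδ, fun s hsδ x => ?_⟩
  have hmem : lift (x - p) ∈ closedBall (0 : E) 1 := by
    rw [mem_closedBall_zero_iff]; linarith [norm_lift_le (x - p)]
  have H' := H (y := s) (by simpa [Real.dist_eq] using hsδ) _ hmem
  have hsC : ContDiff ℝ 1 (Φ s) :=
    ContDiff.comp (g := fun q : ℝ × E => Φ q.1 q.2) (f := fun z : E => (s, z)) hΦ (by fun_prop)
  constructor
  · have : tpPerm p (Φ s) (hs s) x = x + proj (Φ s (lift (x - p)) - lift (x - p)) := by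
      rw [tpPerm_apply, tp, proj_sub, proj_lift]; abel
    rw [this]
    exact (dist_add_proj_le _ _).trans_lt H'.1
  · have : D (tpPerm p (Φ s) (hs s)) x = fderiv ℝ (Φ s) (lift (x - p)) := D_tp p hsC (hs s) x
    rw [this, D_one]
    exact H'.2

lemma tpPerm_mul (p : T) {Φ Ψ Θ : Equiv.Perm E} (h1 : Supp Φ) (h2 : Supp Ψ) (h3 : Supp Θ)
    (h : ∀ z, Φ (Ψ z) = Θ z) : tpPerm p Φ h1 * tpPerm p Ψ h2 = tpPerm p Θ h3 := by
  ext1 x
  rw [Equiv.Perm.mul_apply, tpPerm_apply, tpPerm_apply, tp_tp p _ h2, tpPerm_apply]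
  simp [tp, h]

lemma tp_fib_mem (p : T) {δ : ℝ} (hδ : δ ≠ 0) {a c : ℝ → ℝ} (ha : ContDiff ℝ 1 a)
    (hc : ContDiff ℝ 1 c) (h : Supp (fibPerm hδ a c)) : tpPerm p (fibPerm hδ a c) h ∈ Diff1 := by
  apply tpPerm_mem
  · rw [coe_fibPerm]; exact contDiff_fib δ ha hc
  · rw [coe_fibPerm_inv]
    exact contDiff_fib δ ha.neg (ha.neg.exp.mul hc).neg

lemma exists_model_aux (p : T) {δ : ℝ} (hδ : 0 < δ) (hδ' : δ < 1 / 4) (χ η : ℝ → ℝ)
    (hχ0 : ∀ y, δ ≤ |y| → χ y = 0) (hη0 : ∀ y, 2 * δ ≤ |y| → η y = 0)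
    (hη1 : ∀ y, |y| ≤ δ → η y = 1) (hχ1 : χ 0 = 1) (hχc : ContDiff ℝ 1 χ)
    (hηc : ContDiff ℝ 1 η) : Nonempty (Model (closedBall p (2 * δ))) := by
  obtain ⟨K, hKdef⟩ : ∃ K : ℝ → Equiv.Perm E,
    ∀ s, K s = fibPerm hδ.ne' (fun y => -s * η y) (fun _ => 0) := ⟨_, fun _ => rfl⟩
  obtain ⟨X, hXdef⟩ : ∃ X : ℝ → Equiv.Perm E,
    ∀ t, X t = fibPerm hδ.ne' (fun _ => 0) (fun y => t * χ y) := ⟨_, fun _ => rfl⟩
  have cK : ∀ s z, K s z = fib δ (fun y => -s * η y) (fun _ => 0) z := fun s z => by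
    rw [hKdef, coe_fibPerm]
  have cX : ∀ t z, X t z = fib δ (fun _ => 0) (fun y => t * χ y) z := fun s z => by
    rw [hXdef, coe_fibPerm]
  have hK : ∀ s v, 2 * δ ≤ ‖v‖ → K s v = v := fun s v hv => by
    rw [cK]
    exact fib_supp hδ (fun y hy => by simp [hη0 y hy]) (fun _ _ => rfl) hv
  have hX : ∀ s v, 2 * δ ≤ ‖v‖ → X s v = v := fun s v hv => by
    rw [cX]
    exact fib_supp hδ (fun _ _ => rfl) (fun y hy => by simp [hχ0 y (by linarith)]) hv
  have sK : ∀ s, Supp (K s) := fun s => ⟨2 * δ, by linarith, hK s⟩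
  have sX : ∀ s, Supp (X s) := fun s => ⟨2 * δ, by linarith, hX s⟩
  have hsupp : ∀ (Φ : Equiv.Perm E) (h : Supp Φ), (∀ v, 2 * δ ≤ ‖v‖ → Φ v = v) →
      ∀ x, x ∉ closedBall p (2 * δ) → tpPerm p Φ h x = x := by
    intro Φ h h' x hx
    apply tp_eq_self
    apply h'
    rw [norm_lift_sub]
    exact (not_le.1 hx).le
  have hadd : ∀ s s', tpPerm p (K (s + s')) (sK _) =
      tpPerm p (K s) (sK _) * tpPerm p (K s') (sK _) := by
    intro s s'
    symm
    apply tpPerm_mul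
    intro z
    rw [cK, cK, cK, fib_fib hδ.ne']
    congr 1
    · funext y; ring
    · funext y; simp
  have hK0 : ∀ z, K 0 z = z := fun z => by rw [cK]; exact fib_eq_self hδ.ne' (by simp) rfl
  have hX0 : ∀ z, X 0 z = z := fun z => by rw [cX]; exact fib_eq_self hδ.ne' rfl (by simp)
  have hzero : tpPerm p (K 0) (sK _) = 1 := by
    ext1 x
    exact tp_eq_self p (hK0 _)
  have m1 : ∀ s, tpPerm p (K s) (sK s) ∈ Diff1 := fun s => by
    have h := sK s
    have : tpPerm p (K s) h ∈ Diff1 := by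
      revert h
      rw [hKdef]
      exact tp_fib_mem p _ (contDiff_const.mul hηc) contDiff_const
    exact this
  have m2 : ∀ s, tpPerm p (X s) (sX s) ∈ Diff1 := fun s => by
    have h := sX s
    have : tpPerm p (X s) h ∈ Diff1 := by
      revert h
      rw [hXdef]
      exact tp_fib_mem p _ contDiff_const (contDiff_const.mul hχc)
    exact this
  have m3 : ∀ s t, tpPerm p (K s) (sK s) * tpPerm p (X t) (sX t) * (tpPerm p (K s) (sK s))⁻¹ =
      tpPerm p (X (exp (-s) * t)) (sX _) := by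
    intro s t
    rw [mul_inv_eq_iff_eq_mul]
    have sKX : Supp (K s * X t : Equiv.Perm E) :=
      ⟨2 * δ, by linarith, fun v hv => by rw [Equiv.Perm.mul_apply, hX t v hv, hK s v hv]⟩
    rw [tpPerm_mul p (sK s) (sX t) sKX (fun _ => rfl)]
    symm
    apply tpPerm_mul
    intro z
    rw [Equiv.Perm.mul_apply, cX, cK, cK, cX, fib_fib hδ.ne', fib_fib hδ.ne']
    congr 1
    · funext y; ring
    · funext y
      rcases le_total |y| δ with hy | hy
      · simp [hη1 y hy, mul_assoc]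
      · simp [hχ0 y hy]
  have m4 : ContDiff ℝ 1 fun q : ℝ × E => K q.1 q.2 := by
    simp only [cK]
    exact contDiff_fib_param δ (a := fun s y => -s * η y) (c := fun _ _ => 0)
      (contDiff_fst.neg.mul (hηc.comp contDiff_snd)) contDiff_const
  have m5 : ContDiff ℝ 1 fun q : ℝ × E => X q.1 q.2 := by
    simp only [cX]
    exact contDiff_fib_param δ (a := fun _ _ => 0) (c := fun t y => t * χ y)
      contDiff_const (contDiff_fst.mul (hχc.comp contDiff_snd))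
  have m6 : ∀ t, t ≠ 0 → tpPerm p (X t) (sX t) ≠ 1 := by
    intro t ht h
    have h1 : tpPerm p (X t) (sX t) (p + proj 0) = p + proj 0 := by rw [h]; rfl
    rw [tpPerm_apply, tp_apply p _ (by simp), add_right_inj] at h1
    have h2 : X t 0 = (δ * arctan (arsinh t), 0) := by
      rw [cX]
      simp [fib, hχ1, Gam_at_zero]
    have h3 : ‖X t 0 - 0‖ ≤ 1 / 2 := by
      rw [h2, sub_zero, Prod.norm_def]
      apply max_le _ (by simp)
      rw [Real.norm_eq_abs, abs_mul, abs_of_pos hδ]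
      have : |arctan (arsinh t)| < π / 2 :=
        abs_lt.2 ⟨neg_pi_div_two_lt_arctan _, arctan_lt_pi_div_two _⟩
      nlinarith [pi_lt_four, abs_nonneg (arctan (arsinh t))]
    have h4 := proj_injOn h1 h3
    rw [h2] at h4
    have h5 : δ * arctan (arsinh t) = 0 := congrArg Prod.fst h4
    simp [hδ.ne', ht] at h5
  exact ⟨⟨fun s => tpPerm p (K s) (sK s), fun t => tpPerm p (X t) (sX t), m1, m2,
    fun s => hsupp _ _ (hK s), fun t => hsupp _ _ (hX t), hzero, hadd, m3,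
    fun ε hε => near_of_family p sK m4 hK0 hε, fun ε hε => near_of_family p sX m5 hX0 hε, m6⟩⟩

lemma exists_model_ball (p : T) {δ : ℝ} (hδ : 0 < δ) (hδ' : δ < 1 / 4) :
    Nonempty (Model (closedBall p (2 * δ))) := by
  let χ : ContDiffBump (0 : ℝ) := ⟨δ / 2, δ, by positivity, by linarith⟩
  let η : ContDiffBump (0 : ℝ) := ⟨δ, 2 * δ, hδ, by linarith⟩
  exact exists_model_aux p hδ hδ' χ η
    (fun y hy => χ.zero_of_le_dist (by simpa using hy))
    (fun y hy => η.zero_of_le_dist (by simpa using hy))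
    (fun y hy => η.one_of_mem_closedBall (by simpa using hy))
    (χ.one_of_mem_closedBall (mem_closedBall_self χ.rIn_pos.le)) χ.contDiff η.contDiff

lemma exists_model {p : T} {V : Set T} (hV : V ∈ 𝓝 p) :
    ∃ S ⊆ V, IsCompact S ∧ p ∈ S ∧ Nonempty (Model S) := by
  obtain ⟨r, hr, h⟩ := Metric.mem_nhds_iff.1 hV
  have h1 : 0 < min (r / 3) (1 / 5) := by positivity
  refine ⟨closedBall p (2 * min (r / 3) (1 / 5)), (closedBall_subset_ball ?_).trans h,
    isCompact_closedBall _ _, mem_closedBall_self (by positivity),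
    exists_model_ball p h1 ((min_le_right _ _).trans_lt (by norm_num))⟩
  linarith [min_le_left (r / 3) (1 / 5)]

end Pool.Agent.Lib.MP_fe72db_an
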