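import Pool.Agent.Lib.MP_fe72db_an.Sink
import Pool.Agent.Lib.MP_fe72db_an.Model

/-! The perturbation along the forward orbit of a wandering disc attracted by a linear conformal
sink, and the construction of a commuting diffeomorphism. -/

open Filter Topology Set Metric

namespace Pool.Agent.Lib.MP_fe72db_an

section lin

variable {f : Equiv.Perm T} {p : T} {P : E ≃L[ℝ] ℂ} {A : E →L[ℝ] E} {ρ a : ℝ}

lemma conf_pow (hconf : ∀ v, ‖P (A v)‖ = a * ‖P v‖) (j : ℕ) (v : E) :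
    ‖P ((A ^ j) v)‖ = a ^ j * ‖P v‖ := by
  induction j with
  | zero => simp
  | succ j ih => rw [pow_succ', mul_apply_eq_comp, hconf, ih, pow_succ']; ring

lemma Lin.mono (h : Lin f p P A ρ) {ρ' : ℝ} (h' : ρ' ≤ ρ) : Lin f p P A ρ' :=
  fun v hv => h v (hv.trans_le h')

lemma Lin.contr (h : Lin f p P A ρ) (hconf : ∀ v, ‖P (A v)‖ = a * ‖P v‖) : Contr f p P ρ a :=
  fun v hv => ⟨A v, h v hv, (hconf v).le⟩

lemma Lin.pow (h : Lin f p P A ρ) (hconf : ∀ v, ‖P (A v)‖ = a * ‖P v‖) (ha0 : 0 ≤ a)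
    (ha : a ≤ 1) (j : ℕ) : Lin (f ^ j) p P (A ^ j) ρ := by
  intro v hv
  induction j with
  | zero => simp
  | succ j ih =>
    rw [pow_succ', Equiv.Perm.mul_apply, ih, pow_succ', mul_apply_eq_comp]
    apply h
    rw [conf_pow hconf]
    exact (mul_le_of_le_one_left (norm_nonneg _) (pow_le_one₀ ha0 ha)).trans_lt hv

lemma Lin.D_eq (h : Lin f p P A ρ) {y : T} (hy : y ∈ zone p P ρ) : D f y = A := by
  obtain ⟨v, hv, rfl⟩ := hy
  refine D_eq_of_local (G := A) A.hasFDerivAt (by simp) ?_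
  have hc : Continuous fun u : E => ‖P (v + u)‖ := by fun_prop
  filter_upwards [(hc.tendsto 0).eventually_lt_const (by simpa using hv)] with u hu
  rw [add_assoc, ← proj_add, h _ hu, h _ hv, map_add, proj_add, add_assoc]

lemma conj_deriv_bound (hf : f ∈ Diff1) (h : Lin f p P A ρ) (hconf : ∀ v, ‖P (A v)‖ = a * ‖P v‖)
    (ha0 : 0 < a) (ha : a ≤ 1) {S : Set T} (hS : IsClosed S) (hSz : S ⊆ zone p P ρ)
    {k : Equiv.Perm T} (hk : k ∈ Diff1) (hsupp : ∀ x, x ∉ S → k x = x) {η : ℝ}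
    (hη : ∀ x, ‖D k x - 1‖ ≤ η) (j : ℕ) (x : T) :
    ‖D (f ^ j * k * (f ^ j)⁻¹ : Equiv.Perm T) x - 1‖ ≤ cst P * cst P * η := by
  have hfj := pow_mem_Diff1 hf j
  have hη0 : 0 ≤ η := (norm_nonneg _).trans (hη x)
  have hC := cst_nonneg P
  rw [D_mul (mul_mem_Diff1 hfj hk) (inv_mem_Diff1 hfj), D_mul hfj hk]
  have e := D_mul_inv hfj x
  set y := (f ^ j)⁻¹ x
  set B := D ((f ^ j)⁻¹ : Equiv.Perm T) x
  by_cases hy : y ∈ S
  · have hl := h.pow hconf ha0.le ha j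
    rw [hl.D_eq (hSz hy)] at e
    rw [hl.D_eq (hSz (perm_mapsTo_of_supp hsupp hy))]
    have e2 : A ^ j * D k y * B - 1 = A ^ j * (D k y - 1) * B := by
      rw [mul_sub, sub_mul, mul_one, e]
    rw [e2]
    apply ContinuousLinearMap.opNorm_le_bound _ (by positivity)
    intro u
    have a1 : a ^ j * ‖P (B u)‖ = ‖P u‖ := by
      rw [← conf_pow hconf, ← mul_apply_eq_comp, e]; rfl
    have a2 : ‖(D k y - 1) (B u)‖ ≤ η * (inm P * ‖P (B u)‖) :=
      ((D k y - 1).le_opNorm _).trans (mul_le_mul (hη y) (norm_le_inm P _) (norm_nonneg _) hη0)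
    have a3 := norm_P_le P u
    have a4 := norm_P_le P ((D k y - 1) (B u))
    have hi := inm_nonneg P
    have hp : 0 ≤ ‖(P : E →L[ℝ] ℂ)‖ := norm_nonneg _
    have haj : 0 ≤ a ^ j := by positivity
    calc ‖(A ^ j * (D k y - 1) * B) u‖ = ‖(A ^ j) ((D k y - 1) (B u))‖ := rfl
      _ ≤ inm P * (a ^ j * ‖P ((D k y - 1) (B u))‖) := by
          rw [← conf_pow hconf]; exact norm_le_inm P _
      _ ≤ inm P * (a ^ j * (‖(P : E →L[ℝ] ℂ)‖ * (η * (inm P * ‖P (B u)‖)))) := by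
          gcongr; exact a4.trans (by gcongr)
      _ = inm P * ‖(P : E →L[ℝ] ℂ)‖ * η * inm P * (a ^ j * ‖P (B u)‖) := by ring
      _ ≤ inm P * ‖(P : E →L[ℝ] ℂ)‖ * η * inm P * (‖(P : E →L[ℝ] ℂ)‖ * ‖u‖) := by
          rw [a1]; gcongr
      _ = _ := by unfold cst inm; ring
  · rw [hsupp y hy, D_eq_one_of_notMem hS hsupp hy, mul_one, e, sub_self, norm_zero]
    positivity

end lin

lemma conj_supp {F k : Equiv.Perm T} {S : Set T} (h : ∀ x, x ∉ S → k x = x) (x : T)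
    (hx : x ∉ F '' S) : (F * k * F⁻¹) x = x := by
  have : F⁻¹ x ∉ S := fun hc => hx ⟨_, hc, by simp⟩
  rw [Equiv.Perm.mul_apply, Equiv.Perm.mul_apply, h _ this]; simp

lemma conj_congr {F F' k : Equiv.Perm T} {S : Set T} (h : ∀ x, x ∉ S → k x = x)
    (hF : ∀ x ∈ S, F' x = F x) : F' * k * F'⁻¹ = F * k * F⁻¹ := by
  ext1 x
  by_cases hx : x ∈ F' '' S
  · obtain ⟨y, hy, rfl⟩ := hx
    have e : F⁻¹ (F' y) = y := by rw [hF y hy]; simp
    simp only [Equiv.Perm.mul_apply, e]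
    rw [← hF _ (perm_mapsTo_of_supp h hy)]; simp
  · rw [conj_supp h x hx, conj_supp h x (by rwa [← image_congr hF])]

lemma half {f : Equiv.Perm T} (hf : f ∈ O) {p : T} {P : E ≃L[ℝ] ℂ} {A : E →L[ℝ] E} {ρ a : ℝ}
    (hlin : Lin f p P A ρ) (hconf : ∀ v, ‖P (A v)‖ = a * ‖P v‖) (ha0 : 0 < a) (ha : a < 1)
    (hsm : ρ * inm P < 1 / 4) {S : Set T} (hS : IsCompact S) (M : Model S) (m : ℕ) {ρ' : ℝ}
    (hρ'0 : 0 < ρ') (hρ' : ρ' < ρ)
    (hann : ∀ x ∈ S, ∃ v, a * ρ' < ‖P v‖ ∧ ‖P v‖ < ρ' ∧ (f ^ m) x = p + proj v)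
    {ε : ℝ} (hε : 0 < ε) :
    ∃ f' ∈ O, Near f' f ε ∧ (∀ x, x ∉ czone p P ρ' → f' x = f x) ∧
      MapsTo f' (czone p P ρ') (czone p P ρ') ∧ (∀ i : ℕ, 1 ≤ i → ∀ x ∈ S, (f' ^ i) x ∉ S) ∧
      (∀ᶠ n : ℕ in atTop, ∀ x ∈ S, (f' ^ n) x ∈ czone p P ρ') ∧
      ∀ t, ∀ η > 0, ∀ᶠ n : ℕ in atTop, ∀ x,
        ‖D (f' ^ n * M.ξ t * (f' ^ n)⁻¹ : Equiv.Perm T) x - 1‖ ≤ η := by
  have hD := hf.1
  have hC := cst_nonneg P
  have hi := inm_nonneg P
  let Sj : ℕ → Set T := fun j => (f ^ (j + m) : Equiv.Perm T) '' S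
  have hSj : ∀ j, ∀ y ∈ Sj j, ∃ w, a ^ (j + 1) * ρ' < ‖P w‖ ∧ ‖P w‖ < a ^ j * ρ' ∧
      y = p + proj w := by
    rintro j _ ⟨x, hx, rfl⟩
    obtain ⟨v, h1, h2, h3⟩ := hann x hx
    have haj : 0 < a ^ j := by positivity
    refine ⟨(A ^ j) v, ?_, ?_, ?_⟩
    · rw [conf_pow hconf, pow_succ, mul_assoc]; gcongr
    · rw [conf_pow hconf]; gcongr
    · rw [pow_add, Equiv.Perm.mul_apply, h3, hlin.pow hconf ha0.le ha.le j v (h2.trans hρ')]
  have hle : ∀ j, a ^ j * ρ' ≤ ρ' := fun j =>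
    mul_le_of_le_one_left hρ'0.le (pow_le_one₀ ha0.le ha.le)
  have hSK : ∀ j, Sj j ⊆ czone p P ρ' := fun j y hy => by
    obtain ⟨w, -, h2, h3⟩ := hSj j y hy
    exact ⟨w, h2.le.trans (hle j), h3⟩
  have hinj : ∀ v w, ‖P v‖ ≤ ρ' → ‖P w‖ ≤ ρ' → p + proj v = p + proj w → v = w := by
    intro v w hv hw e
    apply proj_injOn (add_left_cancel e)
    have a1 := norm_le_of_P (hv.trans hρ'.le)
    have a2 := norm_le_of_P (hw.trans hρ'.le)
    linarith [norm_sub_le v w]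
  have hdisj' : ∀ i j, i < j → Disjoint (Sj i) (Sj j) := by
    intro i j hij
    rw [Set.disjoint_left]
    intro y hy hy'
    obtain ⟨v, h1, h2, h3⟩ := hSj i y hy
    obtain ⟨w, -, h5, h6⟩ := hSj j y hy'
    have := hinj v w (h2.le.trans (hle i)) (h5.le.trans (hle j)) (h3.symm.trans h6)
    subst this
    have : a ^ j * ρ' ≤ a ^ (i + 1) * ρ' := by
      gcongr ?_ * _
      exact pow_le_pow_of_le_one ha0.le ha.le hij
    linarith
  have hdisj : ∀ i j, i ≠ j → Disjoint (Sj i) (Sj j) := fun i j hij => by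
    rcases lt_or_gt_of_ne hij with h | h
    · exact hdisj' i j h
    · exact (hdisj' j i h).symm
  have hpS : ∀ j, p ∉ Sj j := by
    intro j hj
    obtain ⟨w, h1, h2, h3⟩ := hSj j p hj
    have := hinj 0 w (by simpa using hρ'0.le) (h2.le.trans (hle j)) (by simpa using h3)
    subst this
    have : 0 < a ^ (j + 1) * ρ' := by positivity
    simp at h1; linarith
  have hcl : ∀ j, IsClosed (Sj j) := fun j =>
    (hS.image (continuous_of_Diff1 (pow_mem_Diff1 hD _))).isClosed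
  have hwand : ∀ i : ℕ, 1 ≤ i → ∀ x ∈ S, (f ^ i) x ∉ S := by
    intro i hi x hx hx'
    refine Set.disjoint_left.1 (hdisj' 0 i hi) ⟨_, hx', rfl⟩ ⟨x, hx, ?_⟩
    rw [zero_add, add_comm i m, pow_add]; rfl
  have hsmall : ∀ η > 0, ∃ δ > 0, ∀ k ∈ Diff1, (∀ x, x ∉ S → k x = x) → Near k 1 δ →
      ∀ j x, ‖D (f ^ (j + m) * k * (f ^ (j + m))⁻¹ : Equiv.Perm T) x - 1‖ ≤ η := by
    intro η hη
    have hη' : 0 < η / (cst P * cst P + 1) := by positivity
    obtain ⟨δ, hδ, H⟩ := near_conj (pow_mem_Diff1 hD m) hη'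
    refine ⟨δ, hδ, fun k hk hs hn j x => ?_⟩
    have e : f ^ (j + m) * k * (f ^ (j + m))⁻¹ = f ^ j * (f ^ m * k * (f ^ m)⁻¹) * (f ^ j)⁻¹ := by
      rw [pow_add]; group
    rw [e]
    have hz : (f ^ m : Equiv.Perm T) '' S ⊆ zone p P ρ := by
      have := (hSK 0).trans (czone_subset_zone p P hρ')
      simpa [Sj] using this
    refine (conj_deriv_bound hD hlin hconf ha0 ha.le
      (hS.image (continuous_of_Diff1 (pow_mem_Diff1 hD m))).isClosed hz
      (mul_mem_Diff1 (mul_mem_Diff1 (pow_mem_Diff1 hD m) hk) (inv_mem_Diff1 (pow_mem_Diff1 hD m)))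
      (conj_supp hs) (fun y => by simpa only [D_one] using (H k hk hn y).2.le) j x).trans ?_
    rw [mul_div_assoc', div_le_iff₀ (by positivity)]
    nlinarith
  obtain ⟨η₁, hη₁, H1⟩ := perturb_sink hf (hlin.contr hconf) ha0.le ha hρ'0 hρ' hsm
  obtain ⟨δ₃, hδ₃, H2⟩ := near_mul_right hD hε
  have hη₀ : 0 < min η₁ (δ₃ / 2) := by positivity
  obtain ⟨δ₁, hδ₁, H3⟩ := hsmall _ hη₀
  obtain ⟨δ₂, hδ₂, H4⟩ := M.κ_near δ₁ hδ₁
  let d : ℕ → ℝ := fun j => δ₂ / 2 * (1 / ((j : ℝ) + 1))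
  have hd1 : ∀ j, |d j| < δ₂ := fun j => by
    have h1 : 0 < 1 / ((j : ℝ) + 1) := by positivity
    have h2 : 1 / ((j : ℝ) + 1) ≤ 1 := by
      rw [div_le_one (by positivity)]; linarith [Nat.cast_nonneg (α := ℝ) j]
    rw [abs_of_pos (by positivity)]
    simp only [d]; nlinarith
  have hd2 : Tendsto d atTop (𝓝 0) := by
    simpa only [mul_zero] using tendsto_one_div_add_atTop_nhds_zero_nat.const_mul (δ₂ / 2)
  let s : ℕ → ℝ := fun j => ∑ i ∈ Finset.range j, d i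
  have hs : Tendsto s atTop atTop := by
    simp only [s, d, ← Finset.mul_sum]
    exact Real.tendsto_sum_range_one_div_nat_succ_atTop.const_mul_atTop (half_pos hδ₂)
  let k : ℕ → Equiv.Perm T := fun j => f ^ (j + m) * M.κ (d j) * (f ^ (j + m))⁻¹
  have hk : ∀ j, k j ∈ Diff1 := fun j =>
    mul_mem_Diff1 (mul_mem_Diff1 (pow_mem_Diff1 hD _) (M.κ_mem _))
      (inv_mem_Diff1 (pow_mem_Diff1 hD _))
  have hks : ∀ j x, x ∉ Sj j → k j x = x := fun j => conj_supp (M.κ_supp _)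
  obtain ⟨h, hh, hh1, hh2⟩ := exists_glue hk hcl hks hdisj
    (fun j x => by
      by_cases hx : x ∈ Sj j
      · have a1 := dist_le_of_mem_czone (hSK j hx)
        have a2 := dist_le_of_mem_czone (hSK j (perm_mapsTo_of_supp (hks j) hx))
        have a3 := dist_triangle_right (k j x) x p
        nlinarith
      · simp [hks j x hx])
    (fun η hη => by
      obtain ⟨δ, hδ, G1⟩ := hsmall η hη
      obtain ⟨δ', hδ', G2⟩ := M.κ_near δ hδ
      rw [Nat.cofinite_eq_atTop]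
      filter_upwards [hd2.abs.eventually_lt_const (by simpa using hδ')] with j hj
      exact G1 _ (M.κ_mem _) (M.κ_supp _) (G2 _ hj) j)
  have hhD : ∀ x, ‖D h x - 1‖ ≤ min η₁ (δ₃ / 2) := by
    intro x
    by_cases hx : ∃ j, x ∈ Sj j
    · obtain ⟨j, hj⟩ := hx
      rw [(hh1 j x hj).2]
      exact H3 _ (M.κ_mem _) (M.κ_supp _) (H4 _ (hd1 j)) j x
    · push Not at hx
      rw [(hh2 x hx).2, sub_self, norm_zero]; exact hη₀.le
  have hhK : ∀ x, x ∉ czone p P ρ' → h x = x := fun x hx =>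
    (hh2 x fun j hj => hx (hSK j hj)).1
  obtain ⟨m1, -, m3⟩ := H1 h hh hhK (hh2 p hpS).1 (hh2 p hpS).2
    fun x => (hhD x).trans (min_le_left _ _)
  have hit1 : ∀ i ≤ m, ∀ x ∈ S, ((f * h) ^ i) x = (f ^ i) x := by
    intro i hi x hx
    induction i with
    | zero => rfl
    | succ i ih =>
      rw [pow_succ', pow_succ', Equiv.Perm.mul_apply, Equiv.Perm.mul_apply, Equiv.Perm.mul_apply,
        ih (by omega), (hh2 _ _).1]
      rintro j ⟨y, hy, e⟩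
      have e1 : j + m = i + (j + m - i) := by omega
      rw [e1, pow_add, Equiv.Perm.mul_apply] at e
      exact hwand (j + m - i) (by omega) y hy (((f ^ i).injective e).symm ▸ hx)
  have hit2 : ∀ j, ∀ x ∈ S, ((f * h) ^ (j + m)) x = (f ^ (j + m) * M.κ (s j)) x := by
    intro j x hx
    induction j with
    | zero => simp [s, M.κ_zero, hit1 m le_rfl x hx]
    | succ j ih =>
      have e1 : j + 1 + m = (j + m) + 1 := by ring
      have e2 : s (j + 1) = d j + s j := by simp only [s]; rw [Finset.sum_range_succ, add_comm]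
      have e3 : (f ^ (j + m) * M.κ (s j)) x ∈ Sj j :=
        ⟨_, perm_mapsTo_of_supp (M.κ_supp _) hx, rfl⟩
      rw [e1, pow_succ', Equiv.Perm.mul_apply, ih, Equiv.Perm.mul_apply f h, (hh1 j _ e3).1, e2,
        M.κ_add, pow_succ']
      simp [k]
  have hit3 : ∀ j, ∀ x ∈ S, ((f * h) ^ (j + m)) x ∈ Sj j := fun j x hx => by
    rw [hit2 j x hx]; exact ⟨_, perm_mapsTo_of_supp (M.κ_supp _) hx, rfl⟩
  refine ⟨f * h, m1, H2 h hh (near_one_of_D hh (hh2 p hpS).1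
    (fun x => (hhD x).trans (min_le_right _ _)) (half_lt_self hδ₃)),
    fun x hx => by rw [Equiv.Perm.mul_apply, hhK x hx], m3, fun i hi x hx hx' => ?_, ?_,
    fun t η hη => ?_⟩
  · refine Set.disjoint_left.1 (hdisj' 0 i hi) (hit3 0 _ hx') ?_
    have := hit3 i x hx
    rwa [add_comm i m, pow_add, ← zero_add m] at this
  · rw [eventually_atTop]
    refine ⟨m, fun n hn x hx => ?_⟩
    obtain ⟨j, rfl⟩ := Nat.exists_eq_add_of_le' hn
    exact hSK j (hit3 j x hx)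
  · obtain ⟨δ, hδ, G1⟩ := hsmall η hη
    obtain ⟨δ', hδ', G2⟩ := M.ξ_near δ hδ
    have ht : Tendsto (fun j => |Real.exp (-s j) * t|) atTop (𝓝 0) := by
      simpa using ((Real.tendsto_exp_neg_atTop_nhds_zero.comp hs).mul_const t).abs
    obtain ⟨J, hJ⟩ := eventually_atTop.1 (ht.eventually_lt_const hδ')
    rw [eventually_atTop]
    refine ⟨J + m, fun n hn x => ?_⟩
    obtain ⟨j, rfl⟩ := Nat.exists_eq_add_of_le' ((Nat.le_add_left m J).trans hn)
    have e : (f * h) ^ (j + m) * M.ξ t * ((f * h) ^ (j + m))⁻¹ =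
        f ^ (j + m) * M.ξ (Real.exp (-s j) * t) * (f ^ (j + m))⁻¹ := by
      rw [conj_congr (M.ξ_supp t) (hit2 j), ← M.conj]; group
    rw [e]
    exact G1 _ (M.ξ_mem _) (M.ξ_supp _) (G2 _ (hJ j (by omega))) j x

end Pool.Agent.Lib.MP_fe72db_an
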