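import Pool.Agent.Lib.MP_fe72db_an.Example

/-! Symbolic coding and hyperbolicity of the horseshoe. -/

open Filter Topology Set Metric

namespace Pool.Agent.Lib.MP_fe72db_an

/-- The inverse branches of the tent function. -/
noncomputable def br (c : Bool) (u : ℝ) : ℝ := if c then 3 / 10 - u / 4 else 1 / 10 + u / 4

/-- `t` is the orbit with itinerary `σ`. -/
def IsSeq (σ : ℤ → Bool) (t : ℤ → ℝ) : Prop :=
  ∀ n, t n ∈ Icc (11 / 100 : ℝ) (29 / 100) ∧ t n = br (σ n) (t (n + 1) + t (n - 1) / 16)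

lemma br_mem (c : Bool) {u v : ℝ} (hu : u ∈ Icc (11 / 100 : ℝ) (29 / 100))
    (hv : v ∈ Icc (11 / 100 : ℝ) (29 / 100)) :
    br c (u + v / 16) ∈ L ∧ tau (br c (u + v / 16)) = u + v / 16 := by
  obtain ⟨h1, h2⟩ := hu
  obtain ⟨h3, h4⟩ := hv
  cases c
  · simp only [br, Bool.false_eq_true, if_false]
    exact ⟨Or.inl ⟨by linarith, by linarith⟩, by rw [tau_L0 (by linarith) (by linarith)]; ring⟩
  · simp only [br, if_true]
    exact ⟨Or.inr ⟨by linarith, by linarith⟩, by rw [tau_L1 (by linarith) (by linarith)]; ring⟩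

lemma L_subset : L ⊆ Icc (11 / 100 : ℝ) (29 / 100) := by
  rintro t (h | h) <;> constructor <;> linarith [h.1, h.2]

lemma br_lip (c : Bool) (u v : ℝ) : |br c u - br c v| = |u - v| / 4 := by
  cases c
  · simp only [br, Bool.false_eq_true, if_false]
    rw [show 1 / 10 + u / 4 - (1 / 10 + v / 4) = (u - v) / 4 by ring, abs_div]; norm_num
  · simp only [br, if_true]
    rw [show 3 / 10 - u / 4 - (3 / 10 - v / 4) = -(u - v) / 4 by ring, abs_div, abs_neg]; norm_num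

lemma br_est (c : Bool) {u v u' v' M : ℝ} (h1 : |u - u'| ≤ M) (h2 : |v - v'| ≤ M) :
    |br c (u + v / 16) - br c (u' + v' / 16)| ≤ 1 / 2 * M := by
  rw [br_lip, div_le_iff₀ (by norm_num), abs_le]
  rw [abs_le] at h1 h2
  constructor <;> linarith

lemma exists_seq (σ : ℤ → Bool) : ∃ t, IsSeq σ t := by
  obtain ⟨t, h1, h2⟩ := exists_fix (fun (t : ℤ → ℝ) n => br (σ n) (t (n + 1) + t (n - 1) / 16))
    (lo := 11 / 100) (hi := 29 / 100) (θ := 1 / 2) (by norm_num) (by norm_num) (by norm_num)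
    (fun u hu n => L_subset (br_mem _ (hu _) (hu _)).1)
    (fun u v M _ _ h n => br_est _ (h _) (h _))
  exact ⟨t, fun n => ⟨h1 n, (congrFun h2 n).symm⟩⟩

section seq

variable {σ σ' : ℤ → Bool} {t t' : ℤ → ℝ}

lemma IsSeq.mem_L (h : IsSeq σ t) (n : ℤ) : t n ∈ L := by
  rw [(h n).2]; exact (br_mem _ (h _).1 (h _).1).1

lemma IsSeq.tau_eq (h : IsSeq σ t) (n : ℤ) : tau (t n) = t (n + 1) + t (n - 1) / 16 := by
  conv_lhs => rw [(h n).2]
  exact (br_mem _ (h _).1 (h _).1).2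

lemma IsSeq.close (h : IsSeq σ t) (h' : IsSeq σ' t') (k : ℕ) (m m' : ℤ)
    (hσ : ∀ n : ℤ, |n| < k → σ (m + n) = σ' (m' + n)) : |t m - t' m'| ≤ (1 / 2) ^ k := by
  induction k generalizing m m' with
  | zero =>
    have a1 := (h m).1
    have a2 := (h' m').1
    rw [pow_zero, abs_le]; constructor <;> linarith [a1.1, a1.2, a2.1, a2.2]
  | succ k ih =>
    have e : σ m = σ' m' := by simpa using hσ 0 (by simp)
    rw [(h m).2, (h' m').2, e, pow_succ']
    refine br_est _ (ih _ _ fun n hn => ?_) (ih _ _ fun n hn => ?_)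
    · rw [add_assoc, add_assoc]
      apply hσ
      rw [abs_lt] at hn ⊢; push_cast; omega
    · rw [sub_add_eq_add_sub, sub_add_eq_add_sub, add_sub_assoc, add_sub_assoc]
      apply hσ
      rw [abs_lt] at hn ⊢; push_cast; omega

lemma dist_proj_le (u v : E) : dist (proj u) (proj v) ≤ ‖u - v‖ := by
  rw [dist_eq_norm, ← proj_sub]; exact norm_proj_le _

lemma IsSeq.dist_le (h : IsSeq σ t) (h' : IsSeq σ' t') (k : ℕ) (m m' : ℤ)
    (hσ : ∀ n : ℤ, |n| ≤ k → σ (m + n) = σ' (m' + n)) :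
    dist (proj (t m, t (m + 1))) (proj (t' m', t' (m' + 1))) ≤ (1 / 2) ^ k := by
  refine (dist_proj_le _ _).trans (max_le (h.close h' k _ _ fun n hn => hσ n hn.le)
    (h.close h' k _ _ fun n hn => ?_))
  rw [add_assoc, add_assoc]
  apply hσ
  rw [abs_lt] at hn
  rw [abs_le]; omega

lemma IsSeq.step (h : IsSeq σ t) (n : ℤ) :
    f0 (proj (t n, t (n + 1))) = proj (t (n + 1), t (n + 1 + 1)) := by
  have a1 := (h n).1
  rw [f0_proj, h.tau_eq, gam_lin (by rw [abs_le]; constructor <;> linarith [a1.1, a1.2])]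
  simp

lemma IsSeq.zpow (h : IsSeq σ t) (n : ℤ) :
    (f0 ^ n) (proj (t 0, t (0 + 1))) = proj (t n, t (n + 1)) := by
  induction n using Int.induction_on with
  | zero => rfl
  | succ n ih => rw [zpow_succ_apply, ih, h.step]
  | pred n ih =>
    apply f0.injective
    rw [← zpow_succ_apply, h.step, sub_add_cancel, ih]

lemma IsSeq.mem_Lam (h : IsSeq σ t) : proj (t 0, t (0 + 1)) ∈ Lam := fun n =>
  ⟨(t n, t (n + 1)), ⟨h.mem_L n, h.mem_L _⟩, (h.zpow n).symm⟩

end seq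

lemma lift_of_L {s t : ℝ} (hs : s ∈ L) (ht : t ∈ L) : lift (proj (s, t)) = (s, t) := by
  have a1 := L_subset hs
  have a2 := L_subset ht
  apply lift_proj
  refine max_lt ?_ ?_ <;> rw [Real.norm_eq_abs, abs_lt] <;> constructor <;>
    linarith [a1.1, a1.2, a2.1, a2.2]

lemma exists_seq_of_mem {x : T} (hx : x ∈ Lam) :
    ∃ σ t, IsSeq σ t ∧ x = proj (t 0, t (0 + 1)) := by
  have hL : ∀ n, sq x n ∈ L := fun n => by
    obtain ⟨⟨s, t⟩, ⟨hs, ht⟩, e⟩ := hx n
    rw [sq, ← e, lift_of_L hs ht]; exact hs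
  refine ⟨fun n => decide (1 / 5 < sq x n), sq x, fun n => ⟨L_subset (hL n), ?_⟩, eq_sq x⟩
  have a1 := L_subset (hL (n - 1))
  have h := sq_rec_lin (x := x) (n := n - 1)
    (by rw [abs_le]; constructor <;> linarith [a1.1, a1.2])
  rw [sub_add_cancel, show n - 1 + 2 = n + 1 by ring] at h
  rcases hL n with h1 | h1
  · rw [tau_L0 h1.1 h1.2] at h
    simp only [br, decide_eq_true_eq, if_neg (show ¬ 1 / 5 < sq x n by linarith [h1.2])]
    linarith
  · rw [tau_L1 h1.1 h1.2] at h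
    simp only [br, decide_eq_true_eq, if_pos (show 1 / 5 < sq x n by linarith [h1.1])]
    linarith

lemma isClosed_Lam : IsClosed Lam := by
  have hL : IsCompact L := isCompact_Icc.union isCompact_Icc
  have : Lam = ⋂ n : ℤ, (f0 ^ n : Equiv.Perm T) ⁻¹' (proj '' (L ×ˢ L)) := by
    ext x; simp [Lam]
  rw [this]
  exact isClosed_iInter fun n => ((hL.prod hL).image continuous_proj).isClosed.preimage
    (continuous_of_Diff1 (zpow_mem_Diff1 f0_mem n))

lemma zpow_mem_Lam {x : T} (hx : x ∈ Lam) (m : ℤ) : (f0 ^ m) x ∈ Lam := fun n => by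
  rw [← Equiv.Perm.mul_apply, ← zpow_add]; exact hx _

lemma apply_mem_Lam {x : T} (hx : x ∈ Lam) : f0 x ∈ Lam := by simpa using zpow_mem_Lam hx 1

lemma inv_apply_mem_Lam {x : T} (hx : x ∈ Lam) : f0⁻¹ x ∈ Lam := by
  have := zpow_mem_Lam hx (-1)
  rwa [zpow_neg_one] at this

lemma exists_half_pow_lt {ε : ℝ} (hε : 0 < ε) : ∃ k : ℕ, (1 / 2 : ℝ) ^ k < ε :=
  exists_pow_lt_of_lt_one hε (by norm_num)

lemma eq_of_half_pow {x y : T} (h : ∀ k : ℕ, dist x y ≤ (1 / 2) ^ k) : x = y :=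
  eq_of_forall_dist_le fun _ hε => by
    obtain ⟨k, hk⟩ := exists_half_pow_lt hε
    exact (h k).trans hk.le

lemma Lam_subset_closure : Lam ⊆ closure (Function.periodicPts f0) := by
  intro x hx
  obtain ⟨σ, t, h, rfl⟩ := exists_seq_of_mem hx
  rw [Metric.mem_closure_iff]
  intro ε hε
  obtain ⟨k, hk⟩ := exists_half_pow_lt hε
  obtain ⟨t', h'⟩ := exists_seq fun n => σ ((n + k) % (2 * k + 1 : ℕ) - k)
  refine ⟨proj (t' 0, t' (0 + 1)), mem_periodicPts_iff.2 ⟨2 * k + 1, by omega, ?_⟩,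
    (h.dist_le h' k 0 0 fun n hn => ?_).trans_lt hk⟩
  · rw [← zpow_natCast, h'.zpow]
    refine eq_of_half_pow fun j => h'.dist_le h' j _ _ fun n _ => ?_
    simp only [zero_add]
    rw [add_assoc, Int.add_emod_left]
  · rw [abs_le] at hn
    simp only [zero_add]
    rw [Int.emod_eq_of_lt (by omega) (by push_cast; omega), add_sub_cancel_right]

/-- An itinerary containing every finite word. -/
def allWords (n : ℤ) : Bool :=
  (Nat.sqrt n.toNat).testBit (n.toNat - Nat.sqrt n.toNat * Nat.sqrt n.toNat)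

lemma exists_allWords (σ : ℤ → Bool) (k : ℕ) :
    ∃ m : ℤ, ∀ n : ℤ, |n| ≤ k → σ (0 + n) = allWords (m + n) := by
  set j := 2 ^ (2 * k + 1) + Nat.ofBits fun i : Fin (2 * k + 1) => σ ((i : ℕ) - k) with hj
  refine ⟨(j * j : ℕ) + k, fun n hn => ?_⟩
  rw [abs_le] at hn
  obtain ⟨i, hi⟩ := Int.eq_ofNat_of_zero_le (show 0 ≤ n + k by omega)
  have hi' : i < 2 * k + 1 := by omega
  have e1 : (((j * j : ℕ) : ℤ) + k + n).toNat = j * j + i := by omega
  have hij : i ≤ j + j := by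
    have := Nat.lt_two_pow_self (n := 2 * k + 1)
    omega
  rw [allWords, e1, Nat.sqrt_add_eq j hij, Nat.add_sub_cancel_left, hj,
    Nat.testBit_two_pow_add_gt hi', Nat.testBit_ofBits_lt _ _ hi']
  congr 1
  simp only
  omega

lemma Lam_transitive : ∃ x ∈ Lam, Lam ⊆ closure (orbit f0 x) := by
  obtain ⟨t', h'⟩ := exists_seq allWords
  refine ⟨_, h'.mem_Lam, fun x hx => ?_⟩
  obtain ⟨σ, t, h, rfl⟩ := exists_seq_of_mem hx
  rw [Metric.mem_closure_iff]
  intro ε hε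
  obtain ⟨k, hk⟩ := exists_half_pow_lt hε
  obtain ⟨m, hm⟩ := exists_allWords σ k
  exact ⟨_, ⟨m, h'.zpow m⟩, (h.dist_le h' k 0 m hm).trans_lt hk⟩

/-! Hyperbolicity -/

/-- The slope of the tent function at the second coordinate. -/
noncomputable def sl (x : T) : ℝ := if (lift x).2 ≤ 1 / 5 then 4 else -4

lemma D_f0_Lam {x : T} (hx : x ∈ Lam) (v : E) : D f0 x v = (v.2, sl x * v.2 - 1 / 16 * v.1) := by
  obtain ⟨⟨s, t⟩, ⟨hs, ht⟩, e⟩ := hx 0
  have e' : x = proj (s, t) := e.symm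
  have a1 := L_subset hs
  have hb : HasDerivAt gam (1 / 16) s :=
    hasDerivAt_gam_lin (by rw [abs_lt]; constructor <;> linarith [a1.1, a1.2])
  rw [e', sl, lift_of_L hs ht]
  rcases ht with h | h
  · rw [if_pos (by linarith [h.2])]; exact D_f0 (hasDerivAt_tau_L0 h.1 h.2) hb v
  · rw [if_neg (by linarith [h.1])]; exact D_f0 (hasDerivAt_tau_L1 h.1 h.2) hb v

lemma sl_sub (x : T) {u : ℝ} (hu : |u| ≤ 1) : 3 ≤ |sl x - u| := by
  rw [abs_le] at hu
  unfold sl
  split_ifs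
  · rw [abs_of_nonneg] <;> linarith
  · rw [abs_of_nonpos] <;> linarith

lemma sl_inv (x : T) {u : ℝ} (hu : |u| ≤ 1) : |(sl x - u)⁻¹| ≤ 1 / 2 := by
  have := sl_sub x hu
  rw [abs_inv, inv_le_comm₀ (by linarith) (by norm_num)]; linarith

lemma sl_lip (x : T) {u u' : ℝ} (hu : |u| ≤ 1) (hu' : |u'| ≤ 1) :
    |(sl x - u)⁻¹ - (sl x - u')⁻¹| ≤ 1 / 2 * |u - u'| := by
  have h1 : sl x - u ≠ 0 := abs_pos.1 (by linarith [sl_sub x hu])
  have h2 : sl x - u' ≠ 0 := abs_pos.1 (by linarith [sl_sub x hu'])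
  have e : (sl x - u)⁻¹ - (sl x - u')⁻¹ = (sl x - u)⁻¹ * (sl x - u')⁻¹ * (u - u') := by
    field_simp; ring
  rw [e, abs_mul, abs_mul]
  have := mul_le_mul (sl_inv x hu) (sl_inv x hu') (abs_nonneg _) (by norm_num)
  exact mul_le_mul_of_nonneg_right (by linarith) (abs_nonneg _)

lemma isHyperbolic_Lam : IsHyperbolic f0 Lam := by
  have hI : ∀ {u : ℝ}, u ∈ Icc (-(1 / 2) : ℝ) (1 / 2) ↔ |u| ≤ 1 / 2 := abs_le.symm
  have h16 : ∀ {u : ℝ}, |u| ≤ 1 / 2 → |1 / 16 * u| ≤ 1 := fun h => by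
    rw [abs_le] at h ⊢; constructor <;> linarith
  obtain ⟨w, hw, hw'⟩ := exists_fix
    (fun (w : T → ℝ) x => (sl (f0⁻¹ x) - 1 / 16 * w (f0⁻¹ x))⁻¹) (lo := -(1 / 2)) (hi := 1 / 2)
    (θ := 1 / 2) (by norm_num) (by norm_num) (by norm_num)
    (fun u hu x => hI.2 (sl_inv _ (h16 (hI.1 (hu _)))))
    (fun u v M hu hv h x => (sl_lip _ (h16 (hI.1 (hu _))) (h16 (hI.1 (hv _)))).trans (by
      have := h (f0⁻¹ x)
      rw [← mul_sub, abs_mul, abs_of_pos (show (0 : ℝ) < 1 / 16 by norm_num)]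
      linarith [abs_nonneg (u (f0⁻¹ x) - v (f0⁻¹ x))]))
  obtain ⟨z, hz, hz'⟩ := exists_fix
    (fun (z : T → ℝ) x => 1 / 16 * (sl x - z (f0 x))⁻¹) (lo := -(1 / 2)) (hi := 1 / 2)
    (θ := 1 / 2) (by norm_num) (by norm_num) (by norm_num)
    (fun u hu x => hI.2 (by
      have := sl_inv x (u := u (f0 x)) ((hI.1 (hu _)).trans (by norm_num))
      rw [abs_le] at this ⊢; constructor <;> linarith))
    (fun u v M hu hv h x => by
      have h1 := sl_lip x (u := u (f0 x)) (u' := v (f0 x)) ((hI.1 (hu _)).trans (by norm_num))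
        ((hI.1 (hv _)).trans (by norm_num))
      have := h (f0 x)
      rw [← mul_sub, abs_mul, abs_of_pos (show (0 : ℝ) < 1 / 16 by norm_num)]
      linarith [abs_nonneg (u (f0 x) - v (f0 x))])
  have hn1 : ∀ u : ℝ, |u| ≤ 1 / 2 → ‖((1 : ℝ), u)‖ = 1 := fun u hu => by
    rw [Prod.norm_def, norm_one]; exact max_eq_left (hu.trans (by norm_num))
  have hn2 : ∀ u : ℝ, |u| ≤ 1 / 2 → ‖(u, (1 : ℝ))‖ = 1 := fun u hu => by
    rw [Prod.norm_def, norm_one]; exact max_eq_right (hu.trans (by norm_num))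
  refine isHyperbolic_of_frames f0_mem (fun _ => apply_mem_Lam) (fun _ => inv_apply_mem_Lam)
    (fun x => (1, z x)) (fun x => (w x, 1)) (c := 1) (lam := 1 / 2) one_pos (by norm_num)
    (by norm_num) (fun x _ => by simp [hn1 _ (hI.1 (hz x))])
    (fun x _ => by simp [hn2 _ (hI.1 (hw x))]) (fun x _ => ?_)
    (fun x hx => ⟨z x, hI.1 (hz x), ?_⟩) (fun x hx => ⟨w (f0 x), hI.1 (hw _), ?_⟩)
  · have a1 := hz x
    have a2 := hw x
    have : z x * w x < 1 := by nlinarith [a1.1, a1.2, a2.1, a2.2]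
    simp only [mul_one]; linarith
  · have h1 : sl x - z (f0 x) ≠ 0 :=
      abs_pos.1 (by linarith [sl_sub x (u := z (f0 x)) ((hI.1 (hz _)).trans (by norm_num))])
    have h2 : z x * (sl x - z (f0 x)) = 1 / 16 := by
      rw [← congrFun hz' x]; field_simp
    rw [D_f0_Lam hx]
    ext
    · simp
    · simp only [Prod.smul_snd, smul_eq_mul]; linarith
  · have h1 : sl x - 1 / 16 * w x ≠ 0 := abs_pos.1 (by linarith [sl_sub x (h16 (hI.1 (hw x)))])
    have h2 : w (f0 x) * (sl x - 1 / 16 * w x) = 1 := by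
      rw [← congrFun hw' (f0 x)]
      simp only [show f0⁻¹ (f0 x) = x by simp]
      exact inv_mul_cancel₀ h1
    rw [D_f0_Lam hx]
    ext
    · simp
    · simp only [Prod.smul_snd, smul_eq_mul]; linarith

lemma exists_homoclinic : ∃ p ∈ Function.periodicPts f0,
    IsHyperbolic f0 (orbit f0 p) ∧ homoclinicClass f0 p ≠ orbit f0 p := by
  obtain ⟨t, h⟩ := exists_seq fun _ => false
  obtain ⟨t', h'⟩ := exists_seq fun n => decide (n = 0)
  have hfix : ∀ n, proj (t n, t (n + 1)) = proj (t 0, t (0 + 1)) := fun n =>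
    eq_of_half_pow fun j => h.dist_le h j _ _ fun _ _ => rfl
  have hp : f0 (proj (t 0, t (0 + 1))) = proj (t 0, t (0 + 1)) := by rw [h.step, hfix]
  have hh : IsHyperbolic f0 (orbit f0 (proj (t 0, t (0 + 1)))) :=
    isHyperbolic_Lam.mono (orbit_subset (fun _ => apply_mem_Lam) (fun _ => inv_apply_mem_Lam)
      h.mem_Lam)
  have hd : ∀ (n : ℕ) (m : ℤ), |m| = (n + 1 : ℕ) →
      dist (proj (t' m, t' (m + 1))) (proj (t 0, t (0 + 1))) ≤ (1 / 2) ^ n := fun n m hm =>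
    h'.dist_le h n _ _ fun j hj => by
      rw [decide_eq_false_iff_not]
      intro e
      rw [show m = -j by omega, abs_neg] at hm
      omega
  have hlim := tendsto_pow_atTop_nhds_zero_of_lt_one (show (0 : ℝ) ≤ 1 / 2 by norm_num)
    (by norm_num)
  refine ⟨_, fixed_mem_periodic hp, hh, (homoclinicClass_ne_iff (fixed_mem_periodic hp) hh).2
    ⟨proj (t' 0, t' (0 + 1)), ?_, ?_, ?_, isHyperbolic_Lam.trans_vec h'.mem_Lam⟩⟩
  · rw [orbit_fixed hp]
    intro e
    have e1 := congrArg (fun y => (lift y).1) e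
    simp only [lift_of_L (h.mem_L _) (h.mem_L _), lift_of_L (h'.mem_L _) (h'.mem_L _)] at e1
    have a1 := (h 0).2
    have a2 := (h' 0).2
    simp only [br, Bool.false_eq_true, if_false, decide_true, if_true] at a1 a2
    linarith [(h (0 + 1)).1.2, (h (0 - 1)).1.2, (h' (0 + 1)).1.2, (h' (0 - 1)).1.2]
  · rw [orbit_fixed hp]
    simp only [Ws, mem_ofPred_eq, infDist_singleton]
    rw [← tendsto_add_atTop_iff_nat 1]
    refine squeeze_zero (fun _ => dist_nonneg) (fun n => ?_) hlim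
    rw [← zpow_natCast, h'.zpow]
    exact hd n _ (abs_of_nonneg (by positivity))
  · rw [orbit_fixed hp]
    simp only [Ws, mem_ofPred_eq, infDist_singleton]
    rw [← tendsto_add_atTop_iff_nat 1]
    refine squeeze_zero (fun _ => dist_nonneg) (fun n => ?_) hlim
    rw [inv_pow, ← zpow_natCast, ← zpow_neg, h'.zpow]
    exact hd n _ (by rw [abs_neg]; exact abs_of_nonneg (by positivity))

end Pool.Agent.Lib.MP_fe72db_an
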