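import Pool.Agent.Lib.MP_fe72db_an.Horseshoe

/-! The example belongs to `O` and has a source connected to a sink, both with nonreal
eigenvalues. -/

open Filter Topology Set Metric

namespace Pool.Agent.Lib.MP_fe72db_an

lemma gam_zero : gam 0 = 0 := by rw [gam_lin (by norm_num)]; norm_num

lemma gam_half : gam (1 / 2) = 1 / 2 := by rw [gam_mid (by norm_num) (by norm_num)]; norm_num

lemma tau_zero : tau 0 = 0 := tau_lo (by norm_num) (by norm_num)

lemma tau_half : tau (1 / 2) = 0 := tau_hi (by norm_num) (by norm_num)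

lemma f0_pt0 : f0 pt0 = pt0 := by rw [pt0, f0_proj, gam_zero, tau_zero, sub_zero]

lemma f0_q1 : f0 q1 = q2 := by rw [q1, f0_proj, gam_zero, tau_half, sub_zero, q2]

lemma f0_q2 : f0 q2 = q1 := by
  rw [q2, f0_proj, gam_half, tau_zero, q1]
  exact proj_eq_iff.2 ⟨⟨0, by simp⟩, ⟨-1, by norm_num⟩⟩

lemma f0_pt3 : f0 pt3 = pt3 := by
  rw [pt3, f0_proj, gam_half, tau_half]
  exact proj_eq_iff.2 ⟨⟨0, by simp⟩, ⟨-1, by norm_num⟩⟩

lemma f0_inv_pt3 : f0⁻¹ pt3 = pt3 := Equiv.Perm.inv_eq_iff_eq.2 f0_pt3.symm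

lemma dtau_zero : HasDerivAt tau 0 0 := hasDerivAt_tau_lo (by norm_num) (by norm_num)

lemma dtau_half : HasDerivAt tau 0 (1 / 2) := hasDerivAt_tau_hi (by norm_num) (by norm_num)

lemma dgam_zero : HasDerivAt gam (1 / 16) 0 := hasDerivAt_gam_lin (by norm_num)

lemma cplx_pt0 : Cplx (D f0 pt0) := by
  simp only [Cplx, dt, pt0, D_f0 dtau_zero dgam_zero]; norm_num

lemma cplx_pt3 : Cplx (D (f0⁻¹ : Equiv.Perm T) pt3) := by
  have h := D_inv_apply f0_mem pt3
  rw [f0_pt3] at h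
  have h1 := h (0, 1)
  have h2 := h (-32 / 377, 0)
  have d3 : ∀ v, D f0 pt3 v = (v.2, 0 * v.2 - 377 / 32 * v.1) :=
    D_f0 dtau_half hasDerivAt_gam_half
  rw [d3] at h1 h2
  generalize D (f0⁻¹ : Equiv.Perm T) pt3 = A at h1 h2
  norm_num at h1 h2
  simp only [Cplx, dt, h1, h2]; norm_num

lemma norm_zero' : ‖((0 : ℝ) : UnitAddCircle)‖ = 0 := by simp

lemma norm_half' : ‖((1 / 2 : ℝ) : UnitAddCircle)‖ = 1 / 2 := by
  rw [norm_coe_eq (by norm_num)]; norm_num

lemma q1_ne_q2 : q1 ≠ q2 := by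
  intro e
  have := congrArg (fun x : T => ‖x.1‖) e
  simp only [q1, q2, proj, norm_zero', norm_half'] at this
  norm_num at this

lemma mapsTo_q : ∀ x ∈ ({q1, q2} : Set T), f0 x ∈ ({q1, q2} : Set T) := by
  rintro x (rfl | rfl)
  · exact Or.inr f0_q1
  · exact Or.inl f0_q2

lemma mapsTo_q_inv : ∀ x ∈ ({q1, q2} : Set T), f0⁻¹ x ∈ ({q1, q2} : Set T) := by
  rintro x (rfl | rfl)
  · exact Or.inr (Equiv.Perm.inv_eq_iff_eq.2 f0_q2.symm)
  · exact Or.inl (Equiv.Perm.inv_eq_iff_eq.2 f0_q1.symm)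

lemma isHyperbolic_q : IsHyperbolic f0 {q1, q2} := by
  classical
  have d1 : ∀ v, D f0 q1 v = (v.2, 0 * v.2 - 1 / 16 * v.1) := D_f0 dtau_half dgam_zero
  have d2 : ∀ v, D f0 q2 v = (v.2, 0 * v.2 - 377 / 32 * v.1) :=
    D_f0 dtau_zero hasDerivAt_gam_half
  have hne := q1_ne_q2.symm
  refine isHyperbolic_of_frames f0_mem mapsTo_q mapsTo_q_inv
    (fun x => if x = q1 then (1, 0) else (0, 1 / 4)) (fun x => if x = q1 then (0, 1) else (1 / 2, 0))
    (c := 1 / 4) (lam := 1 / 2) (by norm_num) (by norm_num) (by norm_num) ?_ ?_ ?_ ?_ ?_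
  · rintro x (rfl | rfl)
    · simp only [if_true, Prod.norm_def]; norm_num
    · simp only [if_neg hne, Prod.norm_def]; norm_num
  · rintro x (rfl | rfl)
    · simp only [if_true, Prod.norm_def]; norm_num
    · simp only [if_neg hne, Prod.norm_def]; norm_num
  · rintro x (rfl | rfl)
    · simp only [if_true]; norm_num
    · simp only [if_neg hne]; norm_num
  · rintro x (rfl | rfl)
    · refine ⟨-1 / 4, by norm_num [abs_le], ?_⟩
      simp only [if_true, f0_q1, if_neg hne, d1]; norm_num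
    · refine ⟨1 / 4, by norm_num [abs_le], ?_⟩
      simp only [if_true, f0_q2, if_neg hne, d2]; norm_num
  · rintro x (rfl | rfl)
    · refine ⟨1 / 2, by norm_num [abs_le], ?_⟩
      simp only [if_true, f0_q1, if_neg hne, d1]; norm_num
    · refine ⟨-64 / 377, by norm_num [abs_le], ?_⟩
      simp only [if_true, f0_q2, if_neg hne, d2]; norm_num

lemma apply_mem_iff {f : Equiv.Perm T} {A : Set T} (h1 : ∀ x ∈ A, f x ∈ A)
    (h2 : ∀ x ∈ A, f⁻¹ x ∈ A) (x : T) : f x ∈ A ↔ x ∈ A :=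
  ⟨fun h => by simpa using h2 _ h, h1 x⟩

lemma image_eq_of_mapsTo {f : Equiv.Perm T} {A : Set T} (h1 : ∀ x ∈ A, f x ∈ A)
    (h2 : ∀ x ∈ A, f⁻¹ x ∈ A) : f '' A = A :=
  Subset.antisymm (by rintro _ ⟨x, hx, rfl⟩; exact h1 x hx) fun x hx => ⟨_, h2 x hx, by simp⟩

lemma isHyperbolic_f0 : IsHyperbolic f0 (nonwandering f0) := by
  have h3 : IsHyperbolic f0 {pt3} := by
    have := (isHyperbolic_sink (inv_mem_Diff1 f0_mem) f0_inv_pt3 cplx_pt3).inv
      (inv_mem_Diff1 f0_mem) (by rintro _ rfl; rw [inv_inv]; exact f0_pt3)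
    rwa [inv_inv] at this
  have h := h3.union (isHyperbolic_q.union (isHyperbolic_Lam.union
    (isHyperbolic_sink f0_mem f0_pt0 cplx_pt0)
    (apply_mem_iff (fun _ => apply_mem_Lam) fun _ => inv_apply_mem_Lam))
    (apply_mem_iff mapsTo_q mapsTo_q_inv))
    (apply_mem_iff (by rintro _ rfl; exact f0_pt3) (by rintro _ rfl; exact f0_inv_pt3))
  refine h.mono fun x hx => ?_
  rcases nonwandering_subset hx with ((h | h) | h) | h
  · exact Or.inr (Or.inr (Or.inr h))
  · exact Or.inr (Or.inr (Or.inl h))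
  · exact Or.inr (Or.inl h)
  · exact Or.inl h

lemma subset_closure_periodic :
    {pt0} ∪ Lam ∪ {q1, q2} ∪ {pt3} ⊆ closure (Function.periodicPts f0) := by
  rintro x (((rfl | h) | rfl | rfl) | rfl)
  · exact subset_closure (fixed_mem_periodic f0_pt0)
  · exact Lam_subset_closure h
  · exact subset_closure (mem_periodicPts_iff.2 ⟨2, two_pos, by simp [pow_two, f0_q1, f0_q2]⟩)
  · exact subset_closure (mem_periodicPts_iff.2 ⟨2, two_pos, by simp [pow_two, f0_q1, f0_q2]⟩)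
  · exact subset_closure (fixed_mem_periodic f0_pt3)

lemma norm_of_mem_Lam {x : T} (hx : x ∈ Lam) :
    11 / 100 ≤ ‖x.1‖ ∧ ‖x.1‖ ≤ 29 / 100 ∧ ‖x.2‖ ≤ 29 / 100 := by
  obtain ⟨⟨s, t⟩, ⟨hs, ht⟩, e⟩ := hx 0
  have e' : x = proj (s, t) := e.symm
  have a1 := L_subset hs
  have a2 := L_subset ht
  have b1 : |s| = s := abs_of_nonneg (by linarith [a1.1])
  have b2 : |t| = t := abs_of_nonneg (by linarith [a2.1])
  simp only [e', proj]
  rw [norm_coe_eq (by linarith [a1.2]), norm_coe_eq (by linarith [a2.2]), b1, b2]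
  exact ⟨a1.1, a1.2, a2.2⟩

lemma noCycles_f0 : NoCycles f0 := by
  set Λ : Fin 4 → Set T := ![{pt0}, Lam, {q1, q2}, {pt3}] with hΛ
  set C : Fin 4 → Set T := ![C0, C1, C2, univ] with hC
  have hCc : ∀ i, IsClosed (C i) ∧ MapsTo f0 (C i) (C i) := by
    intro i
    fin_cases i
    exacts [⟨isClosed_C0, mapsTo_C0⟩, ⟨isClosed_C1, mapsTo_C1⟩, ⟨isClosed_C2, mapsTo_C2⟩,
      ⟨isClosed_univ, mapsTo_univ _ _⟩]
  have hin : ∀ i, Λ i ⊆ interior (C i) := by
    intro i
    fin_cases i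
    · rintro _ rfl
      exact mem_interior_C0 (by simp only [pt0, proj, norm_zero']; norm_num)
    · intro x hx
      have := norm_of_mem_Lam hx
      exact mem_interior_C1 ⟨by linarith, by linarith⟩
    · rintro _ (rfl | rfl)
      · exact mem_interior_C2 (Or.inl (by simp only [q1, proj, norm_zero']; norm_num))
      · exact mem_interior_C2 (Or.inr (by simp only [q2, proj, norm_zero']; norm_num))
    · simp [hC]
  have s01 : C0 ⊆ C1 := fun x hx => ⟨by linarith [hx.1], by linarith [hx.2]⟩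
  have s12 : C1 ⊆ C2 := fun x hx => Or.inl hx.1
  have o1 : Lam ⊆ C0ᶜ := fun x hx hc => by linarith [(norm_of_mem_Lam hx).1, hc.1]
  have o2 : ({q1, q2} : Set T) ⊆ C1ᶜ := by
    rintro _ (rfl | rfl) hc
    · have := hc.2
      simp only [q1, proj, norm_half'] at this
      norm_num at this
    · have := hc.1
      simp only [q2, proj, norm_half'] at this
      norm_num at this
  have o3 : ({pt3} : Set T) ⊆ C2ᶜ := by
    rintro _ rfl hc
    simp only [C2, mem_ofPred_eq, pt3, proj, norm_half'] at hc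
    norm_num at hc
  have hout : ∀ i j, i < j → Λ j ⊆ (C i)ᶜ := by
    intro i j hij
    fin_cases i <;> fin_cases j <;> first | exact absurd hij (by decide) | skip
    exacts [o1, o2.trans (compl_subset_compl.2 s01),
      o3.trans (compl_subset_compl.2 (s01.trans s12)), o2, o3.trans (compl_subset_compl.2 s12), o3]
  have hbas : ∀ i, IsClosed (Λ i) ∧ f0 '' Λ i = Λ i ∧ ∃ x ∈ Λ i, Λ i ⊆ closure (orbit f0 x) := by
    intro i
    fin_cases i
    · exact ⟨isClosed_singleton, by simp [hΛ, f0_pt0], pt0, rfl, by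
        rintro _ rfl; exact subset_closure (mem_orbit_self _ _)⟩
    · exact ⟨isClosed_Lam, image_eq_of_mapsTo (fun _ => apply_mem_Lam) fun _ => inv_apply_mem_Lam,
        Lam_transitive⟩
    · refine ⟨(toFinite ({q1, q2} : Set T)).isClosed, image_eq_of_mapsTo mapsTo_q mapsTo_q_inv,
        q1, Or.inl rfl, ?_⟩
      rintro _ (rfl | rfl)
      · exact subset_closure (mem_orbit_self _ _)
      · exact subset_closure (f0_q1 ▸ apply_mem_orbit (mem_orbit_self _ _))
    · exact ⟨isClosed_singleton, by simp [hΛ, f0_pt3], pt3, rfl, by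
        rintro _ rfl; exact subset_closure (mem_orbit_self _ _)⟩
  have hne : ∀ i, (Λ i).Nonempty := fun i => let ⟨x, hx, _⟩ := (hbas i).2.2; ⟨x, hx⟩
  have hdis : ∀ i j, i < j → Disjoint (Λ i) (Λ j) := fun i j hij =>
    Set.disjoint_left.2 fun x hx hx' => hout i j hij hx' (interior_subset (hin i hx))
  refine ⟨4, Λ, hbas, fun i j hij => ?_, ?_, fun i hi => ?_⟩
  · rcases lt_or_gt_of_ne hij with h | h
    · exact hdis i j h
    · exact (hdis j i h).symm
  · apply Subset.antisymm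
    · refine iUnion_subset fun i => Subset.trans ?_ (subset_closure_periodic.trans
        (closure_minimal (fun _ => periodic_mem_nonwandering) (isClosed_nonwandering f0)))
      fin_cases i
      exacts [fun x hx => Or.inl (Or.inl (Or.inl hx)), fun x hx => Or.inl (Or.inl (Or.inr hx)),
        fun x hx => Or.inl (Or.inr hx), fun x hx => Or.inr hx]
    · intro x hx
      rcases nonwandering_subset hx with ((h | h) | h) | h
      exacts [mem_iUnion.2 ⟨0, h⟩, mem_iUnion.2 ⟨1, h⟩, mem_iUnion.2 ⟨2, h⟩, mem_iUnion.2 ⟨3, h⟩]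
  · have key : ∀ a b, (a ≠ b ∧ ((Ws f0⁻¹ (Λ a) ∩ Ws f0 (Λ b)) \ nonwandering f0).Nonempty) →
        b < a := by
      rintro a b ⟨hab, x, ⟨h1, h2⟩, -⟩
      by_contra hc
      exact no_conn (hCc a).1 (hCc a).2 (hbas a).1 (hne a) (hin a) (hbas b).1 (hne b)
        (hout a b (lt_of_le_of_ne (not_lt.1 hc) hab)) h1 h2
    have : ∀ a b, Relation.TransGen (fun a b => a ≠ b ∧
        ((Ws f0⁻¹ (Λ a) ∩ Ws f0 (Λ b)) \ nonwandering f0).Nonempty) a b → b < a := by
      intro a b h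
      induction h with
      | single h => exact key _ _ h
      | tail _ h ih => exact (key _ _ h).trans ih
    exact lt_irrefl _ (this i i hi)

theorem f0_mem_O : f0 ∈ O :=
  ⟨f0_mem, ⟨isHyperbolic_f0, nonwandering_subset.trans subset_closure_periodic⟩, noCycles_f0,
    exists_homoclinic⟩

lemma norm_mk_le {a b c d : ℝ} (h : 4 * (a ^ 2 + b ^ 2) ≤ c ^ 2 + d ^ 2) :
    ‖(⟨a, b⟩ : ℂ)‖ ≤ 1 / 2 * ‖(⟨c, d⟩ : ℂ)‖ := by
  rw [← sq_le_sq₀ (norm_nonneg _) (by positivity), mul_pow, Complex.sq_norm, Complex.sq_norm,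
    Complex.normSq_mk, Complex.normSq_mk]
  nlinarith

lemma norm_mk_lt {a b r : ℝ} (hr : 0 < r) (h : a ^ 2 + b ^ 2 < r ^ 2) : ‖(⟨a, b⟩ : ℂ)‖ < r := by
  rw [← sq_lt_sq₀ (norm_nonneg _) hr.le, Complex.sq_norm, Complex.normSq_mk]
  nlinarith

lemma contr_pt0 :
    Contr f0 pt0 (confEquiv 1 0 4 one_ne_zero four_ne_zero) (9 / 100) (1 / 2) := by
  rintro ⟨s, t⟩ hv
  have h1 := abs_lt.1 ((Complex.abs_re_le_norm _).trans_lt hv)
  have h2 := abs_lt.1 ((Complex.abs_im_le_norm _).trans_lt hv)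
  simp only [confEquiv_apply] at h1 h2
  refine ⟨(t, -s / 16), ?_, ?_⟩
  · rw [pt0, ← proj_add, ← proj_add, Prod.mk_add_mk, Prod.mk_add_mk, zero_add, zero_add, zero_add,
      f0_proj, gam_lin (by rw [abs_le]; constructor <;> linarith),
      tau_lo (by linarith) (by linarith), zero_sub, neg_div]
  · rw [confEquiv_apply, confEquiv_apply]
    exact norm_mk_le (by simp only; nlinarith)

lemma contr_pt3 :
    Contr f0⁻¹ pt3 (confEquiv 4 0 1 four_ne_zero one_ne_zero) (1 / 10) (1 / 2) := by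
  rintro ⟨s, t⟩ hv
  have h1 := abs_lt.1 ((Complex.abs_re_le_norm _).trans_lt hv)
  have h2 := abs_lt.1 ((Complex.abs_im_le_norm _).trans_lt hv)
  simp only [confEquiv_apply] at h1 h2
  refine ⟨(-32 / 377 * t, s), ?_, ?_⟩
  · rw [Equiv.Perm.inv_eq_iff_eq, pt3, ← proj_add, ← proj_add, Prod.mk_add_mk, Prod.mk_add_mk,
      f0_proj, gam_mid (by linarith) (by linarith), tau_hi (by linarith) (by linarith)]
    exact proj_eq_iff.2 ⟨⟨0, by simp⟩, ⟨1, by simp only; push_cast; ring⟩⟩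
  · rw [confEquiv_apply, confEquiv_apply]
    exact norm_mk_le (by simp only; nlinarith)

lemma tendsto_pt0 :
    Tendsto (fun n : ℕ => (f0 ^ n) (proj (48 / 100, 48 / 100))) atTop (𝓝 pt0) := by
  refine (contr_pt0.attr (by norm_num) (by norm_num)).tendsto (m := 4)
    ⟨(423 / 25600, 423 / 25600), ?_, ?_⟩
  · rw [confEquiv_apply]
    exact norm_mk_lt (by norm_num) (by norm_num)
  · have g1 : gam (48 / 100) = 423 / 1600 := by
      rw [gam_mid (by norm_num) (by norm_num)]; norm_num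
    have g2 : gam (0 - 423 / 1600) = -423 / 25600 := by
      rw [gam_lin (by norm_num [abs_le])]; norm_num
    have t1 : tau (48 / 100) = 0 := tau_hi (by norm_num) (by norm_num)
    have t2 : tau (0 - 423 / 1600) = 0 := tau_lo (by norm_num) (by norm_num)
    have t3 : tau (0 - -423 / 25600) = 0 := tau_lo (by norm_num) (by norm_num)
    simp only [pow_succ, pow_zero, one_mul, Equiv.Perm.mul_apply, f0_proj, g1, g2, t1, t2, t3, pt0,
      ← proj_add]
    norm_num

lemma tendsto_pt3 :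
    Tendsto (fun n : ℕ => (f0⁻¹ ^ n) (proj (48 / 100, 48 / 100))) atTop (𝓝 pt3) := by
  refine (contr_pt3.attr (by norm_num) (by norm_num)).tendsto (m := 0)
    ⟨(-2 / 100, -2 / 100), ?_, ?_⟩
  · rw [confEquiv_apply]
    exact norm_mk_lt (by norm_num) (by norm_num)
  · rw [pt3, ← proj_add]
    norm_num

lemma pt0_ne_pt3 : pt0 ≠ pt3 := by
  intro e
  have := congrArg (fun x : T => ‖x.1‖) e
  simp only [pt0, pt3, proj, norm_zero', norm_half'] at this
  norm_num at this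

/-- There is a nonempty open subset of `O` in which nontrivial centralizers are dense. -/
theorem exists_open_dense_nontrivial : ∃ f₀ ∈ O, ∃ δ > 0, ∀ f ∈ O, Near f f₀ δ →
    ∀ ε > 0, ∃ g ∈ O, Near g f ε ∧ ¬ TrivialCentralizer g :=
  ⟨f0, f0_mem_O, robust f0_mem pt0_ne_pt3 f0_pt0 f0_inv_pt3 cplx_pt0 cplx_pt3 tendsto_pt0
    tendsto_pt3⟩

end Pool.Agent.Lib.MP_fe72db_an
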