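import Pool.Agent.Lib.MP_fe72db_an.Half

/-! A diffeomorphism in `O` with a conformal source connected to a conformal sink is a `C^1`
limit of diffeomorphisms in `O` with nontrivial centralizer. -/

open Filter Topology Set Metric

namespace Pool.Agent.Lib.MP_fe72db_an

lemma inv_pow_eq_of_notMem {f f' : Equiv.Perm T} {K : Set T} (hm : MapsTo f K K)
    (h : ∀ x, x ∉ K → f' x = f x) (n : ℕ) {x : T} (hx : x ∉ K) :
    (f'⁻¹ ^ n) x = (f⁻¹ ^ n) x := by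
  have e : (f ^ n) ((f⁻¹ ^ n) x) = x := inv_pow_apply_eq_iff.1 rfl
  rw [inv_pow_apply_eq_iff, pow_eq_of_notMem hm h n (by rwa [e]), e]

lemma tendsto_of_modify {f f' : Equiv.Perm T} {p : T} {K : Set T} (hK : K ∈ 𝓝 p)
    (h : ∀ x, x ∉ K → f' x = f x) (ha : Attr f' p K) {x : T}
    (hx : Tendsto (fun n : ℕ => (f ^ n) x) atTop (𝓝 p)) :
    Tendsto (fun n : ℕ => (f' ^ n) x) atTop (𝓝 p) := by
  by_cases hc : ∃ m : ℕ, (f' ^ m) x ∈ K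
  · obtain ⟨m, hm⟩ := hc
    exact ha.tendsto hm
  · push Not at hc
    have : ∀ n : ℕ, (f' ^ n) x = (f ^ n) x := by
      intro n
      induction n with
      | zero => rfl
      | succ n ih => rw [pow_succ', pow_succ', Equiv.Perm.mul_apply, Equiv.Perm.mul_apply,
          h _ (hc n), ih]
    simpa only [this] using hx

lemma Lin.of_inv_modify {f F : Equiv.Perm T} {p : T} {P : E ≃L[ℝ] ℂ} {A : E →L[ℝ] E} {ρ a : ℝ}
    (h : Lin f p P A ρ) (hconf : ∀ v, ‖P (A v)‖ = a * ‖P v‖) (ha : a ≤ 1) {K : Set T}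
    (hF : ∀ x, x ∉ K → F x = f⁻¹ x) (hK : ∀ x ∈ zone p P ρ, x ∉ K) : Lin F⁻¹ p P A ρ := by
  intro v hv
  have h1 : p + proj (A v) ∈ zone p P ρ :=
    ⟨A v, by rw [hconf]; exact (mul_le_of_le_one_left (norm_nonneg _) ha).trans_lt hv, rfl⟩
  rw [Equiv.Perm.inv_eq_iff_eq, hF _ (hK _ h1), ← h v hv]; simp

lemma exists_annulus {f : Equiv.Perm T} (hf : f ∈ Diff1) {p : T} (hp : f p = p) (P : E ≃L[ℝ] ℂ)
    {ρ a : ℝ} (hρ : 0 < ρ) (ha0 : 0 < a) (ha : a < 1) {x₀ : T} (hx₀ : x₀ ≠ p)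
    (hx : Tendsto (fun n : ℕ => (f ^ n) x₀) atTop (𝓝 p)) :
    ∃ (m : ℕ) (ρ' : ℝ), 0 < ρ' ∧ ρ' < ρ ∧ ∀ᶠ x in 𝓝 x₀,
      ∃ v, a * ρ' < ‖P v‖ ∧ ‖P v‖ < ρ' ∧ (f ^ m) x = p + proj v := by
  obtain ⟨m, v₀, hv₀, hm⟩ := (hx.eventually ((isOpen_zone p P (a * ρ)).mem_nhds
    (mem_zone_self p P (by positivity)))).exists
  have hc : 0 < ‖P v₀‖ := by
    rw [norm_pos_iff]
    intro h0
    have : v₀ = 0 := by simpa using h0
    rw [this, proj_zero, add_zero] at hm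
    have h2 : (f ^ m) p = p := by
      have : (f ^ m) p ∈ orbit f p := ⟨m, by simp⟩
      rwa [orbit_fixed hp] at this
    exact hx₀ ((f ^ m).injective (hm.trans h2.symm))
  set c := ‖P v₀‖
  have h1 : c < c * (1 + a⁻¹) / 2 := by
    have : 1 < a⁻¹ := one_lt_inv₀ ha0 |>.2 ha
    nlinarith
  have h2 : a * (c * (1 + a⁻¹) / 2) < c := by
    have : a * (c * (1 + a⁻¹) / 2) = c * (a + 1) / 2 := by field_simp
    rw [this]; nlinarith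
  refine ⟨m, c * (1 + a⁻¹) / 2, by positivity, ?_, ?_⟩
  · have : a * (c * (1 + a⁻¹) / 2) < a * ρ := h2.trans hv₀
    exact lt_of_mul_lt_mul_left this ha0.le
  · have hcP : Continuous fun v : E => ‖P v‖ := by fun_prop
    have ho : IsOpen ((fun x => p + x) '' (proj '' {v | a * (c * (1 + a⁻¹) / 2) < ‖P v‖ ∧
        ‖P v‖ < c * (1 + a⁻¹) / 2})) :=
      isOpenMap_add_left p _ (isOpenMap_proj _ ((isOpen_lt continuous_const hcP).inter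
        (isOpen_lt hcP continuous_const)))
    have := (continuous_of_Diff1 (pow_mem_Diff1 hf m)).continuousAt.eventually
      (ho.mem_nhds (x := (f ^ m) x₀) ⟨_, ⟨v₀, ⟨h2, h1⟩, rfl⟩, hm.symm⟩)
    filter_upwards [this] with x hx
    obtain ⟨_, ⟨v, hv, rfl⟩, e⟩ := hx
    exact ⟨v, hv.1, hv.2, e.symm⟩

lemma eventually_cofinite_int {q : ℤ → Prop} (h1 : ∀ᶠ n : ℕ in atTop, q n)
    (h2 : ∀ᶠ n : ℕ in atTop, q (-n)) : ∀ᶠ n in cofinite, q n := by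
  obtain ⟨N, hN⟩ := eventually_atTop.1 (h1.and h2)
  rw [Filter.eventually_cofinite]
  apply (finite_Ioo (-(N : ℤ)) N).subset
  intro n hn
  by_contra hc
  apply hn
  obtain ⟨m, rfl | rfl⟩ := n.eq_nat_or_neg
  · exact (hN m (by simp at hc; omega)).1
  · exact (hN m (by simp at hc; omega)).2

lemma not_trivial_of_model {g : Equiv.Perm T} (hg : g ∈ Diff1) {S : Set T} (hS : IsCompact S)
    {x₀ : T} (hx₀ : x₀ ∈ S) (M : Model S) (hw : ∀ i : ℕ, 1 ≤ i → ∀ x ∈ S, (g ^ i) x ∉ S)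
    (hd : ∀ᶠ n : ℤ in cofinite, ∀ x ∈ S, ∀ y ∈ S, dist ((g ^ n) x) ((g ^ n) y) < 1 / 2)
    (hη : ∀ t, ∀ η > 0, ∀ᶠ n : ℤ in cofinite, ∀ x,
      ‖D (g ^ n * M.ξ t * (g ^ n)⁻¹ : Equiv.Perm T) x - 1‖ ≤ η) : ¬ TrivialCentralizer g := by
  have hwz : ∀ i : ℤ, 0 < i → ∀ x ∈ S, (g ^ i) x ∉ S := by
    intro i hi
    obtain ⟨m, rfl⟩ := Int.eq_ofNat_of_zero_le hi.le
    rw [zpow_natCast]
    exact hw m (by exact_mod_cast hi)
  rw [Filter.eventually_cofinite] at hd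
  have h1 : ∀ n : ℤ, ∀ᶠ t in 𝓝 (0 : ℝ), ∀ y, dist ((g ^ n) (M.ξ t y)) ((g ^ n) y) < 1 / 2 := by
    intro n
    obtain ⟨δ, hδ, H⟩ := unifCont (continuous_of_Diff1 (zpow_mem_Diff1 hg n))
      (show (0 : ℝ) < 1 / 2 by norm_num)
    obtain ⟨δ', hδ', H'⟩ := M.ξ_near δ hδ
    filter_upwards [Metric.ball_mem_nhds (0 : ℝ) hδ'] with t ht y
    exact H _ _ (H' t (by simpa using ht) y).1
  obtain ⟨t, ht, ht0⟩ := ((((eventually_all_finite hd).2 fun n _ => h1 n).filter_mono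
    nhdsWithin_le_nhds).and (self_mem_nhdsWithin (a := (0 : ℝ)) (s := Ioi 0))).exists
  have ht0 : 0 < t := ht0
  let Sn : ℤ → Set T := fun n => (g ^ n : Equiv.Perm T) '' S
  have hdisj' : ∀ i j, i < j → Disjoint (Sn i) (Sn j) := by
    intro i j hij
    rw [Set.disjoint_left]
    rintro _ ⟨x, hx, rfl⟩ ⟨y, hy, e⟩
    have e1 : g ^ j = g ^ i * g ^ (j - i) := by group
    rw [e1, Equiv.Perm.mul_apply] at e
    exact hwz (j - i) (by omega) y hy (((g ^ i).injective e).symm ▸ hx)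
  have hdisj : ∀ i j, i ≠ j → Disjoint (Sn i) (Sn j) := fun i j hij => by
    rcases lt_or_gt_of_ne hij with h | h
    · exact hdisj' i j h
    · exact (hdisj' j i h).symm
  obtain ⟨c, hc, hc1, hc2⟩ := exists_glue (k := fun n : ℤ => g ^ n * M.ξ t * (g ^ n)⁻¹) (S := Sn)
    (fun n => mul_mem_Diff1 (mul_mem_Diff1 (zpow_mem_Diff1 hg n) (M.ξ_mem t))
      (inv_mem_Diff1 (zpow_mem_Diff1 hg n)))
    (fun n => (hS.image (continuous_of_Diff1 (zpow_mem_Diff1 hg n))).isClosed)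
    (fun n => conj_supp (M.ξ_supp t)) hdisj
    (fun n x => by
      by_cases hx : x ∈ Sn n
      · obtain ⟨y, hy, rfl⟩ := hx
        have e : (g ^ n * M.ξ t * (g ^ n)⁻¹) ((g ^ n) y) = (g ^ n) (M.ξ t y) := by simp
        rw [e]
        by_cases hn : ∀ x ∈ S, ∀ y ∈ S, dist ((g ^ n) x) ((g ^ n) y) < 1 / 2
        · exact hn _ (perm_mapsTo_of_supp (M.ξ_supp t) hy) _ hy
        · exact ht n hn y
      · rw [conj_supp (M.ξ_supp t) x hx]; simp)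
    (hη t)
  intro htriv
  have hcomm : c * g = g * c := by
    ext1 x
    rw [Equiv.Perm.mul_apply, Equiv.Perm.mul_apply]
    by_cases hx : ∃ n, x ∈ Sn n
    · obtain ⟨n, y, hy, rfl⟩ := hx
      have e : g ((g ^ n) y) = (g ^ (1 + n)) y := by rw [zpow_one_add]; rfl
      rw [(hc1 n _ ⟨y, hy, rfl⟩).1, e, (hc1 (1 + n) _ ⟨y, hy, rfl⟩).1]
      simp [zpow_one_add]
    · push Not at hx
      rw [(hc2 x hx).1, (hc2 _ _).1]
      rintro n ⟨y, hy, e⟩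
      refine hx (-1 + n) ⟨y, hy, ?_⟩
      rw [zpow_add, zpow_neg_one, Equiv.Perm.mul_apply, e]; simp
  have hmem : c ∈ Set.range fun n : ℤ => g ^ n := by
    rw [← htriv]; exact ⟨hc, hcomm⟩
  obtain ⟨n, hn⟩ := hmem
  have hS0 : ∀ x ∈ S, (g ^ n) x = M.ξ t x := fun x hx => by
    have := (hc1 0 x ⟨x, hx, by simp⟩).1
    simpa [← hn] using this
  have hin : (g ^ n) x₀ ∈ S := by rw [hS0 x₀ hx₀]; exact perm_mapsTo_of_supp (M.ξ_supp t) hx₀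
  rcases lt_trichotomy n 0 with h | h | h
  · apply hwz (-n) (by omega) _ hin
    simpa using hx₀
  · apply M.ξ_ne t ht0.ne'
    ext1 x
    by_cases hx : x ∈ S
    · rw [← hS0 x hx, h]; rfl
    · exact M.ξ_supp t x hx
  · exact hwz n h x₀ hx₀ hin

lemma core {f : Equiv.Perm T} (hf : f ∈ O) {p r : T} (hpr : p ≠ r) {P Q : E ≃L[ℝ] ℂ}
    {A B : E →L[ℝ] E} {a b ρ₁ ρ₂ : ℝ} (hρ₁ : 0 < ρ₁) (hρ₂ : 0 < ρ₂) (hA : Lin f p P A ρ₁)
    (hB : Lin f⁻¹ r Q B ρ₂) (cA : ∀ v, ‖P (A v)‖ = a * ‖P v‖) (cB : ∀ v, ‖Q (B v)‖ = b * ‖Q v‖)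
    (ha0 : 0 < a) (ha : a < 1) (hb0 : 0 < b) (hb : b < 1) {x₀ : T} (hxp : x₀ ≠ p) (hxr : x₀ ≠ r)
    (h1 : Tendsto (fun n : ℕ => (f ^ n) x₀) atTop (𝓝 p))
    (h2 : Tendsto (fun n : ℕ => (f⁻¹ ^ n) x₀) atTop (𝓝 r)) {ε : ℝ} (hε : 0 < ε) :
    ∃ g ∈ O, Near g f ε ∧ ¬ TrivialCentralizer g := by
  obtain ⟨Wp, Wr, hWp, hWr, hpW, hrW, hW⟩ := t2_separation hpr
  obtain ⟨σ₁, ⟨⟨hσ₁W, hσ₁s⟩, hσ₁1⟩, hσ₁⟩ := ((((eventually_czone_subset P
    (inter_mem (hWp.mem_nhds hpW) (compl_singleton_mem_nhds hxp.symm))).and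
    (Iio_mem_nhds hρ₁)).filter_mono nhdsWithin_le_nhds).and
    (self_mem_nhdsWithin (a := (0 : ℝ)) (s := Ioi 0))).exists
  obtain ⟨σ₂, ⟨⟨hσ₂W, hσ₂s⟩, hσ₂1⟩, hσ₂⟩ := ((((eventually_czone_subset Q
    (inter_mem (hWr.mem_nhds hrW) (compl_singleton_mem_nhds hxr.symm))).and
    (Iio_mem_nhds hρ₂)).filter_mono nhdsWithin_le_nhds).and
    (self_mem_nhdsWithin (a := (0 : ℝ)) (s := Ioi 0))).exists
  have hσ₁ : 0 < σ₁ := hσ₁
  have hσ₂ : 0 < σ₂ := hσ₂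
  replace hA := hA.mono (le_of_lt hσ₁1)
  replace hB := hB.mono (le_of_lt hσ₂1)
  obtain ⟨m₁, τ₁, hτ₁, hτ₁', hV₁⟩ := exists_annulus hf.1 ((hA.contr cA).fixed hσ₁) P hσ₁ ha0 ha
    hxp h1
  obtain ⟨m₂, τ₂, hτ₂, hτ₂', hV₂⟩ := exists_annulus (inv_mem_Diff1 hf.1)
    ((hB.contr cB).fixed hσ₂) Q hσ₂ hb0 hb hxr h2
  have sub₁ : czone p P τ₁ ⊆ czone p P σ₁ :=
    (czone_subset_zone p P hτ₁').trans (zone_subset_czone p P le_rfl)
  have sub₂ : czone r Q τ₂ ⊆ czone r Q σ₂ :=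
    (czone_subset_zone r Q hτ₂').trans (zone_subset_czone r Q le_rfl)
  have hV₃ : (czone p P τ₁)ᶜ ∈ 𝓝 x₀ :=
    (isClosed_czone _ _ _).isOpen_compl.mem_nhds fun hc => (hσ₁W (sub₁ hc)).2 rfl
  have hV₄ : (czone r Q τ₂)ᶜ ∈ 𝓝 x₀ :=
    (isClosed_czone _ _ _).isOpen_compl.mem_nhds fun hc => (hσ₂W (sub₂ hc)).2 rfl
  obtain ⟨S, hSV, hS, hx₀, ⟨M⟩⟩ := exists_model (inter_mem (inter_mem hV₁ hV₂) (inter_mem hV₃ hV₄))
  obtain ⟨f₃, hf₃, n₃, o₃, -, w₃, z₃, d₃⟩ := half hf hA cA ha0 ha hσ₁s hS M m₁ hτ₁ hτ₁'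
    (fun x hx => (hSV hx).1.1) (half_pos hε)
  have hB₃ : Lin f₃⁻¹ r Q B σ₂ := hB.of_inv_modify cB hb.le (K := czone p P τ₁)
    (by simpa only [inv_inv] using o₃) fun x hx hx' =>
      Set.disjoint_left.1 hW (hσ₁W (sub₁ hx')).1 (hσ₂W (zone_subset_czone r Q le_rfl hx)).1
  obtain ⟨δ, hδ, Hδ⟩ := near_inv (inv_mem_Diff1 hf₃.1) (half_pos hε)
  obtain ⟨F₄, hF₄, n₄, o₄, -, -, z₄, d₄⟩ := half (inv_mem_O hf₃) hB₃ cB hb0 hb hσ₂s hS M m₂ hτ₂ hτ₂'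
    (fun x hx => by
      rw [inv_pow_eq_of_notMem ((hA.contr cA).mapsTo ha.le hτ₁') o₃ m₂ (hSV hx).2.1]
      exact (hSV hx).1.2) hδ
  have hfw : ∀ n : ℕ, ∀ x ∈ S, (F₄⁻¹ ^ n) x = (f₃ ^ n) x := fun n x hx => by
    rw [inv_pow_eq_of_notMem ((hB₃.contr cB).mapsTo hb.le hτ₂') o₄ n (hSV hx).2.2, inv_inv]
  have hneg : ∀ n : ℕ, F₄⁻¹ ^ (-(n : ℤ)) = F₄ ^ n := fun n => by simp
  refine ⟨F₄⁻¹, inv_mem_O hF₄, ?_, not_trivial_of_model (inv_mem_Diff1 hF₄.1) hS hx₀ M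
    (fun i hi x hx => by rw [hfw i x hx]; exact w₃ i hi x hx) ?_ fun t η hη => ?_⟩
  · have := Hδ F₄ hF₄.1 n₄
    rw [inv_inv] at this
    simpa using this.trans n₃
  · apply eventually_cofinite_int
    · filter_upwards [z₃] with n hn x hx y hy
      rw [zpow_natCast, hfw n x hx, hfw n y hy]
      have a1 := dist_le_of_mem_czone (sub₁ (hn x hx))
      have a2 := dist_le_of_mem_czone (sub₁ (hn y hy))
      linarith [dist_triangle_right ((f₃ ^ n) x) ((f₃ ^ n) y) p]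
    · filter_upwards [z₄] with n hn x hx y hy
      rw [hneg]
      have a1 := dist_le_of_mem_czone (sub₂ (hn x hx))
      have a2 := dist_le_of_mem_czone (sub₂ (hn y hy))
      linarith [dist_triangle_right ((F₄ ^ n) x) ((F₄ ^ n) y) r]
  · apply eventually_cofinite_int
    · filter_upwards [d₃ t η hη] with n hn
      rwa [zpow_natCast, conj_congr (M.ξ_supp t) (hfw n)]
    · filter_upwards [d₄ t η hη] with n hn
      rwa [hneg]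

theorem exists_nontrivial_near {f : Equiv.Perm T} (hf : f ∈ O) {p r : T} (hpr : p ≠ r)
    (hp : f p = p) (hr : f⁻¹ r = r) {P Q : E ≃L[ℝ] ℂ} {a b : ℝ}
    (cA : ∀ v, ‖P (D f p v)‖ = a * ‖P v‖)
    (cB : ∀ v, ‖Q (D (f⁻¹ : Equiv.Perm T) r v)‖ = b * ‖Q v‖)
    (ha0 : 0 < a) (ha : a < 1) (hb0 : 0 < b) (hb : b < 1) {x₀ : T}
    (h1 : Tendsto (fun n : ℕ => (f ^ n) x₀) atTop (𝓝 p))
    (h2 : Tendsto (fun n : ℕ => (f⁻¹ ^ n) x₀) atTop (𝓝 r)) {ε : ℝ} (hε : 0 < ε) :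
    ∃ g ∈ O, Near g f ε ∧ ¬ TrivialCentralizer g := by
  have hfix : ∀ (g : Equiv.Perm T) (q : T), g q = q → ∀ n : ℕ, (g ^ n) q = q := by
    intro g q h n
    have : (g ^ n) q ∈ orbit g q := ⟨n, by simp⟩
    rwa [orbit_fixed h] at this
  have hr' : f r = r := (Equiv.Perm.inv_eq_iff_eq.1 hr).symm
  have hp' : f⁻¹ p = p := Equiv.Perm.inv_eq_iff_eq.2 hp.symm
  have hxp : x₀ ≠ p := by
    rintro rfl
    simp only [hfix _ _ hp'] at h2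
    exact hpr (tendsto_nhds_unique tendsto_const_nhds h2)
  have hxr : x₀ ≠ r := by
    rintro rfl
    simp only [hfix _ _ hr'] at h1
    exact hpr (tendsto_nhds_unique h1 tendsto_const_nhds)
  have hε3 : 0 < ε / 3 := by positivity
  obtain ⟨f₁, hf₁, n₁, K₁, hK₁W, hK₁, hK₁p, o₁, m₁, at₁, ρ₁, hρ₁, l₁⟩ := linearize hf hp ha0.le ha
    cA hε3 (inter_mem (compl_singleton_mem_nhds hpr) (compl_singleton_mem_nhds hxp.symm))
  have hrK : r ∉ K₁ := fun hc => (hK₁W hc).1 rfl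
  have hxK : x₀ ∉ K₁ := fun hc => (hK₁W hc).2 rfl
  have hag := agree_inv hf.1 hf₁.1 (Λ := {r}) (by rintro _ rfl; exact hr)
    (by
      rintro x rfl
      exact ⟨o₁ x hrK, D_congr (by
        filter_upwards [hK₁.isOpen_compl.mem_nhds hrK] with y hy using o₁ y hy)⟩) rfl
  have h1' := tendsto_of_modify hK₁p o₁ at₁ h1
  have h2' : Tendsto (fun n : ℕ => (f₁⁻¹ ^ n) x₀) atTop (𝓝 r) := by
    simpa only [fun n => inv_pow_eq_of_notMem m₁ o₁ n hxK] using h2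
  obtain ⟨δ, hδ, Hδ⟩ := near_inv (inv_mem_Diff1 hf₁.1) hε3
  obtain ⟨F₂, hF₂, n₂, K₂, hK₂W, hK₂, hK₂r, o₂, m₂, at₂, ρ₂, hρ₂, l₂⟩ := linearize (inv_mem_O hf₁)
    (hag.1.trans hr) hb0.le hb (P := Q) (by rw [hag.2]; exact cB) hδ
    (inter_mem (compl_singleton_mem_nhds hpr.symm) (compl_singleton_mem_nhds hxr.symm))
  have hpK : p ∉ K₂ := fun hc => (hK₂W hc).1 rfl
  have hxK₂ : x₀ ∉ K₂ := fun hc => (hK₂W hc).2 rfl
  obtain ⟨σ, ⟨⟨hσW, -⟩, hσ1⟩, hσ⟩ := ((((eventually_czone_subset P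
    (hK₂.isOpen_compl.mem_nhds hpK)).and (Iio_mem_nhds hρ₁)).filter_mono nhdsWithin_le_nhds).and
    (self_mem_nhdsWithin (a := (0 : ℝ)) (s := Ioi 0))).exists
  have l₁' : Lin F₂⁻¹ p P (D f p) σ := (l₁.mono (le_of_lt hσ1)).of_inv_modify cA ha.le o₂
    fun x hx => hσW (zone_subset_czone p P le_rfl hx)
  rw [hag.2] at l₂
  obtain ⟨g, hg, ng, hgc⟩ := core (inv_mem_O hF₂) hpr hσ hρ₂ l₁' (by rwa [inv_inv]) cA cB ha0 ha
    hb0 hb hxp hxr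
    (by simpa only [fun n => inv_pow_eq_of_notMem m₂ o₂ n hxK₂, inv_inv] using h1')
    (by rw [inv_inv]; exact tendsto_of_modify hK₂r o₂ at₂ h2') hε3
  refine ⟨g, hg, ?_, hgc⟩
  have := Hδ F₂ hF₂.1 n₂
  rw [inv_inv] at this
  exact ((ng.trans this).trans n₁).mono (by linarith)

end Pool.Agent.Lib.MP_fe72db_an
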