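import Pool.Agent.Lib.MP_fe72db_an.Perturb

/-! Sinks with nonreal eigenvalues and their basins persist under `C^1` perturbations. -/

open Filter Topology Set Metric

namespace Pool.Agent.Lib.MP_fe72db_an

/-- The real linear isomorphism `(x, y) ↦ (d x + s y) + i ω y`. -/
noncomputable def confEquiv (d s ω : ℝ) (hd : d ≠ 0) (hω : ω ≠ 0) : E ≃L[ℝ] ℂ :=
  LinearEquiv.toContinuousLinearEquiv
    { toFun := fun v => ⟨d * v.1 + s * v.2, ω * v.2⟩
      invFun := fun z => ((z.re - s * (z.im / ω)) / d, z.im / ω)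
      map_add' := fun u v => by apply Complex.ext <;> simp <;> ring
      map_smul' := fun c v => by apply Complex.ext <;> simp <;> ring
      left_inv := fun v => by
        ext
        · simp; field_simp; ring
        · simp; field_simp
      right_inv := fun z => by
        apply Complex.ext
        · simp; field_simp; ring
        · simp; field_simp }

lemma confEquiv_apply (d s ω : ℝ) (hd : d ≠ 0) (hω : ω ≠ 0) (v : E) :
    confEquiv d s ω hd hω v = ⟨d * v.1 + s * v.2, ω * v.2⟩ := rfl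

/-- The determinant of a linear map of the plane. -/
def dt (A : E →L[ℝ] E) : ℝ := (A (1, 0)).1 * (A (0, 1)).2 - (A (0, 1)).1 * (A (1, 0)).2

/-- Nonreal eigenvalues inside the unit disc. -/
def Cplx (A : E →L[ℝ] E) : Prop := ((A (1, 0)).1 + (A (0, 1)).2) ^ 2 < 4 * dt A ∧ dt A < 1

lemma isOpen_Cplx : IsOpen {A | Cplx A} := by
  have h1 : Continuous dt := by unfold dt; fun_prop
  have h2 : Continuous fun A : E →L[ℝ] E => ((A (1, 0)).1 + (A (0, 1)).2) ^ 2 := by fun_prop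
  exact (isOpen_lt h2 (continuous_const.mul h1)).inter (isOpen_lt h1 continuous_const)

lemma apply_eq_comb (A : E →L[ℝ] E) (v : E) : A v = v.1 • A (1, 0) + v.2 • A (0, 1) := by
  rw [← map_smul, ← map_smul, ← map_add]; simp

lemma Cplx.exists_conf {A : E →L[ℝ] E} (h : Cplx A) :
    ∃ (P : E ≃L[ℝ] ℂ) (a : ℝ), 0 < a ∧ a < 1 ∧ ∀ v, ‖P (A v)‖ = a * ‖P v‖ := by
  obtain ⟨h1, h2⟩ := h
  unfold dt at h1 h2
  have hA := apply_eq_comb A
  set a := (A (1, 0)).1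
  set d := (A (1, 0)).2
  set c := (A (0, 1)).1
  set e := (A (0, 1)).2
  have hd : d ≠ 0 := by
    intro h0
    rw [h0] at h1
    nlinarith [sq_nonneg (a - e)]
  have hpos : 0 < a * e - c * d - ((a + e) / 2) ^ 2 := by nlinarith
  set ω := √(a * e - c * d - ((a + e) / 2) ^ 2) with hωdef
  have hω : 0 < ω := Real.sqrt_pos.2 hpos
  have hω2 : ω ^ 2 = a * e - c * d - ((a + e) / 2) ^ 2 := Real.sq_sqrt hpos.le
  set l : ℂ := ⟨(a + e) / 2, ω⟩
  have hl : ‖l‖ ^ 2 = a * e - c * d := by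
    rw [Complex.sq_norm, Complex.normSq_mk]; nlinarith
  refine ⟨confEquiv d ((e - a) / 2) ω hd hω.ne', ‖l‖, ?_, ?_, fun v => ?_⟩
  · rw [norm_pos_iff]
    intro h0
    exact hω.ne' (congrArg Complex.im h0)
  · nlinarith [norm_nonneg l]
  · rw [← norm_mul, confEquiv_apply, confEquiv_apply, hA v]
    congr 1
    apply Complex.ext
    · simp only [Prod.fst_add, Prod.snd_add, Prod.smul_fst, Prod.smul_snd, smul_eq_mul,
        Complex.mul_re, l]
      linear_combination v.2 * hω2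
    · simp only [Prod.snd_add, Prod.smul_snd, smul_eq_mul, Complex.mul_im, l]
      ring

lemma near_pow {f : Equiv.Perm T} (hf : f ∈ Diff1) (n : ℕ) {ε : ℝ} (hε : 0 < ε) :
    ∃ δ > 0, ∀ f' ∈ Diff1, Near f' f δ → Near (f' ^ n) (f ^ n) ε := by
  induction n generalizing ε with
  | zero => exact ⟨1, one_pos, fun _ _ _ => by simpa using near_refl 1 hε⟩
  | succ n ih =>
    obtain ⟨δ, hδ, H⟩ := near_mul (pow_mem_Diff1 hf n) hf hε
    obtain ⟨δ', hδ', H'⟩ := ih hδ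
    refine ⟨min δ δ', lt_min hδ hδ', fun f' hf' hn => ?_⟩
    rw [pow_succ, pow_succ]
    exact H _ (pow_mem_Diff1 hf' n) _ hf' (H' f' hf' (hn.mono (min_le_right _ _)))
      (hn.mono (min_le_left _ _))

lemma robust_sink {f₀ : Equiv.Perm T} (hf₀ : f₀ ∈ Diff1) {p₀ : T} (hp₀ : f₀ p₀ = p₀)
    (hA : Cplx (D f₀ p₀)) {V : Set T} (hV : V ∈ 𝓝 p₀) :
    ∃ W ∈ 𝓝 p₀, ∃ δ > 0, ∀ f ∈ Diff1, Near f f₀ δ → ∃ p ∈ V, f p = p ∧ Cplx (D f p) ∧
      ∀ x ∈ W, Tendsto (fun n : ℕ => (f ^ n) x) atTop (𝓝 p) := by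
  obtain ⟨P, a, ha0, ha, hconf⟩ := hA.exists_conf
  set A := D f₀ p₀ with hAdef
  obtain ⟨η₁, hη₁, hop⟩ := Metric.isOpen_iff.1 isOpen_Cplx A hA
  have hc0 := cst_nonneg P
  have hη₂ : 0 < (1 - a) / 2 / (cst P + 1) := by
    have : 0 < 1 - a := by linarith
    positivity
  set η := min η₁ ((1 - a) / 2 / (cst P + 1)) with hηdef
  have hη : 0 < η := lt_min hη₁ hη₂
  have hV' : {x | ‖D f₀ x - A‖ < η / 2} ∈ 𝓝 p₀ := by
    have hc : Continuous fun x => ‖D f₀ x - A‖ := (hf₀.1.continuous_D.sub continuous_const).norm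
    exact (hc.tendsto p₀).eventually_lt_const (by simpa [hAdef] using hη)
  obtain ⟨ρ, ⟨hρV, -⟩, hρ⟩ := (((eventually_czone_subset P (inter_mem hV hV')).filter_mono
    nhdsWithin_le_nhds).and (self_mem_nhdsWithin (a := (0 : ℝ)) (s := Ioi 0))).exists
  have hρ : 0 < ρ := hρ
  set N := ‖(P : E →L[ℝ] ℂ)‖ with hN
  have hN0 : 0 ≤ N := norm_nonneg _
  have hδ₂ : 0 < (1 - a) / 2 * ρ / (N + 1) := by
    have : 0 < 1 - a := by linarith
    positivity
  refine ⟨czone p₀ P ρ, czone_mem_nhds p₀ P hρ, min (η / 2) ((1 - a) / 2 * ρ / (N + 1)),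
    lt_min (half_pos hη) hδ₂, fun f hf hn => ?_⟩
  obtain ⟨G, hG, hG0, hGf, hGD⟩ := hf.1.exists_lift_at p₀
  set c := lift (f p₀ - p₀) with hc
  have hcn : ‖P c‖ ≤ (1 - a) / 2 * ρ := by
    have h1 : ‖c‖ ≤ (1 - a) / 2 * ρ / (N + 1) := by
      rw [hc, norm_lift_sub]
      have := (hn p₀).1
      rw [hp₀] at this
      exact this.le.trans (min_le_right _ _)
    calc ‖P c‖ ≤ N * ‖c‖ := norm_P_le P c
      _ ≤ (N + 1) * ((1 - a) / 2 * ρ / (N + 1)) := by gcongr; linarith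
      _ = _ := by field_simp
  set K : ℂ → ℂ := fun z => P (c + G (P.symm z)) with hK
  have hfK : ∀ z, f (p₀ + proj (P.symm z)) = p₀ + proj (P.symm (K z)) := by
    intro z
    rw [hGf, hK]
    simp only [ContinuousLinearEquiv.symm_apply_apply]
    rw [proj_add, ← add_assoc, hc, add_proj_lift_sub]
  have hclose : ∀ z ∈ closedBall (0 : ℂ) ρ, ‖D f (p₀ + proj (P.symm z)) - A‖ < η := by
    intro z hz
    have h1 : p₀ + proj (P.symm z) ∈ czone p₀ P ρ := ⟨P.symm z, by simpa using hz, rfl⟩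
    have h2 : ‖D f₀ (p₀ + proj (P.symm z)) - A‖ < η / 2 := (hρV h1).2
    have h3 := ((hn (p₀ + proj (P.symm z))).2).trans_le (min_le_left _ _)
    linarith [norm_sub_le_norm_sub_add_norm_sub (D f (p₀ + proj (P.symm z)))
      (D f₀ (p₀ + proj (P.symm z))) A]
  have hlip : ∀ z ∈ closedBall (0 : ℂ) ρ, ∀ z' ∈ closedBall (0 : ℂ) ρ,
      ‖K z - K z'‖ ≤ (1 + a) / 2 * ‖z - z'‖ := by
    intro z hz z' hz'
    have hd : ∀ y ∈ closedBall (0 : ℂ) ρ, HasFDerivWithinAt K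
        ((P : E →L[ℝ] ℂ).comp ((D f (p₀ + proj (P.symm y))).comp (P.symm : ℂ →L[ℝ] E)))
        (closedBall 0 ρ) y := fun y _ => by
      rw [← hGD]
      exact (P.hasFDerivAt.comp y ((((hG.differentiable one_ne_zero _).hasFDerivAt).comp y
        P.symm.hasFDerivAt).const_add c)).hasFDerivWithinAt
    refine (convex_closedBall 0 ρ).norm_image_sub_le_of_norm_hasFDerivWithin_le hd ?_ hz' hz
    intro y hy
    refine ContinuousLinearMap.opNorm_le_bound _ (by linarith) fun w => ?_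
    set B := D f (p₀ + proj (P.symm y))
    have e : P (B (P.symm w)) = P (A (P.symm w)) + P ((B - A) (P.symm w)) := by simp
    have h5 : ‖P ((B - A) (P.symm w))‖ ≤ (1 - a) / 2 * ‖w‖ := by
      have h6 : ‖B - A‖ ≤ (1 - a) / 2 / (cst P + 1) := (hclose y hy).le.trans (min_le_right _ _)
      have h7 : ‖P.symm w‖ ≤ inm P * ‖w‖ := by simpa using norm_le_inm P (P.symm w)
      calc _ ≤ N * ((1 - a) / 2 / (cst P + 1) * (inm P * ‖w‖)) :=
          (norm_P_le P _).trans (mul_le_mul_of_nonneg_left (((B - A).le_opNorm _).trans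
            (mul_le_mul h6 h7 (norm_nonneg _) hη₂.le)) hN0)
        _ = (1 - a) / 2 * (cst P / (cst P + 1)) * ‖w‖ := by unfold cst inm; ring
        _ ≤ (1 - a) / 2 * 1 * ‖w‖ := by
          have h7 : 0 ≤ (1 - a) / 2 := by linarith
          gcongr
          rw [div_le_one (by linarith)]; linarith
        _ = _ := by ring
    change ‖P (B (P.symm w))‖ ≤ _
    rw [e]
    refine (norm_add_le _ _).trans ?_
    rw [hconf, ContinuousLinearEquiv.apply_symm_apply]; linarith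
  have hK0 : K 0 = P c := by simp [hK, hG0]
  have hmaps : MapsTo K (closedBall 0 ρ) (closedBall 0 ρ) := by
    intro z hz
    have h1 := hlip z hz 0 (mem_closedBall_self hρ.le)
    rw [hK0, sub_zero] at h1
    rw [mem_closedBall_zero_iff] at hz ⊢
    have h2 := norm_add_le (P c) (K z - P c)
    rw [add_sub_cancel] at h2
    nlinarith
  have hκ0 : 0 ≤ (1 + a) / 2 := by linarith
  have hcon : ContractingWith ⟨(1 + a) / 2, hκ0⟩ (hmaps.restrict K _ _) := by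
    refine ⟨by change (1 + a) / 2 < 1; linarith, LipschitzWith.of_dist_le_mul ?_⟩
    rintro ⟨z, hz⟩ ⟨z', hz'⟩
    rw [Subtype.dist_eq, Subtype.dist_eq, dist_eq_norm, dist_eq_norm]
    exact hlip z hz z' hz'
  have hfix := fun (z : ℂ) (hz : z ∈ closedBall (0 : ℂ) ρ) =>
    hcon.exists_fixedPoint' (isClosed_closedBall.isComplete) hmaps hz (edist_ne_top _ _)
  obtain ⟨y, hy, hyf, -, -⟩ := hfix 0 (mem_closedBall_self hρ.le)
  have hycz : p₀ + proj (P.symm y) ∈ czone p₀ P ρ := ⟨P.symm y, by simpa using hy, rfl⟩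
  refine ⟨p₀ + proj (P.symm y), (hρV hycz).1, by rw [hfK, hyf.eq], hop ?_, ?_⟩
  · rw [mem_ball, dist_eq_norm]
    exact (hclose y hy).trans_le (min_le_left _ _)
  · rintro _ ⟨v, hv, rfl⟩
    obtain ⟨y', hy', hyf', ht, -⟩ := hfix (P v) (by simpa using hv)
    have e : y' = y := by
      have h1 := hlip y' hy' y hy
      rw [hyf.eq, hyf'.eq] at h1
      have h2 : ‖y' - y‖ ≤ 0 := by nlinarith [norm_nonneg (y' - y)]
      exact sub_eq_zero.1 (norm_le_zero_iff.1 h2)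
    subst e
    have hit : ∀ n : ℕ, (f ^ n) (p₀ + proj v) = p₀ + proj (P.symm (K^[n] (P v))) := by
      intro n
      induction n with
      | zero => simp
      | succ n ih => rw [pow_succ', Equiv.Perm.mul_apply, ih, hfK, Function.iterate_succ_apply']
    simp only [hit]
    have hcont : Continuous fun z => p₀ + proj (P.symm z) :=
      continuous_const.add (continuous_proj.comp P.symm.continuous)
    exact (hcont.tendsto _).comp ht

lemma robust_basin {f₀ : Equiv.Perm T} (hf₀ : f₀ ∈ Diff1) {p₀ : T} (hp₀ : f₀ p₀ = p₀)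
    (hA : Cplx (D f₀ p₀)) {V : Set T} (hV : V ∈ 𝓝 p₀) {x₀ : T}
    (hx : Tendsto (fun n : ℕ => (f₀ ^ n) x₀) atTop (𝓝 p₀)) :
    ∃ δ > 0, ∀ f ∈ Diff1, Near f f₀ δ → ∃ p ∈ V, f p = p ∧ Cplx (D f p) ∧
      Tendsto (fun n : ℕ => (f ^ n) x₀) atTop (𝓝 p) := by
  obtain ⟨W, hW, δ, hδ, H⟩ := robust_sink hf₀ hp₀ hA hV
  obtain ⟨r, hr, hrW⟩ := Metric.mem_nhds_iff.1 hW
  obtain ⟨m, hm⟩ := (hx.eventually (ball_mem_nhds p₀ (half_pos hr))).exists
  obtain ⟨δ', hδ', H'⟩ := near_pow hf₀ m (half_pos hr)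
  refine ⟨min δ δ', lt_min hδ hδ', fun f hf hn => ?_⟩
  obtain ⟨p, hpV, hp, hc, ht⟩ := H f hf (hn.mono (min_le_left _ _))
  refine ⟨p, hpV, hp, hc, ?_⟩
  have h1 : (f ^ m) x₀ ∈ W := by
    apply hrW
    have h2 := (H' f hf (hn.mono (min_le_right _ _)) x₀).1
    have h3 : dist ((f₀ ^ m) x₀) p₀ < r / 2 := hm
    rw [mem_ball]
    linarith [dist_triangle ((f ^ m) x₀) ((f₀ ^ m) x₀) p₀]
  rw [← tendsto_add_atTop_iff_nat m]
  simpa only [pow_add, Equiv.Perm.mul_apply] using ht _ h1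

/-- Near a diffeomorphism with a source connected to a sink, both with nonreal eigenvalues,
diffeomorphisms in `O` with nontrivial centralizer are dense in `O`. -/
theorem robust {f₀ : Equiv.Perm T} (hf₀ : f₀ ∈ Diff1) {p₀ r₀ : T} (hpr : p₀ ≠ r₀)
    (hp₀ : f₀ p₀ = p₀) (hr₀ : f₀⁻¹ r₀ = r₀) (hA : Cplx (D f₀ p₀))
    (hB : Cplx (D (f₀⁻¹ : Equiv.Perm T) r₀)) {x₀ : T}
    (h1 : Tendsto (fun n : ℕ => (f₀ ^ n) x₀) atTop (𝓝 p₀))
    (h2 : Tendsto (fun n : ℕ => (f₀⁻¹ ^ n) x₀) atTop (𝓝 r₀)) :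
    ∃ δ > 0, ∀ f ∈ O, Near f f₀ δ → ∀ ε > 0, ∃ g ∈ O, Near g f ε ∧ ¬ TrivialCentralizer g := by
  obtain ⟨V₁, V₂, hV₁, hV₂, hp, hr, hV⟩ := t2_separation hpr
  obtain ⟨δ₁, hδ₁, H₁⟩ := robust_basin hf₀ hp₀ hA (hV₁.mem_nhds hp) h1
  obtain ⟨δ₂, hδ₂, H₂⟩ := robust_basin (inv_mem_Diff1 hf₀) hr₀ hB (hV₂.mem_nhds hr) h2
  obtain ⟨δ₃, hδ₃, H₃⟩ := near_inv hf₀ hδ₂
  refine ⟨min δ₁ δ₃, lt_min hδ₁ hδ₃, fun f hf hn ε hε => ?_⟩
  obtain ⟨p, hpV, hp, hc, ht⟩ := H₁ f hf.1 (hn.mono (min_le_left _ _))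
  obtain ⟨r, hrV, hr, hc', ht'⟩ := H₂ f⁻¹ (inv_mem_Diff1 hf.1)
    (H₃ f hf.1 (hn.mono (min_le_right _ _)))
  obtain ⟨P, a, ha0, ha, cA⟩ := hc.exists_conf
  obtain ⟨Q, b, hb0, hb, cB⟩ := hc'.exists_conf
  exact exists_nontrivial_near hf (fun e : p = r => Set.disjoint_left.1 hV hpV (e ▸ hrV)) hp hr cA cB
    ha0 ha hb0 hb ht ht' hε

end Pool.Agent.Lib.MP_fe72db_an
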