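import Pool.Agent.Lib.MP_fe72db_an.Transfer
import Pool.Agent.Lib.MP_fe72db_an.Glue

/-! Perturbations near a conformal sink: linearisation. -/

open Filter Topology Set Metric

namespace Pool.Agent.Lib.MP_fe72db_an

/-- Open adapted ball. -/
def zone (p : T) (P : E ≃L[ℝ] ℂ) (ρ : ℝ) : Set T := {x | ∃ v, ‖P v‖ < ρ ∧ x = p + proj v}

/-- Closed adapted ball. -/
def czone (p : T) (P : E ≃L[ℝ] ℂ) (ρ : ℝ) : Set T := {x | ∃ v, ‖P v‖ ≤ ρ ∧ x = p + proj v}

/-- Distortion constant of the adapted coordinates. -/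
noncomputable def cst (P : E ≃L[ℝ] ℂ) : ℝ := ‖(P : E →L[ℝ] ℂ)‖ * ‖(P.symm : ℂ →L[ℝ] E)‖

/-- Norm of the inverse of the adapted coordinates. -/
noncomputable def inm (P : E ≃L[ℝ] ℂ) : ℝ := ‖(P.symm : ℂ →L[ℝ] E)‖

lemma inm_nonneg (P : E ≃L[ℝ] ℂ) : 0 ≤ inm P := norm_nonneg _

lemma cst_nonneg (P : E ≃L[ℝ] ℂ) : 0 ≤ cst P := mul_nonneg (norm_nonneg _) (norm_nonneg _)

lemma norm_le_inm (P : E ≃L[ℝ] ℂ) (v : E) : ‖v‖ ≤ inm P * ‖P v‖ := by
  simpa [inm] using (P.symm : ℂ →L[ℝ] E).le_opNorm (P v)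

lemma norm_P_le (P : E ≃L[ℝ] ℂ) (v : E) : ‖P v‖ ≤ ‖(P : E →L[ℝ] ℂ)‖ * ‖v‖ :=
  (P : E →L[ℝ] ℂ).le_opNorm v

lemma norm_le_of_P {P : E ≃L[ℝ] ℂ} {ρ : ℝ} {v : E} (h : ‖P v‖ ≤ ρ) : ‖v‖ ≤ ρ * inm P :=
  (norm_le_inm P v).trans (by rw [mul_comm]; exact mul_le_mul_of_nonneg_right h (inm_nonneg P))

lemma isOpen_zone (p : T) (P : E ≃L[ℝ] ℂ) (ρ : ℝ) : IsOpen (zone p P ρ) := by
  have : zone p P ρ = (fun x => p + x) '' (proj '' {v | ‖P v‖ < ρ}) := by
    ext x; simp only [zone, mem_ofPred_eq, mem_image]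
    constructor
    · rintro ⟨v, hv, rfl⟩; exact ⟨_, ⟨v, hv, rfl⟩, rfl⟩
    · rintro ⟨_, ⟨v, hv, rfl⟩, rfl⟩; exact ⟨v, hv, rfl⟩
  rw [this]
  exact isOpenMap_add_left p _ (isOpenMap_proj _ (isOpen_lt (by fun_prop) continuous_const))

lemma isClosed_czone (p : T) (P : E ≃L[ℝ] ℂ) (ρ : ℝ) : IsClosed (czone p P ρ) := by
  have : czone p P ρ = (fun z => p + proj (P.symm z)) '' closedBall 0 ρ := by
    ext x; simp only [czone, mem_ofPred_eq, mem_image, mem_closedBall_zero_iff]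
    constructor
    · rintro ⟨v, hv, rfl⟩; exact ⟨P v, hv, by simp⟩
    · rintro ⟨z, hz, rfl⟩; exact ⟨P.symm z, by simpa using hz, rfl⟩
  rw [this]
  exact ((isCompact_closedBall _ _).image
    (continuous_const.add (continuous_proj.comp P.symm.continuous))).isClosed

lemma czone_subset_zone (p : T) (P : E ≃L[ℝ] ℂ) {ρ₁ ρ : ℝ} (h : ρ₁ < ρ) :
    czone p P ρ₁ ⊆ zone p P ρ := fun _ ⟨v, hv, e⟩ => ⟨v, hv.trans_lt h, e⟩

lemma zone_subset_czone (p : T) (P : E ≃L[ℝ] ℂ) {ρ₁ ρ : ℝ} (h : ρ₁ ≤ ρ) :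
    zone p P ρ₁ ⊆ czone p P ρ := fun _ ⟨v, hv, e⟩ => ⟨v, hv.le.trans h, e⟩

lemma mem_zone_self (p : T) (P : E ≃L[ℝ] ℂ) {ρ : ℝ} (h : 0 < ρ) : p ∈ zone p P ρ :=
  ⟨0, by simpa using h, by simp⟩

lemma czone_mem_nhds (p : T) (P : E ≃L[ℝ] ℂ) {ρ : ℝ} (h : 0 < ρ) : czone p P ρ ∈ 𝓝 p :=
  mem_of_superset ((isOpen_zone p P ρ).mem_nhds (mem_zone_self p P h)) (zone_subset_czone p P le_rfl)

lemma dist_le_of_mem_czone {p : T} {P : E ≃L[ℝ] ℂ} {ρ : ℝ} {x : T} (h : x ∈ czone p P ρ) :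
    dist x p ≤ ρ * inm P := by
  obtain ⟨v, hv, rfl⟩ := h
  exact (dist_add_proj_le p v).trans (norm_le_of_P hv)

lemma eventually_czone_subset {p : T} (P : E ≃L[ℝ] ℂ) {W : Set T} (hW : W ∈ 𝓝 p) :
    ∀ᶠ ρ in 𝓝 (0 : ℝ), czone p P ρ ⊆ W ∧ ρ * inm P < 1 / 4 := by
  obtain ⟨r, hr, h⟩ := Metric.mem_nhds_iff.1 hW
  have hc : Tendsto (fun ρ : ℝ => ρ * inm P) (𝓝 0) (𝓝 0) := by
    have : Continuous fun ρ : ℝ => ρ * inm P := by fun_prop
    simpa using this.tendsto 0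
  filter_upwards [hc.eventually_lt_const hr, hc.eventually_lt_const (show (0 : ℝ) < 1 / 4 by
    norm_num)] with ρ h1 h2
  exact ⟨fun x hx => h ((dist_le_of_mem_czone hx).trans_lt h1), h2⟩

/-- Contraction towards `p` in the adapted norm. -/
def Contr (f : Equiv.Perm T) (p : T) (P : E ≃L[ℝ] ℂ) (ρ κ : ℝ) : Prop :=
  ∀ v, ‖P v‖ < ρ → ∃ w, f (p + proj v) = p + proj w ∧ ‖P w‖ ≤ κ * ‖P v‖

section contr

variable {f : Equiv.Perm T} {p : T} {P : E ≃L[ℝ] ℂ} {ρ κ : ℝ}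

lemma Contr.mono (h : Contr f p P ρ κ) {ρ' : ℝ} (h' : ρ' ≤ ρ) : Contr f p P ρ' κ :=
  fun v hv => h v (hv.trans_le h')

lemma Contr.fixed (h : Contr f p P ρ κ) (hρ : 0 < ρ) : f p = p := by
  obtain ⟨w, hw, hw'⟩ := h 0 (by simpa using hρ)
  have : w = 0 := by simpa using hw'
  simpa [this] using hw

lemma Contr.mapsTo (h : Contr f p P ρ κ) (hκ : κ ≤ 1) {ρ₁ : ℝ} (h1 : ρ₁ < ρ) :
    MapsTo f (czone p P ρ₁) (czone p P ρ₁) := by
  rintro _ ⟨v, hv, rfl⟩
  obtain ⟨w, hw, hw'⟩ := h v (hv.trans_lt h1)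
  exact ⟨w, hw'.trans ((mul_le_of_le_one_left (norm_nonneg _) hκ).trans hv), hw⟩

lemma Contr.pow (h : Contr f p P ρ κ) (h0 : 0 ≤ κ) (hκ : κ ≤ 1) (n : ℕ) :
    Contr (f ^ n) p P ρ (κ ^ n) := by
  intro v hv
  induction n with
  | zero => exact ⟨v, rfl, by simp⟩
  | succ n ih =>
    obtain ⟨w, hw, hw'⟩ := ih
    have : ‖P w‖ < ρ :=
      (hw'.trans (mul_le_of_le_one_left (norm_nonneg _) (pow_le_one₀ h0 hκ))).trans_lt hv
    obtain ⟨u, hu, hu'⟩ := h w this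
    refine ⟨u, by rw [pow_succ', Equiv.Perm.mul_apply, hw, hu], hu'.trans ?_⟩
    rw [pow_succ', mul_assoc]
    exact mul_le_mul_of_nonneg_left hw' h0

lemma Contr.attr (h : Contr f p P ρ κ) (h0 : 0 ≤ κ) (hκ : κ < 1) : Attr f p (zone p P ρ) := by
  intro ε hε
  have ht : Tendsto (fun n : ℕ => κ ^ n * ρ * inm P) atTop (𝓝 0) := by
    simpa using ((tendsto_pow_atTop_nhds_zero_of_lt_one h0 hκ).mul_const ρ).mul_const (inm P)
  filter_upwards [ht.eventually_lt_const hε] with n hn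
  rintro _ ⟨v, hv, rfl⟩
  obtain ⟨w, hw, hw'⟩ := h.pow h0 hκ.le n v hv
  rw [hw]
  refine ((dist_add_proj_le p w).trans (norm_le_of_P (hw'.trans ?_))).trans_lt hn
  exact mul_le_mul_of_nonneg_left hv.le (pow_nonneg h0 n)

end contr

lemma exists_contr {f : Equiv.Perm T} (hf : f ∈ Diff1) {p : T} (hp : f p = p) {P : E ≃L[ℝ] ℂ}
    {a : ℝ} (ha : a < 1) (hconf : ∀ v, ‖P (D f p v)‖ = a * ‖P v‖) :
    ∃ ρ > 0, Contr f p P ρ ((1 + a) / 2) := by
  obtain ⟨G, hG, hG0, hGf, hGD⟩ := hf.1.exists_lift_at p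
  have hd : HasFDerivAt G (D f p) 0 := by
    have := (hG.differentiable one_ne_zero 0).hasFDerivAt
    rwa [hGD, proj_zero, add_zero] at this
  have hη : 0 < (1 - a) / 2 / (cst P + 1) := by
    have := cst_nonneg P
    have : 0 < 1 - a := by linarith
    positivity
  have h1 := hd.isLittleO.bound hη
  simp only [hG0, sub_zero] at h1
  have h2 : Tendsto P.symm (𝓝 0) (𝓝 0) := by simpa using P.symm.continuous.tendsto 0
  obtain ⟨ρ, hρ, h3⟩ := Metric.eventually_nhds_iff.1 (h2.eventually h1)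
  refine ⟨ρ, hρ, fun v hv => ⟨G v, by rw [hGf, hp], ?_⟩⟩
  have h4 := h3 (y := P v) (by simpa using hv)
  simp only [ContinuousLinearEquiv.symm_apply_apply] at h4
  have h5 : ‖P (G v - D f p v)‖ ≤ (1 - a) / 2 * ‖P v‖ := by
    calc _ ≤ ‖(P : E →L[ℝ] ℂ)‖ * ((1 - a) / 2 / (cst P + 1) * (inm P * ‖P v‖)) :=
          (norm_P_le P _).trans (mul_le_mul_of_nonneg_left
            (h4.trans (mul_le_mul_of_nonneg_left (norm_le_inm P v) hη.le)) (norm_nonneg _))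
      _ = (1 - a) / 2 * (cst P / (cst P + 1)) * ‖P v‖ := by unfold cst inm; ring
      _ ≤ (1 - a) / 2 * 1 * ‖P v‖ := by
          have := cst_nonneg P
          have h7 : 0 ≤ (1 - a) / 2 := by linarith
          gcongr
          rw [div_le_one (by linarith)]; linarith
      _ = _ := by ring
  have h6 : P (G v) = P (D f p v) + P (G v - D f p v) := by simp
  rw [h6]
  refine (norm_add_le _ _).trans ?_
  rw [hconf]; linarith

lemma exists_lift_small {h : Equiv.Perm T} (hh : h ∈ Diff1) {p : T} (hp : h p = p) {η : ℝ}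
    (hη : ∀ x, ‖D h x - 1‖ ≤ η) (v : E) :
    ∃ w, h (p + proj v) = p + proj w ∧ ‖w - v‖ ≤ η * ‖v‖ := by
  obtain ⟨G, hG, hG0, hGf, hGD⟩ := hh.1.exists_lift_at p
  refine ⟨G v, by rw [hGf, hp], ?_⟩
  have hd : ∀ z ∈ (univ : Set E), HasFDerivWithinAt (fun z => G z - z) (D h (p + proj z) - 1)
      univ z := fun z _ => by
    rw [← hGD]
    exact (((hG.differentiable one_ne_zero z).hasFDerivAt).sub (hasFDerivAt_id z)).hasFDerivWithinAt
  have := convex_univ.norm_image_sub_le_of_norm_hasFDerivWithin_le hd (fun z _ => hη _)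
    (mem_univ 0) (mem_univ v)
  simpa [hG0] using this

lemma near_one_of_D {h : Equiv.Perm T} (hh : h ∈ Diff1) {p : T} (hp : h p = p) {η δ : ℝ}
    (hη : ∀ x, ‖D h x - 1‖ ≤ η) (hδ : η < δ) : Near h 1 δ := by
  intro x
  refine ⟨?_, by rw [D_one]; exact (hη x).trans_lt hδ⟩
  obtain ⟨w, hw, hw'⟩ := exists_lift_small hh hp hη (lift (x - p))
  rw [add_proj_lift_sub] at hw
  have e : h x = x + proj (w - lift (x - p)) := by rw [hw, proj_sub, proj_lift]; abel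
  have h0 : 0 ≤ η := (norm_nonneg _).trans (hη x)
  rw [e]
  refine ((dist_add_proj_le _ _).trans (hw'.trans ?_)).trans_lt hδ
  exact mul_le_of_le_one_right h0 ((norm_lift_le _).trans (by norm_num))

/-- A small perturbation supported near a contracting fixed point stays in `O`. -/
lemma perturb_sink {f : Equiv.Perm T} (hf : f ∈ O) {p : T} {P : E ≃L[ℝ] ℂ} {ρ κ ρ₁ : ℝ}
    (hc : Contr f p P ρ κ) (h0 : 0 ≤ κ) (hκ : κ < 1) (h1 : 0 < ρ₁) (h2 : ρ₁ < ρ)
    (hsm : ρ * inm P < 1 / 4) :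
    ∃ η > 0, ∀ h ∈ Diff1, (∀ x, x ∉ czone p P ρ₁ → h x = x) → h p = p → D h p = 1 →
      (∀ x, ‖D h x - 1‖ ≤ η) →
      f * h ∈ O ∧ Attr (f * h) p (zone p P ρ) ∧ MapsTo (f * h) (czone p P ρ₁) (czone p P ρ₁) := by
  have ht : Tendsto (fun η : ℝ => 1 + η * cst P) (𝓝 0) (𝓝 1) := by
    have : Continuous fun η : ℝ => 1 + η * cst P := by fun_prop
    simpa using this.tendsto 0
  have e1 := (ht.const_mul κ).eventually_lt_const (by simpa using hκ)
  have e2 := (ht.mul_const ρ₁).eventually_lt_const (by simpa using h2)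
  obtain ⟨η, ⟨hη1, hη2⟩, hη⟩ := (((e1.and e2).filter_mono nhdsWithin_le_nhds).and
    (self_mem_nhdsWithin (a := (0 : ℝ)) (s := Ioi 0))).exists
  have hη0 : 0 < η := hη
  have hθ : 1 ≤ 1 + η * cst P := by linarith [mul_nonneg hη0.le (cst_nonneg P)]
  refine ⟨η, hη0, fun h hh hsupp hp hDp hD => ?_⟩
  have hc' : Contr (f * h) p P ρ (κ * (1 + η * cst P)) := by
    intro v hv
    by_cases hK : p + proj v ∈ czone p P ρ₁
    · obtain ⟨v', hv', e⟩ := hK
      have : v = v' := by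
        apply proj_injOn (add_left_cancel e)
        have a1 := norm_le_of_P hv.le
        have a2 := norm_le_of_P (hv'.trans h2.le)
        linarith [norm_sub_le v v']
      subst this
      obtain ⟨w, hw, hw'⟩ := exists_lift_small hh hp hD v
      have b1 : ‖P w‖ ≤ (1 + η * cst P) * ‖P v‖ := by
        have : P w = P v + P (w - v) := by simp
        rw [this]
        refine (norm_add_le _ _).trans ?_
        have : ‖P (w - v)‖ ≤ ‖(P : E →L[ℝ] ℂ)‖ * (η * (inm P * ‖P v‖)) :=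
          (norm_P_le P _).trans (mul_le_mul_of_nonneg_left
            (hw'.trans (mul_le_mul_of_nonneg_left (norm_le_inm P v) hη0.le)) (norm_nonneg _))
        unfold cst; unfold inm at this; nlinarith
      have b2 : ‖P w‖ < ρ := (b1.trans (mul_le_mul_of_nonneg_left hv' (by linarith))).trans_lt hη2
      obtain ⟨u, hu, hu'⟩ := hc w b2
      refine ⟨u, by rw [Equiv.Perm.mul_apply, hw, hu], hu'.trans ?_⟩
      rw [mul_assoc]; exact mul_le_mul_of_nonneg_left b1 h0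
    · obtain ⟨u, hu, hu'⟩ := hc v hv
      refine ⟨u, by rw [Equiv.Perm.mul_apply, hsupp _ hK, hu], hu'.trans ?_⟩
      apply mul_le_mul_of_nonneg_right _ (norm_nonneg _)
      exact le_mul_of_one_le_right h0 hθ
  have hρ : 0 < ρ := h1.trans h2
  have ha' := hc'.attr (mul_nonneg h0 (by linarith)) hη1
  have hm' := hc'.mapsTo hη1.le h2
  refine ⟨mem_O_of_modify hf (mul_mem_Diff1 hf.1 hh) (isClosed_czone p P ρ₁) (isOpen_zone p P ρ)
    (czone_subset_zone p P h2) (mem_zone_self p P hρ) (hc.fixed hρ) (hc'.fixed hρ) ?_ ?_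
    (hc.mapsTo hκ.le h2) hm' (hc.attr h0 hκ) ha', ha', hm'⟩
  · rw [D_mul hf.1 hh, hp, hDp, mul_one]
  · intro x hx
    rw [Equiv.Perm.mul_apply, hsupp x hx]

/-- Cutting off a `C^1` map with vanishing first jet at the origin. -/
lemma exists_cutoff (P : E ≃L[ℝ] ℂ) {w : E → E} (hw : ContDiff ℝ 1 w) (h0 : w 0 = 0)
    (hD : fderiv ℝ w 0 = 0) {η : ℝ} (hη : 0 < η) :
    ∀ᶠ r in 𝓝[>] (0 : ℝ), ∃ U : E → E, ContDiff ℝ 1 U ∧ (∀ v, ‖fderiv ℝ U v‖ ≤ η) ∧
      (∀ v, ‖P v‖ ≤ r → U v = w v) ∧ ∀ v, 2 * r ≤ ‖P v‖ → U v = 0 := by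
  let b : ContDiffBump (0 : ℂ) := ⟨1, 2, one_pos, one_lt_two⟩
  have hb : ContDiff ℝ 1 b := b.contDiff
  obtain ⟨L, hL⟩ : ∃ L, ∀ z, ‖fderiv ℝ b z‖ ≤ L :=
    (hb.continuous_fderiv one_ne_zero).bounded_above_of_compact_support
      (b.hasCompactSupport.fderiv (𝕜 := ℝ))
  have hL0 : 0 ≤ L := (norm_nonneg _).trans (hL 0)
  have hC := cst_nonneg P
  have hη' : 0 < η / (1 + 3 * L * cst P) := by positivity
  set η' := η / (1 + 3 * L * cst P) with hη'def
  have h1 : ∀ᶠ v in 𝓝 (0 : E), ‖fderiv ℝ w v‖ < η' :=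
    ((hw.continuous_fderiv one_ne_zero).norm.tendsto 0).eventually_lt_const (by simpa [hD])
  obtain ⟨R, hR, h2⟩ := Metric.eventually_nhds_iff.1 h1
  have h3 : ∀ v, ‖v‖ < R → ‖w v‖ ≤ η' * ‖v‖ := by
    intro v hv
    have := (convex_ball (0 : E) R).norm_image_sub_le_of_norm_fderiv_le
      (fun z _ => hw.differentiable one_ne_zero z) (fun z hz => (h2 hz).le)
      (mem_ball_self hR) (mem_ball_zero_iff.2 hv)
    simpa [h0] using this
  have ht : Tendsto (fun r : ℝ => 3 * r * inm P) (𝓝 0) (𝓝 0) := by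
    have : Continuous fun r : ℝ => 3 * r * inm P := by fun_prop
    simpa using this.tendsto 0
  filter_upwards [(ht.eventually_lt_const hR).filter_mono nhdsWithin_le_nhds,
    self_mem_nhdsWithin] with r hr hr0
  have hr0 : 0 < r := hr0
  let Q : E →L[ℝ] ℂ := r⁻¹ • (P : E →L[ℝ] ℂ)
  have hQ : ∀ v, ‖Q v‖ = r⁻¹ * ‖P v‖ := fun v => by
    simp [Q, abs_of_pos hr0]
  have hbQ : ContDiff ℝ 1 fun v => b (Q v) := hb.comp Q.contDiff
  have hz : ∀ v, 2 * r ≤ ‖P v‖ → b (Q v) • w v = 0 := by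
    intro v hv
    rw [b.zero_of_le_dist, zero_smul]
    rw [dist_zero_right, hQ]
    change 2 ≤ _
    rw [le_inv_mul_iff₀ hr0]; linarith
  refine ⟨fun v => b (Q v) • w v, hbQ.smul hw, fun v => ?_, fun v hv => ?_, hz⟩
  · by_cases hv : ‖P v‖ < 3 * r
    · have hvR : ‖v‖ ≤ 3 * r * inm P := norm_le_of_P hv.le
      have d1 : HasFDerivAt (fun v => b (Q v)) ((fderiv ℝ b (Q v)).comp Q) v :=
        (hb.differentiable one_ne_zero _).hasFDerivAt.comp v Q.hasFDerivAt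
      have d2 := (hw.differentiable one_ne_zero v).hasFDerivAt
      rw [(d1.fun_smul d2).fderiv]
      have n1 : ‖b (Q v) • fderiv ℝ w v‖ ≤ η' := by
        rw [norm_smul, Real.norm_eq_abs, abs_of_nonneg b.nonneg]
        have := (h2 (y := v) (by simpa using hvR.trans_lt hr)).le
        nlinarith [b.le_one (x := Q v), b.nonneg (x := Q v), norm_nonneg (fderiv ℝ w v)]
      have n2 : ‖((fderiv ℝ b (Q v)).comp Q).smulRight (w v)‖ ≤ 3 * L * cst P * η' := by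
        rw [ContinuousLinearMap.norm_smulRight_apply]
        have a1 : ‖(fderiv ℝ b (Q v)).comp Q‖ ≤ L * (r⁻¹ * ‖(P : E →L[ℝ] ℂ)‖) := by
          refine (ContinuousLinearMap.opNorm_comp_le _ _).trans
            (mul_le_mul (hL _) ?_ (norm_nonneg _) hL0)
          simp [Q, norm_smul, abs_of_pos hr0]
        have a2 : ‖w v‖ ≤ η' * (3 * r * inm P) :=
          (h3 v (hvR.trans_lt hr)).trans (mul_le_mul_of_nonneg_left hvR hη'.le)
        calc _ ≤ L * (r⁻¹ * ‖(P : E →L[ℝ] ℂ)‖) * (η' * (3 * r * inm P)) :=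
              mul_le_mul a1 a2 (norm_nonneg _) (by positivity)
          _ = _ := by unfold cst inm; field_simp
      calc _ ≤ _ := norm_add_le _ _
        _ ≤ η' + 3 * L * cst P * η' := add_le_add n1 n2
        _ = η := by rw [hη'def]; field_simp
    · have : (fun v => b (Q v) • w v) =ᶠ[𝓝 v] fun _ => 0 := by
        have hc : Continuous fun v : E => ‖P v‖ := by fun_prop
        filter_upwards [(hc.tendsto v).eventually_const_lt (show 2 * r < ‖P v‖ by linarith)]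
          with u hu using hz u hu.le
      rw [this.fderiv_eq]
      simpa using hη.le
  · simp only
    rw [b.one_of_mem_closedBall, one_smul]
    rw [mem_closedBall_zero_iff, hQ]
    change _ ≤ 1
    rw [inv_mul_le_iff₀ hr0]; linarith

/-- `f` is the linear map `A` in the adapted ball of radius `ρ` around `p`. -/
def Lin (f : Equiv.Perm T) (p : T) (P : E ≃L[ℝ] ℂ) (A : E →L[ℝ] E) (ρ : ℝ) : Prop :=
  ∀ v, ‖P v‖ < ρ → f (p + proj v) = p + proj (A v)

/-- Linearisation near a conformal sink by a small perturbation inside `O`. -/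
lemma linearize {f : Equiv.Perm T} (hf : f ∈ O) {p : T} (hp : f p = p) {P : E ≃L[ℝ] ℂ}
    {a : ℝ} (ha0 : 0 ≤ a) (ha : a < 1) (hconf : ∀ v, ‖P (D f p v)‖ = a * ‖P v‖) {ε : ℝ}
    (hε : 0 < ε) {W : Set T} (hW : W ∈ 𝓝 p) :
    ∃ f₁ ∈ O, Near f₁ f ε ∧ ∃ K ⊆ W, IsClosed K ∧ K ∈ 𝓝 p ∧ (∀ x, x ∉ K → f₁ x = f x) ∧
      MapsTo f K K ∧ Attr f₁ p K ∧ ∃ ρ > 0, Lin f₁ p P (D f p) ρ := by
  obtain ⟨ρ₀, hρ₀, hc₀⟩ := exists_contr hf.1 hp ha hconf
  obtain ⟨ρ, ⟨⟨hρW, hρs⟩, hρ1⟩, hρ⟩ := ((((eventually_czone_subset P hW).and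
    (Iio_mem_nhds hρ₀)).filter_mono nhdsWithin_le_nhds).and
    (self_mem_nhdsWithin (a := (0 : ℝ)) (s := Ioi 0))).exists
  have hρ : 0 < ρ := hρ
  have hc := hc₀.mono (le_of_lt hρ1)
  have hκ : (1 + a) / 2 < 1 := by linarith
  obtain ⟨η₁, hη₁, H1⟩ := perturb_sink hf hc (by linarith) hκ (half_pos hρ) (half_lt_self hρ) hρs
  obtain ⟨δ, hδ, H2⟩ := near_mul_right hf.1 hε
  have hp' : f⁻¹ p = p := Equiv.Perm.inv_eq_iff_eq.2 hp.symm
  obtain ⟨G, hG, hG0, hGf, hGD⟩ := hf.1.2.exists_lift_at p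
  set A := D f p with hA
  have hw : ContDiff ℝ 1 fun v => G (A v) - v := (hG.comp A.contDiff).sub contDiff_id
  have hwD : fderiv ℝ (fun v => G (A v) - v) 0 = 0 := by
    have d1 : HasFDerivAt G (D (f⁻¹ : Equiv.Perm T) p) (A 0) := by
      have := (hG.differentiable one_ne_zero 0).hasFDerivAt
      rw [hGD, proj_zero, add_zero] at this
      simpa using this
    have d2 := (d1.comp (0 : E) A.hasFDerivAt).sub (hasFDerivAt_id (0 : E))
    have e := D_inv_mul hf.1 p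
    rw [hp] at e
    have e' : (D (f⁻¹ : Equiv.Perm T) p).comp A - ContinuousLinearMap.id ℝ E = 0 :=
      sub_eq_zero.2 e
    rw [e'] at d2
    exact d2.fderiv
  have hη : 0 < min (min η₁ (δ / 2)) (1 / 2) := by positivity
  obtain ⟨r, ⟨⟨U, hU, hUb, hU1, hU2⟩, hr1⟩, hr⟩ := (((exists_cutoff P hw (by simp [hG0]) hwD hη).and
    ((Iio_mem_nhds (show (0 : ℝ) < ρ / 4 by positivity)) |> mem_nhdsWithin_of_mem_nhds)).and
    (self_mem_nhdsWithin (a := (0 : ℝ)) (s := Ioi 0))).exists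
  have hr : 0 < r := hr
  have hr1 : r < ρ / 4 := hr1
  obtain ⟨Φ, hΦ, hΦ1, hΦ2⟩ := exists_perm_of_small hU fun v => (hUb v).trans (min_le_right _ _)
  have hin := inm_nonneg P
  have hS : Supp Φ := by
    refine ⟨1 / 4, by norm_num, fun v hv => ?_⟩
    rw [hΦ, hU2, add_zero]
    by_contra hc
    have := norm_le_of_P (not_le.1 hc).le
    nlinarith
  have hDh : ∀ x, D (tpPerm p Φ hS) x - 1 = fderiv ℝ U (lift (x - p)) := by
    intro x
    have e1 : D (tpPerm p Φ hS) x = fderiv ℝ Φ (lift (x - p)) := D_tp p hΦ1 hS x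
    have e2 : (Φ : E → E) = fun v => v + U v := funext hΦ
    have e3 : HasFDerivAt (fun v => v + U v) (1 + fderiv ℝ U (lift (x - p))) (lift (x - p)) :=
      (hasFDerivAt_id _).add (hU.differentiable one_ne_zero _).hasFDerivAt
    rw [e1, e2, e3.fderiv]
    exact add_sub_cancel_left _ _
  have hU0 : U 0 = 0 := by rw [hU1 0 (by simpa using hr.le)]; simp [hG0]
  have hhp : tpPerm p Φ hS p = p := tp_eq_self p (by simp [hΦ, hU0])
  have hmem := tpPerm_mem p hS hΦ1 hΦ2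
  have hsupp : ∀ x, x ∉ czone p P (ρ / 2) → tpPerm p Φ hS x = x := by
    intro x hx
    apply tp_eq_self
    rw [hΦ, hU2, add_zero]
    by_contra hc
    exact hx ⟨lift (x - p), by linarith [not_le.1 hc], (add_proj_lift_sub _ _).symm⟩
  have hDp : D (tpPerm p Φ hS) p = 1 := by
    rw [← sub_eq_zero, hDh, sub_self, lift_zero, ← hwD]
    apply Filter.EventuallyEq.fderiv_eq
    have hc : Continuous fun v : E => ‖P v‖ := by fun_prop
    filter_upwards [(hc.tendsto 0).eventually_lt_const (show ‖P 0‖ < r by simpa)]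
      with u hu using hU1 u hu.le
  obtain ⟨m1, m2, -⟩ := H1 _ hmem hsupp hhp hDp fun x => by
    rw [hDh]; exact (hUb _).trans ((min_le_left _ _).trans (min_le_left _ _))
  refine ⟨_, m1, H2 _ hmem (near_one_of_D hmem hhp (η := δ / 2) (fun x => ?_) (half_lt_self hδ)),
    czone p P (ρ / 2), fun x hx => hρW (zone_subset_czone p P le_rfl
      (czone_subset_zone p P (half_lt_self hρ) hx)), isClosed_czone _ _ _,
    czone_mem_nhds p P (half_pos hρ), fun x hx => by rw [Equiv.Perm.mul_apply, hsupp x hx],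
    hc.mapsTo hκ.le (half_lt_self hρ), fun e he => ?_, r, hr, fun v hv => ?_⟩
  · rw [hDh]; exact (hUb _).trans ((min_le_left _ _).trans (min_le_right _ _))
  · filter_upwards [m2 e he] with n hn x hx using hn x (czone_subset_zone p P (half_lt_self hρ) hx)
  · have hv2 : ‖v‖ < 1 / 2 := by
      have := norm_le_of_P hv.le
      nlinarith
    rw [Equiv.Perm.mul_apply, tpPerm_apply, tp_apply p _ hv2, hΦ, hU1 v hv.le, add_sub_cancel,
      ← hp', ← hGf, hp']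
    simp

end Pool.Agent.Lib.MP_fe72db_an
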