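import Pool.Agent.Lib.MP_fe72db_an.Calc

/-! Stability of the class `O` under inversion and under modification in the basin of a sink. -/

open Filter Topology Set Metric

namespace Pool.Agent.Lib.MP_fe72db_an

lemma mem_periodicPts_iff {f : Equiv.Perm T} {x : T} :
    x ∈ Function.periodicPts f ↔ ∃ n : ℕ, 0 < n ∧ (f ^ n) x = x := by
  simp only [Function.periodicPts, Function.IsPeriodicPt, Function.IsFixedPt, mem_ofPred_eq,
    Equiv.Perm.iterate_eq_pow, gt_iff_lt]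

lemma inv_pow_apply_eq_iff {f : Equiv.Perm T} {n : ℕ} {x y : T} :
    (f⁻¹ ^ n) x = y ↔ (f ^ n) y = x := by
  rw [inv_pow, Equiv.Perm.inv_eq_iff_eq, eq_comm]

lemma periodicPts_inv (f : Equiv.Perm T) :
    Function.periodicPts (f⁻¹ : Equiv.Perm T) = Function.periodicPts f := by
  ext x
  simp only [mem_periodicPts_iff, inv_pow_apply_eq_iff]

lemma orbit_inv (f : Equiv.Perm T) (x : T) : orbit f⁻¹ x = orbit f x := by
  ext y
  constructor <;> rintro ⟨n, rfl⟩ <;> exact ⟨-n, by simp⟩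

lemma mem_orbit_self (f : Equiv.Perm T) (x : T) : x ∈ orbit f x := ⟨0, by simp⟩

lemma zpow_mem_orbit {f : Equiv.Perm T} {x y : T} (h : y ∈ orbit f x) (n : ℤ) :
    (f ^ n) y ∈ orbit f x := by
  obtain ⟨m, rfl⟩ := h
  exact ⟨n + m, by simp [zpow_add]⟩

lemma apply_mem_orbit {f : Equiv.Perm T} {x y : T} (h : y ∈ orbit f x) : f y ∈ orbit f x := by
  simpa using zpow_mem_orbit h 1

lemma inv_apply_mem_orbit {f : Equiv.Perm T} {x y : T} (h : y ∈ orbit f x) :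
    f⁻¹ y ∈ orbit f x := by
  have := zpow_mem_orbit h (-1)
  rwa [zpow_neg_one] at this

lemma orbit_subset {f : Equiv.Perm T} {Λ : Set T} (h1 : ∀ x ∈ Λ, f x ∈ Λ)
    (h2 : ∀ x ∈ Λ, f⁻¹ x ∈ Λ) {x : T} (hx : x ∈ Λ) : orbit f x ⊆ Λ := by
  rintro _ ⟨n, rfl⟩
  induction n using Int.induction_on with
  | zero => simpa using hx
  | succ n ih => simp only [add_comm (n : ℤ) 1, zpow_one_add]; exact h1 _ ih
  | pred n ih =>
    have : f ^ (-(n : ℤ) - 1) = f⁻¹ * f ^ (-(n : ℤ)) := by group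
    simp only [this]; exact h2 _ ih

lemma orbit_fixed {f : Equiv.Perm T} {p : T} (h : f p = p) : orbit f p = {p} := by
  apply Subset.antisymm
  · apply orbit_subset (Λ := {p})
    · rintro _ rfl; exact h
    · rintro _ rfl; exact Equiv.Perm.inv_eq_iff_eq.2 h.symm
    · rfl
  · rintro _ rfl; exact mem_orbit_self _ _

lemma eq_of_mem_orbit_fixed {f : Equiv.Perm T} {p y : T} (h : f p = p) (hy : p ∈ orbit f y) :
    y = p := by
  obtain ⟨n, hn⟩ := hy
  have h1 : (f ^ (-n)) p ∈ orbit f p := ⟨-n, rfl⟩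
  rw [orbit_fixed h] at h1
  have h2 : (f ^ (-n)) p = y := by rw [← hn]; simp
  exact h2 ▸ h1

lemma finite_orbit {f : Equiv.Perm T} {p : T} (h : p ∈ Function.periodicPts f) :
    (orbit f p).Finite := by
  obtain ⟨n, hn, h⟩ := mem_periodicPts_iff.1 h
  apply ((finite_Iio n).image fun k : ℕ => (f ^ k) p).subset
  apply orbit_subset
  · rintro _ ⟨k, hk, rfl⟩
    rcases lt_or_eq_of_le (Nat.succ_le_of_lt hk) with h1 | h1
    · exact ⟨k + 1, h1, by simp [pow_succ']⟩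
    · refine ⟨0, hn, ?_⟩
      have : f ((f ^ k) p) = (f ^ n) p := by rw [← h1, pow_succ']; rfl
      simp [this, h]
  · rintro _ ⟨k, hk, rfl⟩
    rcases k with _ | k
    · obtain ⟨m, rfl⟩ := Nat.exists_eq_succ_of_ne_zero hn.ne'
      refine ⟨m, Nat.lt_succ_self m, ?_⟩
      rw [eq_comm, Equiv.Perm.inv_eq_iff_eq]
      rw [pow_succ'] at h
      exact h.symm
    · exact ⟨k, (Nat.lt_succ_self k).trans hk, by simp [pow_succ']⟩
  · exact ⟨0, hn, by simp⟩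

lemma nonwandering_inv (f : Equiv.Perm T) : nonwandering f⁻¹ = nonwandering f := by
  have : ∀ g : Equiv.Perm T, nonwandering g⁻¹ ⊆ nonwandering g := by
    intro g x hx U hU
    obtain ⟨n, hn, y, hy, h⟩ := hx U hU
    exact ⟨n, hn, _, h, by rwa [inv_pow_apply_eq_iff.1 rfl]⟩
  exact Subset.antisymm (this f) (by simpa using this f⁻¹)

lemma periodic_mem_nonwandering {f : Equiv.Perm T} {x : T} (h : x ∈ Function.periodicPts f) :
    x ∈ nonwandering f := by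
  obtain ⟨n, hn, h⟩ := mem_periodicPts_iff.1 h
  exact fun U hU => ⟨n, hn, x, mem_of_mem_nhds hU, by rw [h]; exact mem_of_mem_nhds hU⟩

lemma fixed_mem_periodic {f : Equiv.Perm T} {x : T} (h : f x = x) : x ∈ Function.periodicPts f :=
  mem_periodicPts_iff.2 ⟨1, one_pos, by simpa using h⟩

lemma isClosed_nonwandering (f : Equiv.Perm T) : IsClosed (nonwandering f) := by
  rw [← closure_subset_iff_isClosed]
  intro x hx U hU
  obtain ⟨y, hy, hy'⟩ := mem_closure_iff_nhds.1 hx _ (interior_mem_nhds.2 hU)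
  exact hy' U (mem_interior_iff_mem_nhds.1 hy)

lemma apply_mem_nonwandering {f : Equiv.Perm T} (hf : f ∈ Diff1) {x : T}
    (hx : x ∈ nonwandering f) : f x ∈ nonwandering f := by
  intro U hU
  obtain ⟨n, hn, y, hy, h⟩ := hx _ ((continuous_of_Diff1 hf).continuousAt.preimage_mem_nhds hU)
  refine ⟨n, hn, f y, hy, ?_⟩
  have : (f ^ n) (f y) = f ((f ^ n) y) := by
    rw [← Equiv.Perm.mul_apply, ← pow_succ, pow_succ', Equiv.Perm.mul_apply]
  rw [this]; exact h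

lemma inv_apply_mem_nonwandering {f : Equiv.Perm T} (hf : f ∈ Diff1) {x : T}
    (hx : x ∈ nonwandering f) : f⁻¹ x ∈ nonwandering f := by
  rw [← nonwandering_inv] at hx ⊢
  exact apply_mem_nonwandering (inv_mem_Diff1 hf) hx

lemma notMem_nonwandering {f : Equiv.Perm T} (hf : f ∈ Diff1) {x : T} {V : Set T} (hV : V ∈ 𝓝 x)
    (h : ∀ᶠ n : ℕ in atTop, ∀ y ∈ V, (f ^ n) y ∉ V) : x ∉ nonwandering f := by
  obtain ⟨N, hN⟩ := eventually_atTop.1 h
  have hper : ∀ n : ℕ, 1 ≤ n → (f ^ n) x ≠ x := by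
    intro n hn e
    have h1 : ∀ k : ℕ, (f ^ (n * k)) x = x := by
      intro k
      induction k with
      | zero => simp
      | succ k ih => rw [Nat.mul_succ, pow_add, Equiv.Perm.mul_apply, e, ih]
    have := hN (n * N) (Nat.le_mul_of_pos_left N hn) x (mem_of_mem_nhds hV)
    rw [h1] at this
    exact this (mem_of_mem_nhds hV)
  have hloc : ∀ n : ℕ, ∃ W ∈ 𝓝 x, 1 ≤ n → ∀ y ∈ W, (f ^ n) y ∉ W := by
    intro n
    by_cases hn : 1 ≤ n
    · obtain ⟨A, B, hA, hB, hxA, hxB, hAB⟩ := t2_separation (hper n hn)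
      refine ⟨B ∩ (f ^ n) ⁻¹' A, inter_mem (hB.mem_nhds hxB)
        ((continuous_of_Diff1 (pow_mem_Diff1 hf n)).continuousAt.preimage_mem_nhds
          (hA.mem_nhds hxA)), fun _ y hy hy' => ?_⟩
      exact Set.disjoint_left.1 hAB hy.2 hy'.1
    · exact ⟨univ, univ_mem, fun h => absurd h hn⟩
  choose W hW hW' using hloc
  intro hx
  obtain ⟨n, hn, y, hy, hy'⟩ := hx (V ∩ ⋂ n ∈ Iio N, W n)
    (inter_mem hV ((biInter_mem (finite_Iio N)).2 fun n _ => hW n))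
  rcases lt_or_ge n N with h1 | h1
  · exact hW' n hn y (mem_iInter₂.1 hy.2 n h1) (mem_iInter₂.1 hy'.2 n h1)
  · exact hN n h1 y hy.1 hy'.1

lemma IsHyperbolic.inv {f : Equiv.Perm T} (hf : f ∈ Diff1) {Λ : Set T}
    (hΛ : ∀ x ∈ Λ, f⁻¹ x ∈ Λ) (h : IsHyperbolic f Λ) : IsHyperbolic f⁻¹ Λ := by
  obtain ⟨Es, Eu, C, lam, hC, h0, h1, H⟩ := h
  have key : ∀ (F : T → Submodule ℝ E) (x : T),
      (F (f⁻¹ x)).map (D f (f⁻¹ x)).toLinearMap = F (f (f⁻¹ x)) →
      (F x).map (D (f⁻¹ : Equiv.Perm T) x).toLinearMap = F (f⁻¹ x) := by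
    intro F x hx
    have e := D_inv_mul hf (f⁻¹ x)
    rw [show f (f⁻¹ x) = x by simp] at hx e
    rw [← hx, ← Submodule.map_comp]
    have : (D (f⁻¹ : Equiv.Perm T) x).toLinearMap ∘ₗ (D f (f⁻¹ x)).toLinearMap = LinearMap.id :=
      congrArg ContinuousLinearMap.toLinearMap e
    rw [this, Submodule.map_id]
  refine ⟨Eu, Es, C, lam, hC, h0, h1, fun x hx => ⟨(H x hx).1.symm,
    key Eu x (H _ (hΛ x hx)).2.2.1, key Es x (H _ (hΛ x hx)).2.1, fun n => ⟨?_, ?_⟩⟩⟩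
  · exact ((H x hx).2.2.2 n).2
  · rw [inv_inv]; exact ((H x hx).2.2.2 n).1

lemma IsHyperbolic.mono {f : Equiv.Perm T} {Λ Λ' : Set T} (h : IsHyperbolic f Λ) (hs : Λ' ⊆ Λ) :
    IsHyperbolic f Λ' := by
  obtain ⟨Es, Eu, C, lam, hC, h0, h1, H⟩ := h
  exact ⟨Es, Eu, C, lam, hC, h0, h1, fun x hx => H x (hs hx)⟩

lemma homoclinicClass_inv (f : Equiv.Perm T) (p : T) :
    homoclinicClass f⁻¹ p = homoclinicClass f p := by
  unfold homoclinicClass
  congr 1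
  ext x
  simp only [orbit_inv, inv_inv, mem_ofPred_eq]
  constructor <;> rintro ⟨h1, h2, h3⟩ <;> refine ⟨h2, h1, fun w => ?_⟩ <;>
    obtain ⟨v, hv, v', hv', rfl⟩ := h3 w <;> exact ⟨v', hv', v, hv, add_comm _ _⟩

lemma inv_mem_O {f : Equiv.Perm T} (hf : f ∈ O) : f⁻¹ ∈ O := by
  obtain ⟨hD, ⟨hH, hP⟩, ⟨k, Λ, h1, h2, h3, h4⟩, p, hp, hp1, hp2⟩ := hf
  refine ⟨inv_mem_Diff1 hD, ⟨?_, ?_⟩, ⟨k, Λ, fun i => ⟨(h1 i).1, ?_, ?_⟩, h2, ?_, fun i hi => ?_⟩,
    p, ?_, ?_, ?_⟩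
  · rw [nonwandering_inv]
    exact hH.inv hD fun x hx => inv_apply_mem_nonwandering hD hx
  · rwa [nonwandering_inv, periodicPts_inv]
  · conv_lhs => rw [← (h1 i).2.1]
    rw [image_image]; simp
  · simpa only [orbit_inv] using (h1 i).2.2
  · rwa [nonwandering_inv]
  · apply h4 i
    have := Relation.transGen_swap.2 hi
    refine Relation.TransGen.mono ?_ _ _ this
    rintro a b ⟨hab, x, ⟨hx1, hx2⟩, hx3⟩
    rw [inv_inv] at hx1
    rw [nonwandering_inv] at hx3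
    exact ⟨hab.symm, x, ⟨hx2, hx1⟩, hx3⟩
  · rwa [periodicPts_inv]
  · rw [orbit_inv]; exact hp1.inv hD fun x hx => inv_apply_mem_orbit hx
  · rwa [orbit_inv, homoclinicClass_inv]

/-- Transverse homoclinic points. -/
def IsTransHom (f : Equiv.Perm T) (p x : T) : Prop :=
  x ∈ Ws f (orbit f p) ∧ x ∈ Ws f⁻¹ (orbit f p) ∧
    ∀ w : E, ∃ v ∈ stableVec f x, ∃ v' ∈ stableVec f⁻¹ x, w = v + v'

lemma mem_Ws_of_forall {f : Equiv.Perm T} {Λ : Set T} {x : T} (h : ∀ n : ℕ, (f ^ n) x ∈ Λ) :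
    x ∈ Ws f Λ := by
  have : (fun n : ℕ => infDist ((f ^ n) x) Λ) = fun _ => 0 :=
    funext fun n => infDist_zero_of_mem (h n)
  simp only [Ws, mem_ofPred_eq, this]
  exact tendsto_const_nhds

lemma tendsto_of_geom {u : ℕ → E} {C lam M : ℝ} (h0 : 0 < lam) (h1 : lam < 1)
    (h : ∀ n, ‖u n‖ ≤ C * lam ^ n * M) : Tendsto u atTop (𝓝 0) := by
  apply squeeze_zero_norm h
  have := ((tendsto_pow_atTop_nhds_zero_of_lt_one h0.le h1).const_mul C).mul_const M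
  simpa using this

lemma IsHyperbolic.trans_vec {f : Equiv.Perm T} {Λ : Set T} (h : IsHyperbolic f Λ) {x : T}
    (hx : x ∈ Λ) (w : E) : ∃ v ∈ stableVec f x, ∃ v' ∈ stableVec f⁻¹ x, w = v + v' := by
  obtain ⟨Es, Eu, C, lam, hC, h0, h1, H⟩ := h
  obtain ⟨hc, -, -, H⟩ := H x hx
  have : w ∈ Es x ⊔ Eu x := by rw [hc.sup_eq_top]; trivial
  obtain ⟨v, hv, v', hv', rfl⟩ := Submodule.mem_sup.1 this
  exact ⟨v, tendsto_of_geom h0 h1 fun n => (H n).1 v hv, v',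
    tendsto_of_geom h0 h1 fun n => (H n).2 v' hv', rfl⟩

lemma homoclinicClass_ne_iff {f : Equiv.Perm T} {p : T} (hp : p ∈ Function.periodicPts f)
    (hh : IsHyperbolic f (orbit f p)) :
    homoclinicClass f p ≠ orbit f p ↔ ∃ x, x ∉ orbit f p ∧ IsTransHom f p x := by
  constructor
  · intro h
    by_contra hc
    push Not at hc
    apply h
    apply Subset.antisymm
    · apply closure_minimal _ (finite_orbit hp).isClosed
      intro x hx
      by_contra hx'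
      exact hc x hx' hx
    · intro x hx
      apply subset_closure
      refine ⟨mem_Ws_of_forall fun n => ?_, mem_Ws_of_forall fun n => ?_, hh.trans_vec hx⟩
      · simpa using zpow_mem_orbit hx n
      · simpa using zpow_mem_orbit hx (-n)
  · rintro ⟨x, hx, hx'⟩ h
    exact hx (h ▸ subset_closure hx')

/-! Agreement along invariant sets -/

lemma agree_pow {f f' : Equiv.Perm T} (hf : f ∈ Diff1) (hf' : f' ∈ Diff1) {Λ : Set T}
    (h1 : ∀ x ∈ Λ, f x ∈ Λ) (h : ∀ x ∈ Λ, f' x = f x ∧ D f' x = D f x) (n : ℕ) {x : T}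
    (hx : x ∈ Λ) : (f ^ n) x ∈ Λ ∧ (f' ^ n) x = (f ^ n) x ∧
      D (f' ^ n : Equiv.Perm T) x = D (f ^ n : Equiv.Perm T) x := by
  induction n with
  | zero => simpa using hx
  | succ n ih =>
    rw [D_pow_succ hf, D_pow_succ hf', ih.2.1, ih.2.2, (h _ ih.1).2, pow_succ', pow_succ',
      Equiv.Perm.mul_apply, Equiv.Perm.mul_apply, ih.2.1, (h _ ih.1).1]
    exact ⟨h1 _ ih.1, rfl, rfl⟩

lemma agree_inv {f f' : Equiv.Perm T} (hf : f ∈ Diff1) (hf' : f' ∈ Diff1) {Λ : Set T}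
    (h2 : ∀ x ∈ Λ, f⁻¹ x ∈ Λ) (h : ∀ x ∈ Λ, f' x = f x ∧ D f' x = D f x) {x : T}
    (hx : x ∈ Λ) : f'⁻¹ x = f⁻¹ x ∧ D (f'⁻¹ : Equiv.Perm T) x = D (f⁻¹ : Equiv.Perm T) x := by
  obtain ⟨y, rfl⟩ := f.surjective x
  have hy : y ∈ Λ := by simpa using h2 _ hx
  have e1 := D_inv_mul hf' y
  have e2 := D_mul_inv' hf y
  rw [(h y hy).1, (h y hy).2] at e1
  refine ⟨by rw [Equiv.Perm.inv_eq_iff_eq]; simp [(h y hy).1], ?_⟩
  calc D (f'⁻¹ : Equiv.Perm T) (f y) = D (f'⁻¹ : Equiv.Perm T) (f y) * (D f y *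
      D (f⁻¹ : Equiv.Perm T) (f y)) := by rw [e2, mul_one]
    _ = _ := by rw [← mul_assoc, e1, one_mul]

lemma agree_orbit {f f' : Equiv.Perm T} (hf : f ∈ Diff1) (hf' : f' ∈ Diff1) {Λ : Set T}
    (h1 : ∀ x ∈ Λ, f x ∈ Λ) (h2 : ∀ x ∈ Λ, f⁻¹ x ∈ Λ)
    (h : ∀ x ∈ Λ, f' x = f x ∧ D f' x = D f x) {x : T} (hx : x ∈ Λ) :
    orbit f' x = orbit f x := by
  unfold orbit
  congr 1
  funext n
  obtain ⟨m, rfl | rfl⟩ := n.eq_nat_or_neg
  · simpa using (agree_pow hf hf' h1 h m hx).2.1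
  · simpa using (agree_pow (inv_mem_Diff1 hf) (inv_mem_Diff1 hf') h2
      (fun y hy => agree_inv hf hf' h2 h hy) m hx).2.1

lemma IsHyperbolic.agree {f f' : Equiv.Perm T} (hf : f ∈ Diff1) (hf' : f' ∈ Diff1) {Λ : Set T}
    (h1 : ∀ x ∈ Λ, f x ∈ Λ) (h2 : ∀ x ∈ Λ, f⁻¹ x ∈ Λ)
    (h : ∀ x ∈ Λ, f' x = f x ∧ D f' x = D f x) (hh : IsHyperbolic f Λ) : IsHyperbolic f' Λ := by
  obtain ⟨Es, Eu, C, lam, hC, h0, hl, H⟩ := hh
  refine ⟨Es, Eu, C, lam, hC, h0, hl, fun x hx => ?_⟩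
  rw [(h x hx).1, (h x hx).2]
  refine ⟨(H x hx).1, (H x hx).2.1, (H x hx).2.2.1, fun n => ?_⟩
  rw [(agree_pow hf hf' h1 h n hx).2.2, (agree_pow (inv_mem_Diff1 hf) (inv_mem_Diff1 hf') h2
      (fun y hy => agree_inv hf hf' h2 h hy) n hx).2.2]
  exact (H x hx).2.2.2 n

lemma agree_Ws {f f' : Equiv.Perm T} (hf : f ∈ Diff1) (hf' : f' ∈ Diff1) {Λ : Set T}
    (h1 : ∀ x ∈ Λ, f x ∈ Λ) (h : ∀ x ∈ Λ, f' x = f x ∧ D f' x = D f x) {x : T} (hx : x ∈ Λ) :
    (∀ A, x ∈ Ws f A → x ∈ Ws f' A) ∧ stableVec f' x = stableVec f x := by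
  constructor
  · intro A hA
    simp only [Ws, mem_ofPred_eq, fun n => (agree_pow hf hf' h1 h n hx).2.1]
    exact hA
  · simp only [stableVec, fun n => (agree_pow hf hf' h1 h n hx).2.2]

/-! Modification inside the basin of a sink -/

/-- All points of `U` converge uniformly to `p`. -/
def Attr (f : Equiv.Perm T) (p : T) (U : Set T) : Prop :=
  ∀ ε > 0, ∀ᶠ n : ℕ in atTop, ∀ x ∈ U, dist ((f ^ n) x) p < ε

lemma Attr.eq_of_nonwandering {f : Equiv.Perm T} (hf : f ∈ Diff1) {p : T} {U : Set T}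
    (hU : IsOpen U) (h : Attr f p U) {x : T} (hx : x ∈ U) (hx' : x ∈ nonwandering f) : x = p := by
  by_contra hne
  have hε : 0 < dist x p / 2 := half_pos (dist_pos.2 hne)
  refine notMem_nonwandering hf (inter_mem (hU.mem_nhds hx) (ball_mem_nhds x hε)) ?_ hx'
  filter_upwards [h _ hε] with n hn y hy hy'
  have h1 := hn y hy.1
  have h2 : dist ((f ^ n) y) x < dist x p / 2 := hy'.2
  have := dist_triangle_left x p ((f ^ n) y)
  linarith

lemma Attr.tendsto {f : Equiv.Perm T} {p : T} {U : Set T} (h : Attr f p U) {x : T} {m : ℕ}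
    (hx : (f ^ m) x ∈ U) : Tendsto (fun n : ℕ => (f ^ n) x) atTop (𝓝 p) := by
  rw [← tendsto_add_atTop_iff_nat m, Metric.tendsto_nhds]
  intro ε hε
  filter_upwards [h ε hε] with n hn
  rw [pow_add]; exact hn _ hx

lemma Attr.eq_of_tendsto_inv {f : Equiv.Perm T} {p : T} {U : Set T} (h : Attr f p U)
    (hU : U ∈ 𝓝 p) {x : T} (hx : Tendsto (fun n : ℕ => (f⁻¹ ^ n) x) atTop (𝓝 p)) : x = p := by
  apply eq_of_forall_dist_le
  intro ε hε
  obtain ⟨n, h1, h2⟩ := ((h ε hε).and (hx.eventually hU)).exists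
  have := h1 _ h2
  rw [inv_pow_apply_eq_iff.1 rfl] at this
  exact this.le

lemma Attr.eq_of_mem_Ws {f : Equiv.Perm T} {p : T} {U : Set T} (h : Attr f p U)
    (hU : U ∈ 𝓝 p) {x : T} (hx : x ∈ Ws f⁻¹ {p}) : x = p := by
  apply h.eq_of_tendsto_inv hU
  rw [tendsto_iff_dist_tendsto_zero]
  simpa [Ws] using hx

lemma pow_mapsTo {f : Equiv.Perm T} {K : Set T} (h : MapsTo f K K) (n : ℕ) :
    MapsTo (f ^ n : Equiv.Perm T) K K := by
  rw [← Equiv.Perm.iterate_eq_pow]; exact h.iterate n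

lemma Attr.avoid {f : Equiv.Perm T} {p : T} {U K Λ : Set T} (h : Attr f p U) (hK : K ⊆ U)
    (hm : MapsTo f K K) (hΛ : IsClosed Λ) (hne : Λ.Nonempty) (hp : p ∉ Λ) {x : T}
    (hx : x ∈ Ws f Λ) : ∀ y ∈ orbit f x, y ∉ K := by
  have key : ∀ m : ℕ, (f ^ m) x ∉ K := by
    intro m hm'
    have h1 := (continuous_infDist_pt Λ).continuousAt.tendsto.comp (h.tendsto (hK hm'))
    have h2 := tendsto_nhds_unique h1 hx
    exact hp ((hΛ.mem_iff_infDist_zero hne).2 h2)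
  rintro _ ⟨n, rfl⟩ hy
  obtain ⟨m, rfl | rfl⟩ := n.eq_nat_or_neg
  · exact key m (by simpa using hy)
  · exact key 0 (by simpa using pow_mapsTo hm m hy)

lemma pow_eq_of_notMem {f f' : Equiv.Perm T} {K : Set T} (hm : MapsTo f K K)
    (h : ∀ x, x ∉ K → f' x = f x) (n : ℕ) {y : T} (hy : (f ^ n) y ∉ K) :
    (f' ^ n) y = (f ^ n) y := by
  induction n with
  | zero => rfl
  | succ n ih =>
    rw [pow_succ', Equiv.Perm.mul_apply] at hy
    have h1 : (f ^ n) y ∉ K := fun hc => hy (hm hc)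
    rw [pow_succ', pow_succ', Equiv.Perm.mul_apply, Equiv.Perm.mul_apply, ih h1, h _ h1]

lemma nonwandering_subset_of_modify {f f' : Equiv.Perm T} (hf : f ∈ Diff1) {p : T} {K U : Set T}
    (hK : IsClosed K) (hU : IsOpen U) (hKU : K ⊆ U) (hp' : f' p = p)
    (h : ∀ x, x ∉ K → f' x = f x) (hm : MapsTo f K K) (ha : Attr f p U) :
    nonwandering f ⊆ nonwandering f' := by
  intro x hx
  by_cases hxU : x ∈ U
  · rw [ha.eq_of_nonwandering hf hU hxU hx]
    exact periodic_mem_nonwandering (fixed_mem_periodic hp')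
  · intro V hV
    obtain ⟨n, hn, y, hy, hy'⟩ := hx (V ∩ Kᶜ)
      (inter_mem hV (hK.isOpen_compl.mem_nhds fun hc => hxU (hKU hc)))
    exact ⟨n, hn, y, hy.1, by rw [pow_eq_of_notMem hm h n hy'.2]; exact hy'.1⟩

theorem mem_O_of_modify {f f' : Equiv.Perm T} (hf : f ∈ O) (hD' : f' ∈ Diff1) {p : T}
    {K U : Set T} (hK : IsClosed K) (hU : IsOpen U) (hKU : K ⊆ U) (hpU : p ∈ U) (hp : f p = p)
    (hp' : f' p = p) (hDp : D f' p = D f p) (h : ∀ x, x ∉ K → f' x = f x) (hm : MapsTo f K K)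
    (hm' : MapsTo f' K K) (ha : Attr f p U) (ha' : Attr f' p U) : f' ∈ O := by
  obtain ⟨hD, ⟨hH, hP⟩, ⟨k, Λ, h1, h2, h3, h4⟩, q, hq, hq1, hq2⟩ := hf
  have hΩ : nonwandering f' = nonwandering f := Subset.antisymm
    (nonwandering_subset_of_modify hD' hK hU hKU hp (fun x hx => (h x hx).symm) hm' ha')
    (nonwandering_subset_of_modify hD hK hU hKU hp' h hm ha)
  have hoff : ∀ x, x ∉ K → f' x = f x ∧ D f' x = D f x := fun x hx =>
    ⟨h x hx, D_congr (by filter_upwards [hK.isOpen_compl.mem_nhds hx] with y hy using h y hy)⟩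
  have hag : ∀ x ∈ nonwandering f, f' x = f x ∧ D f' x = D f x := by
    intro x hx
    by_cases hxU : x ∈ U
    · rw [ha.eq_of_nonwandering hD hU hxU hx]
      exact ⟨by rw [hp, hp'], hDp⟩
    · exact hoff x fun hc => hxU (hKU hc)
  have i1 : ∀ x ∈ nonwandering f, f x ∈ nonwandering f := fun x => apply_mem_nonwandering hD
  have i2 : ∀ x ∈ nonwandering f, f⁻¹ x ∈ nonwandering f := fun x => inv_apply_mem_nonwandering hD
  have hper : Function.periodicPts f ⊆ Function.periodicPts f' := by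
    intro x hx
    obtain ⟨n, hn, e⟩ := mem_periodicPts_iff.1 hx
    exact mem_periodicPts_iff.2 ⟨n, hn, by
      rw [(agree_pow hD hD' i1 hag n (periodic_mem_nonwandering hx)).2.1, e]⟩
  have hsub : ∀ i, Λ i ⊆ nonwandering f := fun i => h3 ▸ subset_iUnion Λ i
  have hqΩ := periodic_mem_nonwandering hq
  have hqo : orbit f' q = orbit f q := agree_orbit hD hD' i1 i2 hag hqΩ
  have hqh : IsHyperbolic f' (orbit f' q) := by
    rw [hqo]
    exact hq1.agree hD hD' (fun x => apply_mem_orbit) (fun x => inv_apply_mem_orbit)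
      fun x hx => hag x (orbit_subset i1 i2 hqΩ hx)
  refine ⟨hD', ⟨?_, ?_⟩, ⟨k, Λ, fun i => ⟨(h1 i).1, ?_, ?_⟩, h2, by rw [hΩ, h3], fun i hi => ?_⟩,
    q, hper hq, hqh, ?_⟩
  · rw [hΩ]; exact hH.agree hD hD' i1 i2 hag
  · rw [hΩ]; exact hP.trans (closure_mono hper)
  · rw [image_congr fun x hx => (hag x (hsub i hx)).1]; exact (h1 i).2.1
  · obtain ⟨x, hx, hx'⟩ := (h1 i).2.2
    exact ⟨x, hx, by rwa [agree_orbit hD hD' i1 i2 hag (hsub i hx)]⟩
  · set r' := fun a b => a ≠ b ∧ ((Ws f'⁻¹ (Λ a) ∩ Ws f' (Λ b)) \ nonwandering f').Nonempty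
    set r := fun a b => a ≠ b ∧ ((Ws f⁻¹ (Λ a) ∩ Ws f (Λ b)) \ nonwandering f).Nonempty
    have c1 : ∀ a b, r' a b → p ∉ Λ a := by
      rintro a b ⟨-, x, ⟨hx1, -⟩, hx3⟩ hpa
      obtain ⟨y, hy, hy'⟩ := (h1 a).2.2
      obtain ⟨z, hz, hz'⟩ := mem_closure_iff_nhds.1 (hy' hpa) U (hU.mem_nhds hpU)
      have e1 : z = p := ha.eq_of_nonwandering hD hU hz (orbit_subset i1 i2 (hsub a hy) hz')
      have e2 : y = p := eq_of_mem_orbit_fixed hp (e1 ▸ hz')
      rw [e2, orbit_fixed hp, closure_singleton] at hy'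
      have e3 : Λ a = {p} := Subset.antisymm hy' (singleton_subset_iff.2 hpa)
      rw [e3] at hx1
      apply hx3
      rw [ha'.eq_of_mem_Ws (hU.mem_nhds hpU) hx1]
      exact periodic_mem_nonwandering (fixed_mem_periodic hp')
    have c2 : ∀ a b, r' a b → p ∉ Λ b → r a b := by
      rintro a b ⟨hab, x, ⟨hx1, hx2⟩, hx3⟩ hpb
      obtain ⟨y, hy, -⟩ := (h1 b).2.2
      have hav := ha'.avoid hKU hm' (h1 b).1 ⟨y, hy⟩ hpb hx2
      have hag' : ∀ z ∈ orbit f' x, f z = f' z ∧ D f z = D f' z := fun z hz =>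
        ⟨(hoff z (hav z hz)).1.symm, (hoff z (hav z hz)).2.symm⟩
      refine ⟨hab, x, ⟨?_, ?_⟩, by rwa [← hΩ]⟩
      · exact (agree_Ws (inv_mem_Diff1 hD') (inv_mem_Diff1 hD) (fun z => inv_apply_mem_orbit)
          (fun z hz => agree_inv hD' hD (fun z => inv_apply_mem_orbit) hag' hz)
          (mem_orbit_self f' x)).1 _ hx1
      · exact (agree_Ws hD' hD (fun z => apply_mem_orbit) hag' (mem_orbit_self f' x)).1 _ hx2
    have c3 : ∀ a b, Relation.TransGen r' a b → p ∉ Λ b → Relation.TransGen r a b := by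
      intro a b hab
      induction hab with
      | single hab => exact fun hb => .single (c2 _ _ hab hb)
      | tail _ hbc ih => exact fun hc => (ih (c1 _ _ hbc)).tail (c2 _ _ hbc hc)
    obtain ⟨j, hj, -⟩ := Relation.TransGen.head'_iff.1 hi
    exact h4 i (c3 i i hi (c1 i j hj))
  · obtain ⟨x, hx, hx1, hx2, hx3⟩ := (homoclinicClass_ne_iff hq hq1).1 hq2
    have hpq : p ∉ orbit f q := by
      intro hc
      have e := eq_of_mem_orbit_fixed hp hc
      rw [e, orbit_fixed hp] at hx hx2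
      exact hx (ha.eq_of_mem_Ws (hU.mem_nhds hpU) hx2)
    have hav := ha.avoid hKU hm (finite_orbit hq).isClosed ⟨q, mem_orbit_self f q⟩ hpq hx1
    have hag' : ∀ z ∈ orbit f x, f' z = f z ∧ D f' z = D f z := fun z hz => hoff z (hav z hz)
    have a1 := agree_Ws hD hD' (fun z => apply_mem_orbit) hag' (mem_orbit_self f x)
    have a2 := agree_Ws (inv_mem_Diff1 hD) (inv_mem_Diff1 hD') (fun z => inv_apply_mem_orbit)
      (fun z hz => agree_inv hD hD' (fun z => inv_apply_mem_orbit) hag' hz) (mem_orbit_self f x)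
    refine (homoclinicClass_ne_iff (hper hq) hqh).2 ⟨x, by rwa [hqo], ?_, ?_, ?_⟩
    · rw [hqo]; exact a1.1 _ hx1
    · rw [hqo]; exact a2.1 _ hx2
    · rw [a1.2, a2.2]; exact hx3

end Pool.Agent.Lib.MP_fe72db_an
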